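import Mathlib
import Pool.Agent.Lib.MP_f9aece_nt.PrimeSums

/-!
Prime sums and Euler products slightly to the right of the line with real part one.
-/

set_option autoImplicit false

namespace Pool.Agent.Lib.MP_f9aece_nt_h5

open Finset
open Pool.Agent.Lib.MP_f9aece_nt

/-- lower bound for the prime sum at `1 + 2 δ` -/
theorem prime_sum_lower (p0 : ℕ) : ∃ c : ℝ, ∀ δ : ℝ, 0 < δ → δ ≤ 1 / 4 → ∀ y : ℝ,
    Real.exp (1 / δ) ≤ y →
    Real.log (1 / δ) - c ≤ ∑ p ∈ (Finset.Ioc p0 ⌊y⌋₊).filter Nat.Prime, (p : ℝ) ^ (-(1 + 2 * δ)) := by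
  refine ⟨p0 + 5, ?_⟩
  intro δ hδ hδ4 y hy
  set z := Real.exp (1 / δ) with hz
  have h4 : 4 ≤ 1 / δ := by
    rw [le_div_iff₀ hδ]; linarith
  have hz1 : 5 ≤ z := by
    have := Real.add_one_le_exp (1 / δ)
    linarith
  have hz0 : 0 < z := by linarith
  set n := ⌊z⌋₊ with hn
  have hn1 : 1 ≤ n := by
    apply Nat.le_floor
    push_cast
    linarith
  have hnz : (n : ℝ) ≤ z := Nat.floor_le hz0.le
  have hzn : z < n + 1 := Nat.lt_floor_add_one z
  have hny : n ≤ ⌊y⌋₊ := Nat.floor_le_floor hy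
  -- Mertens lower bound
  have hm : Real.log (1 / δ) - 1 ≤ ∑ p ∈ (Ioc 0 n).filter Nat.Prime, (p : ℝ)⁻¹ := by
    have h1 := sum_inv_primes_ge (N := n + 1) (by omega)
    have h2 : (n + 1).primesBelow = (Ioc 0 n).filter Nat.Prime := by
      ext p
      rw [Nat.mem_primesBelow, Finset.mem_filter, Finset.mem_Ioc]
      constructor
      · rintro ⟨h, hp⟩
        exact ⟨⟨hp.pos, by omega⟩, hp⟩
      · rintro ⟨h, hp⟩
        exact ⟨by omega, hp⟩
    rw [h2] at h1
    refine le_trans ?_ h1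
    have h3 : 1 / δ ≤ Real.log ((n + 1 : ℕ) : ℝ) := by
      rw [Real.le_log_iff_exp_le (by positivity)]
      push_cast
      exact hzn.le
    have h5 : Real.log (1 / δ) ≤ Real.log (Real.log ((n + 1 : ℕ) : ℝ)) :=
      Real.log_le_log (by positivity) h3
    linarith
  have hl := sum_log_div_le hn1
  have hln : Real.log n ≤ 1 / δ := by
    rw [Real.log_le_iff_le_exp (by exact_mod_cast hn1)]
    exact hnz
  have hlog4 : Real.log 4 ≤ 2 := by
    have h5 : Real.log 4 = 2 * Real.log 2 := by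
      rw [show (4 : ℝ) = 2 ^ 2 by norm_num, Real.log_pow]; norm_num
    have := Real.log_two_lt_d9
    linarith
  -- pointwise
  have hpt : ∀ p ∈ (Ioc 0 n).filter Nat.Prime,
      (p : ℝ)⁻¹ - 2 * δ * (Real.log p / p) ≤ (p : ℝ) ^ (-(1 + 2 * δ)) := by
    intro p hp
    rw [Finset.mem_filter, Finset.mem_Ioc] at hp
    have hp0 : (0 : ℝ) < p := by exact_mod_cast hp.1.1
    have e1 : (p : ℝ) ^ (-(1 + 2 * δ)) = (p : ℝ)⁻¹ * Real.exp (-(2 * δ * Real.log p)) := by
      rw [show -(1 + 2 * δ) = -1 + (-(2 * δ)) by ring, Real.rpow_add hp0, Real.rpow_neg_one,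
        Real.rpow_def_of_pos hp0]
      congr 2
      ring
    rw [e1]
    have e2 := Real.add_one_le_exp (-(2 * δ * Real.log p))
    have e3 : (0 : ℝ) ≤ (p : ℝ)⁻¹ := by positivity
    calc (p : ℝ)⁻¹ - 2 * δ * (Real.log p / p) = (p : ℝ)⁻¹ * (-(2 * δ * Real.log p) + 1) := by
          field_simp
          ring
      _ ≤ _ := by gcongr
  have hsum : ∑ p ∈ (Ioc 0 n).filter Nat.Prime, ((p : ℝ)⁻¹ - 2 * δ * (Real.log p / p))
      ≤ ∑ p ∈ (Ioc 0 n).filter Nat.Prime, (p : ℝ) ^ (-(1 + 2 * δ)) :=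
    Finset.sum_le_sum hpt
  rw [Finset.sum_sub_distrib, ← Finset.mul_sum] at hsum
  have hb : 2 * δ * ∑ p ∈ (Ioc 0 n).filter Nat.Prime, Real.log p / p ≤ 3 := by
    calc 2 * δ * ∑ p ∈ (Ioc 0 n).filter Nat.Prime, Real.log p / p
        ≤ 2 * δ * (1 / δ + 2) := by
          gcongr
          linarith
      _ = 2 + 4 * δ := by field_simp; ring
      _ ≤ 3 := by linarith
  -- split off the small primes
  have hsplit : ∑ p ∈ (Ioc 0 n).filter Nat.Prime, (p : ℝ) ^ (-(1 + 2 * δ))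
      ≤ ∑ p ∈ (Ioc p0 ⌊y⌋₊).filter Nat.Prime, (p : ℝ) ^ (-(1 + 2 * δ))
        + ∑ p ∈ Ioc 0 p0, (p : ℝ) ^ (-(1 + 2 * δ)) := by
    have hsub : (Ioc 0 n).filter Nat.Prime ⊆ (Ioc p0 ⌊y⌋₊).filter Nat.Prime ∪ Ioc 0 p0 := by
      intro p hp
      rw [Finset.mem_filter, Finset.mem_Ioc] at hp
      rw [Finset.mem_union, Finset.mem_filter, Finset.mem_Ioc, Finset.mem_Ioc]
      rcases le_or_gt p p0 with h | h
      · right
        exact ⟨hp.1.1, h⟩
      · left
        exact ⟨⟨h, hp.1.2.trans hny⟩, hp.2⟩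
    have hd : Disjoint ((Ioc p0 ⌊y⌋₊).filter Nat.Prime) (Ioc 0 p0) := by
      rw [Finset.disjoint_left]
      intro p hp hq
      rw [Finset.mem_filter, Finset.mem_Ioc] at hp
      rw [Finset.mem_Ioc] at hq
      omega
    rw [← Finset.sum_union hd]
    exact Finset.sum_le_sum_of_subset_of_nonneg hsub fun p _ _ => by positivity
  have hsmall : ∑ p ∈ Ioc 0 p0, (p : ℝ) ^ (-(1 + 2 * δ)) ≤ p0 := by
    calc ∑ p ∈ Ioc 0 p0, (p : ℝ) ^ (-(1 + 2 * δ)) ≤ ∑ p ∈ Ioc 0 p0, (1 : ℝ) := by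
          refine Finset.sum_le_sum fun p hp => ?_
          rw [Finset.mem_Ioc] at hp
          exact Real.rpow_le_one_of_one_le_of_nonpos (by exact_mod_cast hp.1) (by linarith)
      _ = p0 := by simp
  linarith

/-- Chebyshev bound for the number of primes of a dyadic block -/
lemma sum_block_le {X : ℝ} (hX : 2 ≤ X) (s : Finset ℕ)
    (hs : ∀ p ∈ s, p.Prime ∧ X < p ∧ (p : ℝ) ≤ 2 * X) :
    (s.card : ℝ) * Real.log X ≤ 3 * X := by
  have h0 : (s.card : ℝ) * Real.log X ≤ ∑ p ∈ s, Real.log p := by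
    rw [← nsmul_eq_mul, ← Finset.sum_const]
    refine Finset.sum_le_sum fun p hp => ?_
    apply Real.log_le_log (by linarith) (hs p hp).2.1.le
  have h1 : ∑ p ∈ s, Real.log p ≤ Chebyshev.theta (2 * X) := by
    rw [Chebyshev.theta]
    refine Finset.sum_le_sum_of_subset_of_nonneg ?_ fun p _ _ => Real.log_natCast_nonneg p
    intro p hp
    rw [Finset.mem_filter, Finset.mem_Ioc]
    exact ⟨⟨(hs p hp).1.pos, Nat.le_floor (hs p hp).2.2⟩, (hs p hp).1⟩
  have h2 := Chebyshev.theta_le_log4_mul_x (x := 2 * X) (by linarith)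
  have hlog4 : Real.log 4 ≤ 1.4 := by
    have h5 : Real.log 4 = 2 * Real.log 2 := by
      rw [show (4 : ℝ) = 2 ^ 2 by norm_num, Real.log_pow]; norm_num
    have := Real.log_two_lt_d9
    linarith
  nlinarith

/-- tail of the prime sum, finite form -/
lemma tail_finite {δ y : ℝ} (hδ : 0 < δ) (hδ4 : δ ≤ 1 / 4) (hy : 2 ≤ y)
    (s : Finset ℕ) (hs : ∀ p ∈ s, p.Prime ∧ y < p) :
    ∑ p ∈ s, (p : ℝ) ^ (-(1 + 2 * δ)) ≤ 6 / (δ * Real.log y) := by
  have hlogy : 0 < Real.log y := Real.log_pos (by linarith)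
  have hy0 : 0 < y := by linarith
  -- dyadic blocks
  let B : ℕ → Finset ℕ := fun k => s.filter (fun p => 2 ^ k * y < p ∧ (p : ℝ) ≤ 2 * (2 ^ k * y))
  obtain ⟨K, hK⟩ : ∃ K : ℕ, ∀ p ∈ s, (p : ℝ) ≤ 2 ^ K * y := by
    refine ⟨s.sup id, fun p hp => ?_⟩
    have h1 : p ≤ s.sup id := Finset.le_sup (f := id) hp
    have h2 : (p : ℝ) ≤ 2 ^ (s.sup id) := by
      exact_mod_cast h1.trans (Nat.lt_two_pow_self).le
    calc (p : ℝ) ≤ 2 ^ (s.sup id) * 1 := by linarith
      _ ≤ _ := by gcongr; linarith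
  have hcov : s ⊆ (Finset.range K).biUnion B := by
    intro p hp
    rw [Finset.mem_biUnion]
    have hex : ∃ k : ℕ, (p : ℝ) ≤ 2 ^ k * y := ⟨K, hK p hp⟩
    classical
    let k := Nat.find hex
    have hk : (p : ℝ) ≤ 2 ^ k * y := Nat.find_spec hex
    have hk0 : k ≠ 0 := by
      intro h
      rw [h] at hk
      have := (hs p hp).2
      simp at hk
      linarith
    have hkK : k ≤ K := Nat.find_min' hex (hK p hp)
    have hk1 : ¬ (p : ℝ) ≤ 2 ^ (k - 1) * y := Nat.find_min hex (by omega)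
    refine ⟨k - 1, Finset.mem_range.mpr (by omega), ?_⟩
    rw [Finset.mem_filter]
    refine ⟨hp, not_le.mp hk1, ?_⟩
    have e : (2 : ℝ) ^ k = 2 * 2 ^ (k - 1) := by
      rw [← pow_succ', Nat.sub_add_cancel (by omega)]
    rw [e] at hk
    linarith
  -- block estimate
  have hblock : ∀ k : ℕ, ∑ p ∈ B k, (p : ℝ) ^ (-(1 + 2 * δ))
      ≤ 3 / Real.log y * ((2 : ℝ) ^ (-(2 * δ))) ^ k := by
    intro k
    set X : ℝ := 2 ^ k * y with hX
    have h2k : (1 : ℝ) ≤ 2 ^ k := one_le_pow₀ (by norm_num)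
    have hyX : y ≤ X := by
      calc y = 1 * y := (one_mul y).symm
        _ ≤ X := by rw [hX]; gcongr
    have hX2 : 2 ≤ X := hy.trans hyX
    have hX0 : 0 < X := by linarith
    have hc := sum_block_le hX2 (B k) (fun p hp => by
      rw [Finset.mem_filter] at hp
      exact ⟨(hs p hp.1).1, hp.2.1, hp.2.2⟩)
    have hlX : Real.log y ≤ Real.log X := Real.log_le_log hy0 hyX
    have hcard : ((B k).card : ℝ) ≤ 3 * X / Real.log y := by
      rw [le_div_iff₀ hlogy]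
      calc ((B k).card : ℝ) * Real.log y ≤ ((B k).card : ℝ) * Real.log X := by gcongr
        _ ≤ 3 * X := hc
    have hp1 : ∀ p ∈ B k, (p : ℝ) ^ (-(1 + 2 * δ)) ≤ X ^ (-(1 + 2 * δ)) := by
      intro p hp
      rw [Finset.mem_filter] at hp
      exact Real.rpow_le_rpow_of_nonpos hX0 hp.2.1.le (by linarith)
    calc ∑ p ∈ B k, (p : ℝ) ^ (-(1 + 2 * δ)) ≤ ∑ p ∈ B k, X ^ (-(1 + 2 * δ)) :=
          Finset.sum_le_sum hp1
      _ = ((B k).card : ℝ) * X ^ (-(1 + 2 * δ)) := by rw [Finset.sum_const, nsmul_eq_mul]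
      _ ≤ 3 * X / Real.log y * X ^ (-(1 + 2 * δ)) := by gcongr
      _ = 3 / Real.log y * X ^ (-(2 * δ)) := by
          rw [show -(1 + 2 * δ) = -1 + (-(2 * δ)) by ring, Real.rpow_add hX0, Real.rpow_neg_one]
          field_simp
      _ ≤ 3 / Real.log y * ((2 : ℝ) ^ (-(2 * δ))) ^ k := by
          gcongr
          rw [hX, Real.mul_rpow (by positivity) hy0.le]
          have e1 : ((2 : ℝ) ^ k) ^ (-(2 * δ)) = ((2 : ℝ) ^ (-(2 * δ))) ^ k := by
            rw [← Real.rpow_natCast, ← Real.rpow_natCast, ← Real.rpow_mul (by norm_num),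
              ← Real.rpow_mul (by norm_num)]
            congr 1
            ring
          have e2 : y ^ (-(2 * δ)) ≤ 1 :=
            Real.rpow_le_one_of_one_le_of_nonpos (by linarith) (by linarith)
          rw [e1]
          calc ((2 : ℝ) ^ (-(2 * δ))) ^ k * y ^ (-(2 * δ)) ≤ ((2 : ℝ) ^ (-(2 * δ))) ^ k * 1 := by
                gcongr
            _ = _ := mul_one _
  -- the ratio
  have hr0 : 0 ≤ (2 : ℝ) ^ (-(2 * δ)) := by positivity
  have hr1 : (2 : ℝ) ^ (-(2 * δ)) ≤ 1 - δ / 2 := by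
    rw [Real.rpow_def_of_pos (by norm_num)]
    -- `exp (-u) ≤ 1 - u + u ^ 2 / 2` is avoided: use `exp (-u) ≤ 1 / (1 + u)`
    set u := 2 * δ * Real.log 2 with hu
    have h1 := Real.log_two_gt_d9
    have h2 := Real.log_two_lt_d9
    have hu0 : 0 < u := by positivity
    have hu1 : δ * 1.38 ≤ u := by rw [hu]; nlinarith
    have e1 : Real.log 2 * -(2 * δ) = -u := by rw [hu]; ring
    rw [e1, Real.exp_neg]
    have e2 : 1 + u ≤ Real.exp u := by linarith [Real.add_one_le_exp u]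
    calc (Real.exp u)⁻¹ ≤ (1 + u)⁻¹ := by gcongr
      _ ≤ 1 - δ / 2 := by
          rw [inv_le_iff_one_le_mul₀ (by linarith)]
          nlinarith
  have hr2 : (2 : ℝ) ^ (-(2 * δ)) < 1 := by linarith
  calc ∑ p ∈ s, (p : ℝ) ^ (-(1 + 2 * δ))
      ≤ ∑ p ∈ s, ∑ k ∈ Finset.range K, (if p ∈ B k then (p : ℝ) ^ (-(1 + 2 * δ)) else 0) := by
        refine Finset.sum_le_sum fun p hp => ?_
        obtain ⟨k, hk, hpk⟩ := Finset.mem_biUnion.mp (hcov hp)
        have h1 : (if p ∈ B k then (p : ℝ) ^ (-(1 + 2 * δ)) else 0)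
            ≤ ∑ k ∈ Finset.range K, (if p ∈ B k then (p : ℝ) ^ (-(1 + 2 * δ)) else 0) := by
          refine Finset.single_le_sum (f := fun k => if p ∈ B k then (p : ℝ) ^ (-(1 + 2 * δ)) else 0)
            (fun i _ => ?_) hk
          split_ifs
          · positivity
          · exact le_rfl
        rw [if_pos hpk] at h1
        exact h1
    _ = ∑ k ∈ Finset.range K, ∑ p ∈ B k, (p : ℝ) ^ (-(1 + 2 * δ)) := by
        rw [Finset.sum_comm]
        refine Finset.sum_congr rfl fun k _ => ?_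
        rw [← Finset.sum_filter]
        refine Finset.sum_congr ?_ fun _ _ => rfl
        ext p
        simp only [B, Finset.mem_filter]
        tauto
    _ ≤ ∑ k ∈ Finset.range K, 3 / Real.log y * ((2 : ℝ) ^ (-(2 * δ))) ^ k :=
        Finset.sum_le_sum fun k _ => hblock k
    _ = 3 / Real.log y * ∑ k ∈ Finset.range K, ((2 : ℝ) ^ (-(2 * δ))) ^ k := by
        rw [Finset.mul_sum]
    _ ≤ 3 / Real.log y * (1 - (2 : ℝ) ^ (-(2 * δ)))⁻¹ := by
        gcongr
        rw [← tsum_geometric_of_lt_one hr0 hr2]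
        exact (summable_geometric_of_lt_one hr0 hr2).sum_le_tsum _ (fun i _ => by positivity)
    _ ≤ 3 / Real.log y * (δ / 2)⁻¹ := by
        gcongr
        linarith
    _ = 6 / (δ * Real.log y) := by field_simp; norm_num

/-- the zeta value at `1 + 2 δ` is captured by the primes up to `exp (C / δ)` -/
theorem zeta_tail (ε : ℝ) (hε : 0 < ε) : ∃ C0 : ℝ, ∀ δ : ℝ, 0 < δ → δ ≤ 1 / 4 → ∀ y : ℝ,
    Real.exp (C0 / δ) ≤ y →
    ‖riemannZeta (1 + 2 * (δ : ℂ))‖
      ≤ (1 + ε) * ∏ p ∈ (Finset.Ioc 0 ⌊y⌋₊).filter Nat.Prime, (1 - (p : ℝ) ^ (-(1 + 2 * δ)))⁻¹ := by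
  have hlε : 0 < Real.log (1 + ε) := Real.log_pos (by linarith)
  refine ⟨1 + 12 / Real.log (1 + ε), ?_⟩
  intro δ hδ hδ4 y hy
  set C0 := 1 + 12 / Real.log (1 + ε) with hC0
  have hC1 : 1 ≤ C0 := by
    have : 0 ≤ 12 / Real.log (1 + ε) := by positivity
    linarith
  have hC12 : 12 / C0 ≤ Real.log (1 + ε) := by
    rw [div_le_iff₀ (by linarith), hC0, mul_add, mul_div_cancel₀ _ hlε.ne']
    linarith
  have h4 : 4 ≤ 1 / δ := by
    rw [le_div_iff₀ hδ]; linarith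
  have hCδ : 1 / δ ≤ C0 / δ := by gcongr
  have hy2 : 2 ≤ y := by
    have := Real.add_one_le_exp (C0 / δ)
    linarith
  have hy0 : 0 < y := by linarith
  have hlogy : C0 / δ ≤ Real.log y := by
    rw [Real.le_log_iff_exp_le hy0]
    exact hy
  have hlogy0 : 0 < Real.log y := by
    have : 0 < C0 / δ := by positivity
    linarith
  have hre : (1 + 2 * (δ : ℂ)).re = 1 + 2 * δ := by simp
  have hep := riemannZeta_eulerProduct (s := 1 + 2 * (δ : ℂ)) (by rw [hre]; linarith)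
  have hlim := hep.norm
  refine le_of_tendsto hlim ?_
  filter_upwards [Filter.eventually_gt_atTop ⌊y⌋₊] with n hn
  have ha : ∀ p : ℕ, p.Prime → 0 < (p : ℝ) ^ (-(1 + 2 * δ)) ∧ (p : ℝ) ^ (-(1 + 2 * δ)) ≤ 1 / 2 := by
    intro p hp
    have hp2 : (2 : ℝ) ≤ p := by exact_mod_cast hp.two_le
    refine ⟨by positivity, ?_⟩
    calc (p : ℝ) ^ (-(1 + 2 * δ)) ≤ (p : ℝ) ^ (-1 : ℝ) :=
          Real.rpow_le_rpow_of_exponent_le (by linarith) (by linarith)
      _ = (p : ℝ)⁻¹ := Real.rpow_neg_one _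
      _ ≤ 2⁻¹ := by gcongr
      _ = 1 / 2 := by norm_num
  have hnorm : ‖∏ p ∈ n.primesBelow, (1 - (p : ℂ) ^ (-(1 + 2 * (δ : ℂ))))⁻¹‖
      = ∏ p ∈ n.primesBelow, (1 - (p : ℝ) ^ (-(1 + 2 * δ)))⁻¹ := by
    rw [norm_prod]
    refine Finset.prod_congr rfl fun p hp => ?_
    have hp' := Nat.prime_of_mem_primesBelow hp
    have e1 : (p : ℂ) ^ (-(1 + 2 * (δ : ℂ))) = (((p : ℝ) ^ (-(1 + 2 * δ)) : ℝ) : ℂ) := by
      rw [Complex.ofReal_cpow (by positivity)]
      push_cast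
      ring_nf
    rw [e1, ← Complex.ofReal_one, ← Complex.ofReal_sub, ← Complex.ofReal_inv, Complex.norm_real,
      Real.norm_eq_abs, abs_of_pos]
    have := ha p hp'
    rw [inv_pos]
    linarith
  rw [hnorm]
  have hsplit : n.primesBelow = (Ioc 0 ⌊y⌋₊).filter Nat.Prime
      ∪ n.primesBelow.filter (fun p : ℕ => y < (p : ℝ)) := by
    ext p
    rw [Finset.mem_union, Finset.mem_filter, Finset.mem_filter, Finset.mem_Ioc, Nat.mem_primesBelow]
    constructor
    · rintro ⟨h1, h2⟩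
      rcases le_or_gt (p : ℝ) y with h | h
      · left
        exact ⟨⟨h2.pos, Nat.le_floor h⟩, h2⟩
      · right
        exact ⟨⟨h1, h2⟩, h⟩
    · rintro (⟨⟨_, h1⟩, h2⟩ | ⟨h1, _⟩)
      · exact ⟨by omega, h2⟩
      · exact h1
  have hdisj : Disjoint ((Ioc 0 ⌊y⌋₊).filter Nat.Prime)
      (n.primesBelow.filter (fun p : ℕ => y < (p : ℝ))) := by
    rw [Finset.disjoint_left]
    intro p hp hq
    rw [Finset.mem_filter, Finset.mem_Ioc] at hp
    rw [Finset.mem_filter] at hq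
    have h1 : (p : ℝ) ≤ y := (Nat.le_floor_iff hy0.le).mp hp.1.2
    linarith [hq.2]
  rw [hsplit, Finset.prod_union hdisj, mul_comm]
  have hP0 : 0 ≤ ∏ p ∈ (Ioc 0 ⌊y⌋₊).filter Nat.Prime, (1 - (p : ℝ) ^ (-(1 + 2 * δ)))⁻¹ := by
    refine Finset.prod_nonneg fun p hp => ?_
    have := ha p (Finset.mem_filter.mp hp).2
    rw [inv_nonneg]
    linarith
  refine mul_le_mul_of_nonneg_right ?_ hP0
  calc ∏ p ∈ n.primesBelow.filter (fun p : ℕ => y < (p : ℝ)), (1 - (p : ℝ) ^ (-(1 + 2 * δ)))⁻¹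
      ≤ ∏ p ∈ n.primesBelow.filter (fun p : ℕ => y < (p : ℝ)),
          Real.exp (2 * (p : ℝ) ^ (-(1 + 2 * δ))) := by
        refine Finset.prod_le_prod (fun p hp => ?_) (fun p hp => ?_)
        · have := ha p (Nat.prime_of_mem_primesBelow (Finset.mem_filter.mp hp).1)
          rw [inv_nonneg]
          linarith
        · have h1 := ha p (Nat.prime_of_mem_primesBelow (Finset.mem_filter.mp hp).1)
          set a := (p : ℝ) ^ (-(1 + 2 * δ)) with hadef
          have h2 := Real.add_one_le_exp (2 * a)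
          refine le_trans ?_ h2
          rw [inv_le_iff_one_le_mul₀ (by linarith)]
          nlinarith
    _ = Real.exp (2 * ∑ p ∈ n.primesBelow.filter (fun p : ℕ => y < (p : ℝ)),
          (p : ℝ) ^ (-(1 + 2 * δ))) := by
        rw [← Real.exp_sum, Finset.mul_sum]
    _ ≤ Real.exp (2 * (6 / (δ * Real.log y))) := by
        apply Real.exp_le_exp.mpr
        gcongr
        refine tail_finite hδ hδ4 hy2 _ ?_
        intro p hp
        rw [Finset.mem_filter] at hp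
        exact ⟨Nat.prime_of_mem_primesBelow hp.1, hp.2⟩
    _ ≤ Real.exp (Real.log (1 + ε)) := by
        apply Real.exp_le_exp.mpr
        refine le_trans ?_ hC12
        have h5 : C0 ≤ δ * Real.log y := by
          rw [div_le_iff₀ hδ] at hlogy
          linarith
        calc 2 * (6 / (δ * Real.log y)) = 12 / (δ * Real.log y) := by ring
          _ ≤ 12 / C0 := by gcongr
    _ = 1 + ε := Real.exp_log (by linarith)

end Pool.Agent.Lib.MP_f9aece_nt_h5
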