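import Mathlib
import Pool.Agent.Lib.MP_f9aece_nt_h97.OffDefs

/-!
Evaluation of Dirichlet polynomials at complex points, and twisting of coefficients.
-/

set_option autoImplicit false

namespace Pool.Agent.Lib.MP_f9aece_nt_h5

open MeasureTheory Set Filter Topology Complex
open Pool.Agent.Lib.MP_f9aece_nt Pool.Agent.Lib.MP_f9aece_nt_h97
open scoped ArithmeticFunction.Omega

/-- evaluation at `s` as an algebra homomorphism -/
noncomputable def evS (s : ℂ) : DP →ₐ[ℝ] ℂ :=
  MonoidAlgebra.lift ℝ ℂ ℕ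
    { toFun := fun n => (n : ℂ) ^ (-s)
      map_one' := by simp
      map_mul' := fun m n => by
        push_cast
        exact Complex.natCast_mul_natCast_cpow m n _ }

lemma evS_apply (s : ℂ) (f : DP) : evS s f = evs s f := by
  rw [evS, MonoidAlgebra.lift_apply, Finsupp.sum, evs]
  refine Finset.sum_congr rfl fun a _ => ?_
  rw [Complex.real_smul]
  rfl

lemma evS_single (s : ℂ) (a : ℕ) (x : ℝ) :
    evS s (MonoidAlgebra.single a x) = (x : ℂ) * (a : ℂ) ^ (-s) := by
  rw [evS, MonoidAlgebra.lift_single, Complex.real_smul]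
  rfl

lemma evs_mul (s : ℂ) (f g : DP) : evs s (f * g) = evs s f * evs s g := by
  rw [← evS_apply, ← evS_apply, ← evS_apply, map_mul]

lemma evs_add (s : ℂ) (f g : DP) : evs s (f + g) = evs s f + evs s g := by
  rw [← evS_apply, ← evS_apply, ← evS_apply, map_add]

lemma evs_pow (s : ℂ) (f : DP) (n : ℕ) : evs s (f ^ n) = evs s f ^ n := by
  rw [← evS_apply, ← evS_apply, map_pow]

lemma evs_one (s : ℂ) : evs s 1 = 1 := by
  rw [← evS_apply, map_one]

lemma evs_prod {ι : Type} (s : ℂ) (t : Finset ι) (f : ι → DP) :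
    evs s (∏ i ∈ t, f i) = ∏ i ∈ t, evs s (f i) := by
  rw [← evS_apply, map_prod]
  exact Finset.prod_congr rfl fun i _ => evS_apply s (f i)

lemma evs_PP (s : ℂ) (I : Finset ℕ) : evs s (PP I) = ∑ p ∈ I, (p : ℂ) ^ (-s) := by
  rw [← evS_apply, PP, map_sum]
  refine Finset.sum_congr rfl fun p _ => ?_
  rw [evS_single]
  simp

lemma evs_expo (s : ℂ) (c : ℝ) (M : ℕ) (I : Finset ℕ) :
    evs s (expo c M I) = EE M (c * ∑ p ∈ I, (p : ℂ) ^ (-s)) := by
  rw [← evs_PP, ← evS_apply, ← evS_apply, expo, map_sum, EE]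
  refine Finset.sum_congr rfl fun r _ => ?_
  rw [map_smul, map_pow, Complex.real_smul, mul_pow]
  push_cast
  ring

/-! ### twisting -/

/-- multiply the coefficient at `n` by `n^(-δ)` -/
noncomputable def tw (δ : ℝ) : DP →ₐ[ℝ] DP :=
  MonoidAlgebra.lift ℝ DP ℕ
    { toFun := fun n => MonoidAlgebra.single n ((n : ℝ) ^ (-δ))
      map_one' := by
        rw [Nat.cast_one, Real.one_rpow]
        rfl
      map_mul' := fun m n => by
        rw [MonoidAlgebra.single_mul_single]
        push_cast
        rw [Real.mul_rpow (Nat.cast_nonneg _) (Nat.cast_nonneg _)] }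

lemma tw_single (δ : ℝ) (a : ℕ) (x : ℝ) :
    tw δ (MonoidAlgebra.single a x) = MonoidAlgebra.single a (x * (a : ℝ) ^ (-δ)) := by
  rw [tw, MonoidAlgebra.lift_single]
  change x • MonoidAlgebra.single a ((a : ℝ) ^ (-δ)) = _
  rw [MonoidAlgebra.smul_single, smul_eq_mul]

lemma coeff_tw (δ : ℝ) (f : DP) (n : ℕ) : (tw δ f).coeff n = f.coeff n * (n : ℝ) ^ (-δ) := by
  induction f using MonoidAlgebra.induction_linear with
  | zero => simp
  | add x y hx hy =>
    rw [map_add, MonoidAlgebra.coeff_add, Finsupp.add_apply, hx, hy, MonoidAlgebra.coeff_add,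
      Finsupp.add_apply]
    ring
  | single m r =>
    rw [tw_single, MonoidAlgebra.coeff_single, MonoidAlgebra.coeff_single, Finsupp.single_apply,
      Finsupp.single_apply]
    split_ifs with h
    · rw [h]
    · ring

lemma cone_tw {A : Set ℕ} {f : DP} (δ : ℝ) (hf : Cone A f) : Cone A (tw δ f) := by
  intro n
  rw [coeff_tw]
  refine ⟨mul_nonneg (hf n).1 (by positivity), fun h => (hf n).2 (left_ne_zero_of_mul h)⟩

lemma pair_tw (δ : ℝ) (φ : ℕ → ℝ) (f : DP) :
    pair φ (tw δ f) = pair (fun n => (n : ℝ) ^ (-δ) * φ n) f := by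
  induction f using MonoidAlgebra.induction_linear with
  | zero => simp
  | add x y hx hy => rw [map_add, pair_add, pair_add, hx, hy]
  | single m r =>
    rw [tw_single, pair_single, pair_single]
    ring

lemma ev_tw {δ : ℝ} (hδ : 0 ≤ δ) (t : ℝ) (f : DP) : ev t (tw δ f) = evs (((1 / 2 + δ : ℝ) : ℂ) + I * t) f := by
  rw [← evS_apply]
  induction f using MonoidAlgebra.induction_linear with
  | zero => simp
  | add x y hx hy => rw [map_add, map_add, map_add, hx, hy]
  | single m r =>
    rw [tw_single, ev_single, evS_single]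
    push_cast
    rw [mul_assoc]
    congr 1
    rcases Nat.eq_zero_or_pos m with rfl | hm
    · have h1 : -(1 / 2 + I * (t : ℂ)) ≠ 0 := by
        intro h
        have := congrArg Complex.re h
        simp at this
      simp only [Nat.cast_zero]
      rw [Complex.zero_cpow h1]
      have h2 : -(1 / 2 + (δ : ℂ) + I * t) ≠ 0 := by
        intro h
        have h3 := congrArg Complex.re h
        simp at h3
        linarith
      rw [Complex.zero_cpow h2, mul_zero]
    · have hm0 : (0 : ℝ) < m := by exact_mod_cast hm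
      have hmc : (m : ℂ) ≠ 0 := by exact_mod_cast hm.ne'
      rw [Complex.ofReal_cpow hm0.le, ← Complex.ofReal_natCast, ← Complex.cpow_add _ _ (by exact_mod_cast hmc)]
      congr 1
      push_cast
      ring

end Pool.Agent.Lib.MP_f9aece_nt_h5
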