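import Mathlib
import Pool.Agent.Lib.MP_f9aece_nt_h5.EvS
import Pool.Agent.Lib.MP_f9aece_nt.LogSub

/-!
Mean values of the tilting polynomial to the right of the critical line.
-/

set_option autoImplicit false

namespace Pool.Agent.Lib.MP_f9aece_nt_h5

open MeasureTheory Set Filter Topology Complex
open Pool.Agent.Lib.MP_f9aece_nt Pool.Agent.Lib.MP_f9aece_nt_h97
open scoped ArithmeticFunction.Omega

/-- two-sided mean value on `[0,T]` -/
lemma mean_ev_abs {T lam B : ℝ} (hT : 0 < T) {f : DP} (hf : Cone (Len lam) f)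
    (hB : aug f ≤ B) :
    |(∫ t in (0 : ℝ)..T, ‖ev t f‖ ^ 2) - T * BK K1 f f| ≤ 4 * Real.exp lam * B ^ 2 := by
  set Z := ⌊Real.exp lam⌋₊ with hZ
  have hfZ : Cone {n | 1 ≤ n ∧ n ≤ Z} f := hf.mono fun n hn => by
    refine ⟨hn.1, Nat.le_floor ?_⟩
    rw [← Real.log_le_iff_le_exp (by exact_mod_cast hn.1)]
    exact hn.2
  have := unif_prob hT
  set ρ : ℝ := 4 * Real.exp lam / T with hρdef
  have hρ0 : 0 ≤ ρ := by positivity
  have hρ : ∀ a b : ℕ, 1 ≤ a → 1 ≤ b → b ≤ Z → a ≠ b →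
      ‖charFun (unif T) (Real.log b - Real.log a)‖ ≤ ρ := by
    intro a b ha hb hbZ hab
    have h1 := abs_log_sub_ge ha hb hab
    have hb0 : (0 : ℝ) < b := by exact_mod_cast hb
    have h2 : 0 < 1 / (2 * (b : ℝ)) := by positivity
    have hne : Real.log b - Real.log a ≠ 0 := by
      intro h0
      rw [h0, abs_zero] at h1
      linarith
    refine (charFun_unif_norm hT hne).trans ?_
    have hbe : (b : ℝ) ≤ Real.exp lam := by
      refine le_trans ?_ (Nat.floor_le (Real.exp_pos lam).le)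
      exact_mod_cast hbZ
    calc 2 / (T * |Real.log b - Real.log a|) ≤ 2 / (T * (1 / (2 * (b : ℝ)))) := by gcongr
      _ = 4 * b / T := by field_simp; norm_num
      _ ≤ 4 * Real.exp lam / T := by gcongr
  have h1 := mv_sq hρ hρ0 hfZ
  have huniv : (unif T).real univ = 1 := by
    unfold Measure.real
    rw [unif_univ hT]; rfl
  rw [huniv, one_mul] at h1
  have h2 : ∫ t, ‖ev t f‖ ^ 2 ∂(unif T) = (1 / T) * ∫ t in (0 : ℝ)..T, ‖ev t f‖ ^ 2 := by
    rw [unif, integral_smul_measure, intervalIntegral.integral_of_le hT.le,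
      integral_Icc_eq_integral_Ioc, ENNReal.toReal_inv, ENNReal.toReal_ofReal hT.le, smul_eq_mul,
      one_div]
  rw [h2] at h1
  have h4 : evh f ^ 2 ≤ B ^ 2 := by
    have h5 := evh_le_aug hf fun n hn => hn.1
    have h6 := evh_nonneg hf
    gcongr
    exact h5.trans hB
  have h7 : |(1 / T) * (∫ t in (0 : ℝ)..T, ‖ev t f‖ ^ 2) - BK K1 f f| ≤ ρ * B ^ 2 :=
    h1.trans (by gcongr)
  have e1 : (∫ t in (0 : ℝ)..T, ‖ev t f‖ ^ 2) - T * BK K1 f f
      = T * ((1 / T) * (∫ t in (0 : ℝ)..T, ‖ev t f‖ ^ 2) - BK K1 f f) := by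
    field_simp
  rw [e1, abs_mul, abs_of_pos hT]
  calc T * |(1 / T) * (∫ t in (0 : ℝ)..T, ‖ev t f‖ ^ 2) - BK K1 f f| ≤ T * (ρ * B ^ 2) := by gcongr
    _ = _ := by rw [hρdef]; field_simp

lemma BK_tw {δ : ℝ} (hδ : 0 ≤ δ) (f g : DP) :
    BK K1 (tw δ f) (tw δ g) = BK (K1s (1 + 2 * δ)) f g := by
  unfold BK
  rw [pair_tw]
  refine pair_congr f fun a _ => ?_
  rw [pair_tw, ← pair_const_mul]
  refine pair_congr g fun b _ => ?_
  unfold K1 K1s
  split_ifs with h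
  · subst h
    rcases Nat.eq_zero_or_pos a with rfl | ha
    · have e1 : ((0 : ℕ) : ℝ) ^ (-(1 + 2 * δ)) = 0 := by
        rw [Nat.cast_zero, Real.zero_rpow (by linarith)]
      rw [e1]
      simp
    · have ha0 : (0 : ℝ) < a := by exact_mod_cast ha
      rw [← Real.rpow_neg_one (a : ℝ), ← Real.rpow_add ha0, ← Real.rpow_add ha0]
      congr 1
      ring
  · simp

lemma tw_coeff_le {δ : ℝ} (hδ : 0 ≤ δ) {A : Set ℕ} {f : DP} (hf : Cone A f) (hA : ∀ n ∈ A, 1 ≤ n)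
    (n : ℕ) : (tw δ f).coeff n ≤ f.coeff n := by
  rw [coeff_tw]
  by_cases h : f.coeff n = 0
  · rw [h]; simp
  · have h1 : (1 : ℝ) ≤ n := by exact_mod_cast hA n ((hf n).2 h)
    have h2 : (n : ℝ) ^ (-δ) ≤ 1 := Real.rpow_le_one_of_one_le_of_nonpos h1 (by linarith)
    calc f.coeff n * (n : ℝ) ^ (-δ) ≤ f.coeff n * 1 := mul_le_mul_of_nonneg_left h2 (hf n).1
      _ = _ := mul_one _

lemma aug_tw_le {δ : ℝ} (hδ : 0 ≤ δ) {A : Set ℕ} {f : DP} (hf : Cone A f) (hA : ∀ n ∈ A, 1 ≤ n) :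
    aug (tw δ f) ≤ aug f :=
  pair_le_of_coeff_le (fun n => (cone_tw δ hf n).1) (tw_coeff_le hδ hf hA) fun _ => zero_le_one

lemma BK_tw_le {δ : ℝ} (hδ : 0 ≤ δ) {A : Set ℕ} {f : DP} (hf : Cone A f) (hA : ∀ n ∈ A, 1 ≤ n) :
    BK K1 (tw δ f) (tw δ f) ≤ BK K1 f f :=
  BK_mono (fun n => (cone_tw δ hf n).1) (tw_coeff_le hδ hf hA) (fun n => (cone_tw δ hf n).1)
    (tw_coeff_le hδ hf hA) K1_nonneg

lemma coeff_one_expo {I : Finset ℕ} (hI : ∀ p ∈ I, p.Prime) {c : ℝ} (hc : 0 ≤ c) (M : ℕ) :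
    1 ≤ (expo c M I).coeff 1 := by
  unfold expo
  rw [MonoidAlgebra.coeff_sum, Finsupp.finsetSum_apply]
  have h1 : (1 : ℝ) = ((c ^ 0 / ((0 : ℕ).factorial : ℝ)) • (PP I) ^ 0).coeff 1 := by
    simp [MonoidAlgebra.one_def]
  calc (1 : ℝ) = ((c ^ 0 / ((0 : ℕ).factorial : ℝ)) • (PP I) ^ 0).coeff 1 := h1
    _ ≤ _ := by
      refine Finset.single_le_sum (f := fun r => ((c ^ r / ((r : ℕ).factorial : ℝ)) • (PP I) ^ r).coeff 1)
        (fun r _ => ?_) (Finset.mem_range.mpr (Nat.succ_pos M))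
      exact (((cone_PP_pow hI r).smul (c := c ^ r / (r.factorial : ℝ)) (by positivity)) 1).1

/-- a diagonal form is at least the square of the first coefficient -/
lemma one_le_BK {A : Set ℕ} {f : DP} (hf : Cone A f) (h1 : 1 ≤ f.coeff 1) : 1 ≤ BK K1 f f := by
  rw [BK_K1_eq, pair_def]
  have hmem : 1 ∈ f.coeff.support := by
    rw [Finsupp.mem_support_iff]
    linarith
  have h2 : (1 : ℝ) ≤ f.coeff 1 * (f.coeff 1 * ((1 : ℕ) : ℝ)⁻¹) := by
    rw [Nat.cast_one, inv_one, mul_one]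
    nlinarith
  refine h2.trans ?_
  refine Finset.single_le_sum (f := fun a => f.coeff a * (f.coeff a * (a : ℝ)⁻¹)) (fun a _ => ?_) hmem
  have := (hf a).1
  positivity

/-- block with a high power of the prime polynomial -/
lemma BK_expo_mul_pow {I : Finset ℕ} (hI : ∀ p ∈ I, p.Prime) {c : ℝ} {M : ℕ} :
    BK K1 (expo c M I * PP I ^ M) (expo c M I * PP I ^ M)
      ≤ M.factorial * VV I ^ M * Real.exp (2 * M * VV I * c ^ 2) := by
  have hexp : expo c M I * PP I ^ M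
      = ∑ r ∈ Finset.range (M + 1), (c ^ r / (r.factorial : ℝ)) • (PP I) ^ (r + M) := by
    unfold expo
    rw [Finset.sum_mul]
    refine Finset.sum_congr rfl fun r _ => ?_
    rw [smul_mul_assoc, ← pow_add]
  have hV := VV_nonneg I
  rw [hexp, BK_sum_left]
  have h1 : ∀ r ∈ Finset.range (M + 1),
      BK K1 ((c ^ r / (r.factorial : ℝ)) • (PP I) ^ (r + M))
        (∑ s ∈ Finset.range (M + 1), (c ^ s / (s.factorial : ℝ)) • (PP I) ^ (s + M))
      ≤ M.factorial * VV I ^ M * ((2 * M * VV I * c ^ 2) ^ r / r.factorial) := by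
    intro r hr
    rw [Finset.mem_range] at hr
    rw [BK_sum_right, Finset.sum_eq_single r]
    · rw [BK_smul_left, BK_smul_right]
      have h2 := BK_PP_pow_self hI (r + M)
      have h3 : (0 : ℝ) < r.factorial := by positivity
      have h4 : ((r + M).factorial : ℝ) ≤ M.factorial * (2 * M : ℝ) ^ r := by
        have h5 : (r + M).factorial ≤ M.factorial * (2 * M) ^ r := by
          rw [add_comm r M, ← Nat.factorial_mul_ascFactorial]
          refine Nat.mul_le_mul_left _ ((Nat.ascFactorial_le_pow_add M r).trans ?_)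
          exact Nat.pow_le_pow_left (by omega) r
        exact_mod_cast h5
      have h6 : (1 : ℝ) ≤ r.factorial := by exact_mod_cast Nat.one_le_iff_ne_zero.mpr (Nat.factorial_ne_zero r)
      calc c ^ r / (r.factorial : ℝ) * (c ^ r / (r.factorial : ℝ) * BK K1 ((PP I) ^ (r + M)) ((PP I) ^ (r + M)))
          = (c ^ r / (r.factorial : ℝ)) ^ 2 * BK K1 ((PP I) ^ (r + M)) ((PP I) ^ (r + M)) := by ring
        _ ≤ (c ^ r / (r.factorial : ℝ)) ^ 2 * ((M.factorial * (2 * M : ℝ) ^ r) * (VV I) ^ (r + M)) := by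
            gcongr
            exact h2.trans (by gcongr)
        _ = M.factorial * VV I ^ M * ((2 * M * VV I * c ^ 2) ^ r / (r.factorial : ℝ)) * (1 / (r.factorial : ℝ)) := by
            rw [div_pow, mul_pow (2 * (M : ℝ) * VV I) (c ^ 2) r, mul_pow (2 * (M : ℝ)) (VV I) r, ← pow_mul,
              ← pow_mul, mul_comm r 2, pow_add]
            field_simp
        _ ≤ M.factorial * VV I ^ M * ((2 * M * VV I * c ^ 2) ^ r / (r.factorial : ℝ)) * 1 := by
            gcongr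
            rw [div_le_one h3]
            exact h6
        _ = _ := mul_one _
    · intro s _ hs
      rw [BK_smul_left, BK_smul_right, BK_PP_pow_ne hI (by omega)]
      simp
    · intro h; exact absurd (Finset.mem_range.mpr hr) h
  refine (Finset.sum_le_sum h1).trans ?_
  rw [← Finset.mul_sum]
  gcongr
  exact Real.sum_le_exp_of_nonneg (by positivity) _

/-- numerical form of the block bound -/
lemma block_num {M : ℕ} (hM : 4000 ≤ M) {V c : ℝ} (hV0 : 0 ≤ V) (hV : V ≤ 12) (hc0 : 0 < c)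
    (hc : c ≤ 1 / 100) :
    (10 / (M : ℝ)) ^ (2 * M) * (M.factorial * V ^ M * Real.exp (2 * M * V * c ^ 2)) ≤ 0.31 ^ M := by
  have hM0 : (4000 : ℝ) ≤ M := by exact_mod_cast hM
  have hMpos : (0 : ℝ) < M := by linarith
  have h1 : (M.factorial : ℝ) ≤ (M : ℝ) ^ M := by exact_mod_cast Nat.factorial_le_pow _
  have h2 : Real.exp (2 * M * V * c ^ 2) ≤ Real.exp (0.0024) ^ M := by
    rw [← Real.exp_nat_mul]
    apply Real.exp_le_exp.mpr
    have : c ^ 2 ≤ (1 / 100) ^ 2 := by gcongr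
    calc 2 * M * V * c ^ 2 ≤ 2 * M * 12 * (1 / 100) ^ 2 := by gcongr
      _ = (M : ℝ) * 0.0024 := by ring
  have h3 : Real.exp (0.0024 : ℝ) ≤ 1.03 := by
    have h4 := Real.add_one_le_exp (-(0.0024) : ℝ)
    rw [Real.exp_neg] at h4
    have h5 := Real.exp_pos (0.0024 : ℝ)
    rw [show (-(0.0024) + 1 : ℝ) = 0.9976 by norm_num, le_inv_comm₀ (by norm_num) h5] at h4
    refine h4.trans (by norm_num)
  calc (10 / (M : ℝ)) ^ (2 * M) * (M.factorial * V ^ M * Real.exp (2 * M * V * c ^ 2))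
      ≤ (10 / (M : ℝ)) ^ (2 * M) * ((M : ℝ) ^ M * 12 ^ M * Real.exp (0.0024) ^ M) := by gcongr
    _ = (1200 * Real.exp (0.0024) / M) ^ M := by
        rw [pow_mul, ← mul_pow, ← mul_pow, ← mul_pow]
        congr 1
        field_simp
        ring
    _ ≤ 0.31 ^ M := by
        gcongr
        rw [div_le_iff₀ hMpos]
        nlinarith

/-! ### lengths -/

lemma Mm_cast (m j : ℕ) : (Mm m j : ℝ) = m * 2 ^ j := by unfold Mm; push_cast; ring

lemma Mm_add_le {m : ℕ} (hm : 1 ≤ m) (j : ℕ) : m + j ≤ Mm m j := by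
  unfold Mm
  have h1 := succ_le_two_pow j
  calc m + j ≤ m + m * j := by
        have : j ≤ m * j := Nat.le_mul_of_pos_left j hm
        omega
    _ = m * (j + 1) := by ring
    _ ≤ m * 2 ^ j := Nat.mul_le_mul_left _ h1

lemma sum_lenM {m : ℕ} {Y : ℝ} (hY : 0 < Y) (J : ℕ) :
    ∑ i ∈ Finset.range J, (Mm m i : ℝ) * (Y / 4 ^ i) ≤ 2 * m * Y := by
  have h : ∑ i ∈ Finset.range J, (Mm m i : ℝ) * (Y / 4 ^ i) = 2 * m * Y - 2 * m * Y / 2 ^ J := by
    induction J with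
    | zero => simp
    | succ J ih =>
      rw [Finset.sum_range_succ, ih, Mm_cast]
      have : (4 : ℝ) ^ J = 2 ^ J * 2 ^ J := by rw [← mul_pow]; norm_num
      rw [this, pow_succ]
      field_simp
      ring
  rw [h]
  have : 0 ≤ 2 * m * Y / 2 ^ J := by positivity
  linarith

lemma lenM_le {m : ℕ} {Y : ℝ} (hY : 0 < Y) (j : ℕ) : (Mm m j : ℝ) * (Y / 4 ^ j) ≤ m * Y := by
  rw [Mm_cast]
  have h4 : (4 : ℝ) ^ j = 2 ^ j * 2 ^ j := by rw [← mul_pow]; norm_num
  have h2 : (1 : ℝ) ≤ 2 ^ j := one_le_pow₀ (by norm_num)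
  rw [h4]
  have e : (m : ℝ) * 2 ^ j * (Y / (2 ^ j * 2 ^ j)) = m * Y / 2 ^ j := by field_simp
  rw [e]
  exact div_le_self (by positivity) h2

section

variable {Y k : ℝ} {m p0 : ℕ}

lemma prime_sc (j : ℕ) : ∀ p ∈ sc Y p0 j, p.Prime := fun _ hp => sc_prime hp

lemma cone_block (hY : 0 < Y) (hk : 0 ≤ k) (M j : ℕ) :
    Cone (Len (M * (Y / 4 ^ j))) (expo k M (sc Y p0 j)) := by
  refine (cone_expo (prime_sc j) hk M).mono fun n hn => ?_
  exact ⟨Smo_pos hn.1, log_le_of_Omega (fun p hp => sc_log_le hp) (by positivity) hn.1 hn.2⟩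

lemma cone_pow_block (hY : 0 < Y) (M j : ℕ) :
    Cone (Len (M * (Y / 4 ^ j))) (PP (sc Y p0 j) ^ M) := by
  refine (cone_PP_pow (prime_sc j) M).mono fun n hn => ?_
  exact ⟨Smo_pos hn.1, log_le_of_Omega (fun p hp => sc_log_le hp) (by positivity) hn.1 hn.2.le⟩

lemma cone_B (hY : 0 < Y) (hk : 0 ≤ k) (J : ℕ) : Cone (Len (2 * m * Y)) (Bm m p0 k Y J) :=
  (cone_len_prod _ _ _ fun j _ => cone_block hY hk (Mm m j) j).mono (Len.mono (sum_lenM hY J))

lemma aug_block (hY : 0 < Y) (hk : 0 ≤ k) (hk1 : k ≤ 1) (M j : ℕ) :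
    aug (expo k M (sc Y p0 j)) ≤ Real.exp (1 + M * (Y / 4 ^ j)) := by
  have h1 : aug (expo k M (sc Y p0 j)) ≤ aug (expo 1 M (sc Y p0 j)) := by
    refine pair_le_of_coeff_le (fun n => (cone_expo (prime_sc j) hk M n).1) (fun n => ?_)
      fun _ => zero_le_one
    exact (le_abs_self _).trans (dom_expo (prime_sc j) (by rw [abs_of_nonneg hk]; exact hk1) M n)
  refine h1.trans (aug_expo_le (by positivity) ?_)
  exact card_le_exp fun p hp => ⟨(prime_sc j p hp).one_le, sc_log_le hp⟩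

lemma aug_B (hY : 0 < Y) (hk : 0 ≤ k) (hk1 : k ≤ 1) (J : ℕ) :
    aug (Bm m p0 k Y J) ≤ Real.exp (J + 2 * m * Y) := by
  unfold Bm DD
  rw [aug_prod]
  calc ∏ i ∈ Finset.range J, aug (expo k (Mm m i) (sc Y p0 i))
      ≤ ∏ i ∈ Finset.range J, Real.exp (1 + Mm m i * (Y / 4 ^ i)) :=
        Finset.prod_le_prod (fun i _ => aug_nonneg (cone_block hY hk (Mm m i) i))
          fun i _ => aug_block hY hk hk1 (Mm m i) i
    _ = Real.exp (∑ i ∈ Finset.range J, (1 + Mm m i * (Y / 4 ^ i))) := by rw [Real.exp_sum]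
    _ ≤ _ := by
        apply Real.exp_le_exp.mpr
        rw [Finset.sum_add_distrib]
        simp only [Finset.sum_const, Finset.card_range, nsmul_eq_mul, mul_one]
        have := sum_lenM (m := m) hY J
        linarith

lemma aug_pow_block (M j : ℕ) : aug (PP (sc Y p0 j) ^ M) ≤ Real.exp (M * (Y / 4 ^ j)) := by
  rw [aug_pow, aug_PP, Real.exp_nat_mul]
  gcongr
  exact card_le_exp fun p hp => ⟨(prime_sc j p hp).one_le, sc_log_le hp⟩

lemma cone_BP (hY : 0 < Y) (hk : 0 ≤ k) (J j : ℕ) :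
    Cone (Len (3 * m * Y)) (Bm m p0 k Y J * PP (sc Y p0 j) ^ Mm m j) := by
  refine ((cone_B hY hk J).mul (cone_pow_block hY (Mm m j) j) fun a ha b hb => Len.mul ha hb).mono
    (Len.mono ?_)
  have := lenM_le (m := m) hY j
  linarith

lemma aug_BP (hY : 0 < Y) (hk : 0 ≤ k) (hk1 : k ≤ 1) (J j : ℕ) :
    aug (Bm m p0 k Y J * PP (sc Y p0 j) ^ Mm m j) ≤ Real.exp (J + 3 * m * Y) := by
  rw [aug_mul]
  have h1 := aug_B (m := m) (p0 := p0) hY hk hk1 J
  have h2 := aug_pow_block (Y := Y) (p0 := p0) (Mm m j) j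
  have h3 := lenM_le (m := m) hY j
  calc aug (Bm m p0 k Y J) * aug (PP (sc Y p0 j) ^ Mm m j)
      ≤ Real.exp (J + 2 * m * Y) * Real.exp (Mm m j * (Y / 4 ^ j)) := by
        gcongr
        exact aug_nonneg (cone_pow_block hY (Mm m j) j)
    _ ≤ _ := by
        rw [← Real.exp_add]
        apply Real.exp_le_exp.mpr
        linarith

/-! ### the diagonal forms -/

/-- the form of one block -/
noncomputable def eb (δ : ℝ) (m p0 : ℕ) (k Y : ℝ) (j : ℕ) : ℝ :=
  BK K1 (tw δ (expo k (Mm m j) (sc Y p0 j))) (tw δ (expo k (Mm m j) (sc Y p0 j)))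

lemma one_le_eb (hk : 0 ≤ k) (δ : ℝ) (j : ℕ) : 1 ≤ eb δ m p0 k Y j := by
  refine one_le_BK (cone_tw δ (cone_expo (prime_sc j) hk (Mm m j))) ?_
  rw [coeff_tw, Nat.cast_one, Real.one_rpow, mul_one]
  exact coeff_one_expo (prime_sc j) hk _

lemma cone_Smo_block (hk : 0 ≤ k) (M j : ℕ) : Cone (Smo (sc Y p0 j)) (expo k M (sc Y p0 j)) :=
  (cone_expo (prime_sc j) hk M).mono fun _ hn => hn.1

lemma form_B (hY : 0 < Y) (hk : 0 ≤ k) {δ : ℝ} (hδ : 0 ≤ δ) (J : ℕ) :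
    BK (K1s (1 + 2 * δ)) (Bm m p0 k Y J) (Bm m p0 k Y J) = ∏ j ∈ Finset.range J, eb δ m p0 k Y j := by
  rw [← BK_tw hδ]
  unfold Bm DD
  rw [map_prod]
  have hcone : ∀ j ∈ Finset.range J, Cone (Smo (sc Y p0 j)) (tw δ (expo k (Mm m j) (sc Y p0 j))) :=
    fun j _ => cone_tw δ (cone_Smo_block hk (Mm m j) j)
  rw [BK_prod mulKer_K1 (Finset.range J) (sc Y p0) (fun i _ j _ hij => sc_disjoint hY hij) _ _
    hcone hcone]
  rfl

lemma form_BP (hm : 4000 ≤ m) (hY : 0 < Y) (hk0 : 0 < k) (hk : k ≤ 1 / 100) {δ : ℝ} (hδ : 0 ≤ δ)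
    {J j : ℕ} (hj : j ∈ Finset.range J) :
    (10 / (Mm m j : ℝ)) ^ (2 * Mm m j)
      * BK K1 (tw δ (Bm m p0 k Y J * PP (sc Y p0 j) ^ Mm m j))
          (tw δ (Bm m p0 k Y J * PP (sc Y p0 j) ^ Mm m j))
      ≤ 0.31 ^ Mm m j * ∏ i ∈ Finset.range J, eb δ m p0 k Y i := by
  classical
  set M := Mm m j with hM
  have hM4 : 4000 ≤ M := by
    have := Mm_add_le (m := m) (by omega) j
    omega
  set f : ℕ → DP := fun i => if i = j then expo k M (sc Y p0 j) * PP (sc Y p0 j) ^ M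
    else expo k (Mm m i) (sc Y p0 i) with hf
  have hprod : Bm m p0 k Y J * PP (sc Y p0 j) ^ M = ∏ i ∈ Finset.range J, f i := by
    unfold Bm DD
    rw [← Finset.mul_prod_erase _ _ hj, ← Finset.mul_prod_erase _ f hj]
    have e1 : f j = expo k M (sc Y p0 j) * PP (sc Y p0 j) ^ M := by rw [hf]; simp
    have e2 : ∏ i ∈ (Finset.range J).erase j, f i
        = ∏ i ∈ (Finset.range J).erase j, expo k (Mm m i) (sc Y p0 i) := by
      refine Finset.prod_congr rfl fun i hi => ?_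
      rw [hf]
      simp only
      rw [if_neg (Finset.ne_of_mem_erase hi)]
    rw [e1, e2]
    ring
  have hcone : ∀ i ∈ Finset.range J, Cone (Smo (sc Y p0 i)) (tw δ (f i)) := by
    intro i _
    refine cone_tw δ ?_
    rw [hf]
    simp only
    split_ifs with h
    · subst h
      refine (cone_Smo_block hk0.le M i).mul
        ((cone_PP_pow (prime_sc i) M).mono fun n hn => hn.1) fun a ha b hb => mul_mem_Smo ha hb
    · exact cone_Smo_block hk0.le _ i
  have hBK : BK K1 (tw δ (Bm m p0 k Y J * PP (sc Y p0 j) ^ M))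
      (tw δ (Bm m p0 k Y J * PP (sc Y p0 j) ^ M))
      = BK K1 (tw δ (f j)) (tw δ (f j)) * ∏ i ∈ (Finset.range J).erase j, eb δ m p0 k Y i := by
    rw [hprod, map_prod, BK_prod mulKer_K1 (Finset.range J) (sc Y p0)
      (fun i _ j _ hij => sc_disjoint hY hij) _ _ hcone hcone,
      ← Finset.mul_prod_erase _ _ hj]
    congr 1
    refine Finset.prod_congr rfl fun i hi => ?_
    have e : f i = expo k (Mm m i) (sc Y p0 i) := by
      rw [hf]
      simp only
      rw [if_neg (Finset.ne_of_mem_erase hi)]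
    rw [e]
    rfl
  have hfj : BK K1 (tw δ (f j)) (tw δ (f j))
      ≤ M.factorial * VV (sc Y p0 j) ^ M * Real.exp (2 * M * VV (sc Y p0 j) * k ^ 2) := by
    have e1 : f j = expo k M (sc Y p0 j) * PP (sc Y p0 j) ^ M := by rw [hf]; simp
    rw [e1]
    refine (BK_tw_le hδ (A := Smo (sc Y p0 j)) ?_ fun n hn => Smo_pos hn).trans
      (BK_expo_mul_pow (prime_sc j))
    exact (cone_Smo_block hk0.le M j).mul
      ((cone_PP_pow (prime_sc j) M).mono fun n hn => hn.1) fun a ha b hb => mul_mem_Smo ha hb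
  have hnum := block_num hM4 (VV_nonneg (sc Y p0 j)) (VV_sc_le hY p0 j) hk0 hk
  have hE0 : 0 ≤ ∏ i ∈ (Finset.range J).erase j, eb δ m p0 k Y i :=
    Finset.prod_nonneg fun i _ => zero_le_one.trans (one_le_eb hk0.le δ i)
  have hE1 : ∏ i ∈ (Finset.range J).erase j, eb δ m p0 k Y i
      ≤ ∏ i ∈ Finset.range J, eb δ m p0 k Y i := by
    rw [← Finset.mul_prod_erase _ _ hj]
    exact le_mul_of_one_le_left hE0 (one_le_eb hk0.le δ j)
  rw [hBK]
  set P := ∏ i ∈ (Finset.range J).erase j, eb δ m p0 k Y i with hP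
  set Q := ∏ i ∈ Finset.range J, eb δ m p0 k Y i with hQ
  set F := BK K1 (tw δ (f j)) (tw δ (f j)) with hF
  set G := (M.factorial : ℝ) * VV (sc Y p0 j) ^ M * Real.exp (2 * M * VV (sc Y p0 j) * k ^ 2) with hG
  have hc0 : (0 : ℝ) ≤ (10 / (M : ℝ)) ^ (2 * M) := by positivity
  have s1 : (10 / (M : ℝ)) ^ (2 * M) * (F * P) ≤ (10 / (M : ℝ)) ^ (2 * M) * G * P := by
    rw [← mul_assoc]
    exact mul_le_mul_of_nonneg_right (mul_le_mul_of_nonneg_left hfj hc0) hE0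
  have s2 : (10 / (M : ℝ)) ^ (2 * M) * G * P ≤ 0.31 ^ M * P := mul_le_mul_of_nonneg_right hnum hE0
  have s3 : (0.31 : ℝ) ^ M * P ≤ 0.31 ^ M * Q := mul_le_mul_of_nonneg_left hE1 (by positivity)
  exact s1.trans (s2.trans s3)

end

lemma sum_031 {m : ℕ} (hm : 4000 ≤ m) (J : ℕ) :
    ∑ j ∈ Finset.range J, (0.31 : ℝ) ^ Mm m j ≤ (1 / 2) ^ m := by
  have h1 : ∀ j ∈ Finset.range J, (0.31 : ℝ) ^ Mm m j ≤ (1 / 2) ^ m * (1 / 2) ^ (j + 1) := by
    intro j _
    have h2 := Mm_add_le (m := m) (by omega) j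
    calc (0.31 : ℝ) ^ Mm m j ≤ 0.31 ^ (m + j) := pow_le_pow_of_le_one (by norm_num) (by norm_num) h2
      _ = (0.62 * (1 / 2)) ^ (m + j) := by norm_num
      _ = 0.62 ^ (m + j) * (1 / 2) ^ (m + j) := by rw [mul_pow]
      _ ≤ 0.62 ^ 2 * (1 / 2) ^ (m + j) := by
          have : (0.62 : ℝ) ^ (m + j) ≤ 0.62 ^ 2 :=
            pow_le_pow_of_le_one (by norm_num) (by norm_num) (by omega)
          gcongr
      _ ≤ (1 / 2) * (1 / 2) ^ (m + j) := by
          gcongr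
          norm_num
      _ = (1 / 2) ^ m * (1 / 2) ^ (j + 1) := by rw [pow_add, pow_succ]; ring
  refine (Finset.sum_le_sum h1).trans ?_
  rw [← Finset.mul_sum]
  have h3 : ∑ j ∈ Finset.range J, (1 / 2 : ℝ) ^ (j + 1) ≤ 1 := by
    have h : ∑ j ∈ Finset.range J, (1 / 2 : ℝ) ^ (j + 1) = 1 - (1 / 2) ^ J := by
      induction J with
      | zero => simp
      | succ J ih =>
        rw [Finset.sum_range_succ, ih (fun j hj => h1 j (Finset.mem_range.mpr
          ((Finset.mem_range.mp hj).trans (Nat.lt_succ_self J))))]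
        rw [pow_succ]
        ring
    rw [h]
    have : (0 : ℝ) < (1 / 2) ^ J := by positivity
    linarith
  calc (1 / 2 : ℝ) ^ m * ∑ j ∈ Finset.range J, (1 / 2 : ℝ) ^ (j + 1) ≤ (1 / 2) ^ m * 1 := by gcongr
    _ = _ := mul_one _

end Pool.Agent.Lib.MP_f9aece_nt_h5
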