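import Mathlib
import Pool.Agent.Lib.MP_f9aece_nt_h5.MeanB

/-!
Mean values of the tilting polynomial to the right of the critical line: assembly.
-/

set_option autoImplicit false

namespace Pool.Agent.Lib.MP_f9aece_nt_h5

open MeasureTheory Set Filter Topology Complex
open Pool.Agent.Lib.MP_f9aece_nt Pool.Agent.Lib.MP_f9aece_nt_h97
open scoped ArithmeticFunction.Omega

/-- **Mean values of the tilting polynomial**, alone and with a large value indicator. -/
theorem mean_B (m p0 : ℕ) (hm : 4000 ≤ m) (_hp0 : 1 ≤ p0) : ∃ Y0 : ℝ, 1 ≤ Y0 ∧ ∀ Y : ℝ, Y0 ≤ Y →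
    ∀ J : ℕ, (J : ℝ) ≤ Y + 3 → ∀ k : ℝ, 0 < k → k ≤ 1 / 100 → ∀ σ : ℝ, 1 / 2 ≤ σ → σ ≤ 3 / 4 →
    let T := Real.exp (160 * m * Y)
    let E := BK (K1s (2 * σ)) (Bm m p0 k Y J) (Bm m p0 k Y J)
    1 ≤ E ∧ T * (E * (1 - Real.exp (-Y))) ≤ ∫ t in (0 : ℝ)..T, ‖evs (σ + I * t) (Bm m p0 k Y J)‖ ^ 2 ∧
    ∑ j ∈ Finset.range J, ∫ t in (0 : ℝ)..T, ‖evs (σ + I * t) (Bm m p0 k Y J)‖ ^ 2
        * (‖Pj p0 Y σ j t‖ / ((Mm m j : ℝ) / 10)) ^ (2 * Mm m j)
      ≤ T * (E * ((1 / 2) ^ m + Real.exp (-Y))) := by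
  refine ⟨1, le_rfl, ?_⟩
  intro Y hY J hJ k hk0 hk σ hσ1 hσ2 T E
  have hY0 : 0 < Y := by linarith
  have hm0 : (4000 : ℝ) ≤ m := by exact_mod_cast hm
  have hTpos : 0 < T := Real.exp_pos _
  set δ := σ - 1 / 2 with hδdef
  have hδ : 0 ≤ δ := by rw [hδdef]; linarith
  have hσδ : 2 * σ = 1 + 2 * δ := by rw [hδdef]; ring
  have hEE : E = ∏ j ∈ Finset.range J, eb δ m p0 k Y j := by
    change BK (K1s (2 * σ)) (Bm m p0 k Y J) (Bm m p0 k Y J) = _
    rw [hσδ, form_B hY0 hk0.le hδ]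
  have hE1 : 1 ≤ E := by
    rw [hEE]
    calc (1 : ℝ) = ∏ _j ∈ Finset.range J, (1 : ℝ) := by simp
      _ ≤ ∏ j ∈ Finset.range J, eb δ m p0 k Y j :=
        Finset.prod_le_prod (fun _ _ => zero_le_one) fun j _ => one_le_eb hk0.le δ j
  have hevs : ∀ (t : ℝ) (f : DP), evs (σ + I * t) f = ev t (tw δ f) := by
    intro t f
    rw [ev_tw hδ]
    congr 2
    rw [hδdef]
    push_cast
    ring
  have hmY : (4000 : ℝ) * 1 ≤ m * Y := by gcongr
  have hYm : Y ≤ m * Y := le_mul_of_one_le_left hY0.le (by linarith)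
  have h4 : (4 : ℝ) ≤ Real.exp 2 := by
    have := Real.quadratic_le_exp_of_nonneg (zero_le_two (α := ℝ))
    linarith
  -- the plain mean value
  have hB1 := mean_ev_abs hTpos (cone_tw δ (cone_B (m := m) (p0 := p0) hY0 hk0.le J))
    ((aug_tw_le hδ (cone_B (m := m) (p0 := p0) hY0 hk0.le J) fun n hn => hn.1).trans
      (aug_B hY0 hk0.le (by linarith) J))
  rw [BK_tw hδ, ← hσδ] at hB1
  have herr1 : 4 * Real.exp (2 * m * Y) * Real.exp (J + 2 * m * Y) ^ 2 ≤ T * Real.exp (-Y) := by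
    calc 4 * Real.exp (2 * m * Y) * Real.exp (J + 2 * m * Y) ^ 2
        ≤ Real.exp 2 * Real.exp (2 * m * Y) * Real.exp (J + 2 * m * Y) ^ 2 := by gcongr
      _ = Real.exp (2 + 2 * m * Y + 2 * (J + 2 * m * Y)) := by
          rw [← Real.exp_nat_mul, ← Real.exp_add, ← Real.exp_add]
          congr 1
      _ ≤ Real.exp (160 * m * Y + -Y) := by
          apply Real.exp_le_exp.mpr
          linarith
      _ = T * Real.exp (-Y) := by rw [← Real.exp_add]
  refine ⟨hE1, ?_, ?_⟩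
  · have h1 := (abs_le.mp hB1).1
    simp_rw [hevs]
    have h2 : T * Real.exp (-Y) ≤ T * (E * Real.exp (-Y)) := by
      have : Real.exp (-Y) ≤ E * Real.exp (-Y) := le_mul_of_one_le_left (Real.exp_pos _).le hE1
      gcongr
    have h3 : T * (E * (1 - Real.exp (-Y))) = T * E - T * (E * Real.exp (-Y)) := by ring
    rw [h3]
    change -(4 * Real.exp (2 * m * Y) * Real.exp (J + 2 * m * Y) ^ 2)
      ≤ (∫ t in (0 : ℝ)..T, ‖ev t (tw δ (Bm m p0 k Y J))‖ ^ 2) - T * E at h1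
    linarith
  · -- one block
    have hblock : ∀ j ∈ Finset.range J, ∫ t in (0 : ℝ)..T, ‖evs (σ + I * t) (Bm m p0 k Y J)‖ ^ 2
        * (‖Pj p0 Y σ j t‖ / ((Mm m j : ℝ) / 10)) ^ (2 * Mm m j)
        ≤ T * (0.31 ^ Mm m j * E) + 4 * Real.exp (3 * m * Y) * Real.exp (J + 3 * m * Y) ^ 2 := by
      intro j hj
      have hM4 : 4000 ≤ Mm m j := by
        have := Mm_add_le (m := m) (by omega) j
        omega
      have hM0 : (4000 : ℝ) ≤ Mm m j := by exact_mod_cast hM4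
      have hMpos : (0 : ℝ) < Mm m j := by linarith
      have hpt : ∀ t : ℝ, ‖evs (σ + I * t) (Bm m p0 k Y J)‖ ^ 2
          * (‖Pj p0 Y σ j t‖ / ((Mm m j : ℝ) / 10)) ^ (2 * Mm m j)
          = (10 / (Mm m j : ℝ)) ^ (2 * Mm m j)
            * ‖ev t (tw δ (Bm m p0 k Y J * PP (sc Y p0 j) ^ Mm m j))‖ ^ 2 := by
        intro t
        rw [← hevs, evs_mul, evs_pow, evs_PP, norm_mul, norm_pow, mul_pow, ← pow_mul, mul_comm (Mm m j) 2]
        have e1 : ‖Pj p0 Y σ j t‖ / ((Mm m j : ℝ) / 10)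
            = 10 / (Mm m j : ℝ) * ‖∑ p ∈ sc Y p0 j, (p : ℂ) ^ (-(σ + I * t : ℂ))‖ := by
          unfold Pj
          field_simp
        rw [e1, mul_pow (10 / (Mm m j : ℝ))]
        ring
      simp_rw [hpt]
      rw [intervalIntegral.integral_const_mul]
      have hB2 := mean_ev_abs hTpos (cone_tw δ (cone_BP (m := m) (p0 := p0) hY0 hk0.le J j))
        ((aug_tw_le hδ (cone_BP (m := m) (p0 := p0) hY0 hk0.le J j) fun n hn => hn.1).trans
          (aug_BP hY0 hk0.le (by linarith) J j))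
      have h1 := (abs_le.mp hB2).2
      have h2 := form_BP (p0 := p0) hm hY0 hk0 hk hδ hj
      rw [← hEE] at h2
      set c := (10 / (Mm m j : ℝ)) ^ (2 * Mm m j) with hc
      have hc0 : 0 ≤ c := by positivity
      have hc1 : c ≤ 1 := by
        rw [hc]
        apply pow_le_one₀ (by positivity)
        rw [div_le_one hMpos]
        linarith
      set K := BK K1 (tw δ (Bm m p0 k Y J * PP (sc Y p0 j) ^ Mm m j))
        (tw δ (Bm m p0 k Y J * PP (sc Y p0 j) ^ Mm m j)) with hK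
      set Z := 4 * Real.exp (3 * m * Y) * Real.exp (J + 3 * m * Y) ^ 2 with hZ
      have hZ0 : 0 ≤ Z := by positivity
      calc c * ∫ t in (0 : ℝ)..T, ‖ev t (tw δ (Bm m p0 k Y J * PP (sc Y p0 j) ^ Mm m j))‖ ^ 2
          ≤ c * (T * K + Z) := by
            refine mul_le_mul_of_nonneg_left ?_ hc0
            linarith
        _ = T * (c * K) + c * Z := by ring
        _ ≤ T * (0.31 ^ Mm m j * E) + 1 * Z := by
            have a1 : T * (c * K) ≤ T * (0.31 ^ Mm m j * E) := mul_le_mul_of_nonneg_left h2 hTpos.le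
            have a2 : c * Z ≤ 1 * Z := mul_le_mul_of_nonneg_right hc1 hZ0
            linarith
        _ = _ := by rw [one_mul]
    refine (Finset.sum_le_sum hblock).trans ?_
    rw [Finset.sum_add_distrib, ← Finset.mul_sum, ← Finset.sum_mul, Finset.sum_const, Finset.card_range,
      nsmul_eq_mul]
    have h31 := sum_031 hm J
    have hJe : (J : ℝ) ≤ Real.exp J := by
      have := Real.add_one_le_exp (J : ℝ)
      linarith
    have herr2 : (J : ℝ) * (4 * Real.exp (3 * m * Y) * Real.exp (J + 3 * m * Y) ^ 2)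
        ≤ T * Real.exp (-Y) := by
      calc (J : ℝ) * (4 * Real.exp (3 * m * Y) * Real.exp (J + 3 * m * Y) ^ 2)
          ≤ Real.exp J * (Real.exp 2 * Real.exp (3 * m * Y) * Real.exp (J + 3 * m * Y) ^ 2) := by gcongr
        _ = Real.exp (J + (2 + 3 * m * Y + 2 * (J + 3 * m * Y))) := by
            rw [← Real.exp_nat_mul, ← Real.exp_add, ← Real.exp_add, ← Real.exp_add]
            congr 1
        _ ≤ Real.exp (160 * m * Y + -Y) := by
            apply Real.exp_le_exp.mpr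
            linarith
        _ = T * Real.exp (-Y) := by rw [← Real.exp_add]
    have hE0 : 0 ≤ E := by linarith
    have a1 : T * ((∑ i ∈ Finset.range J, (0.31 : ℝ) ^ Mm m i) * E) ≤ T * ((1 / 2) ^ m * E) := by
      gcongr
    have a2 : T * Real.exp (-Y) ≤ T * (E * Real.exp (-Y)) := by
      have : Real.exp (-Y) ≤ E * Real.exp (-Y) := le_mul_of_one_le_left (Real.exp_pos _).le hE1
      gcongr
    calc T * ((∑ i ∈ Finset.range J, (0.31 : ℝ) ^ Mm m i) * E)
          + (J : ℝ) * (4 * Real.exp (3 * m * Y) * Real.exp (J + 3 * m * Y) ^ 2)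
        ≤ T * ((1 / 2) ^ m * E) + T * (E * Real.exp (-Y)) := by linarith
      _ = _ := by ring

end Pool.Agent.Lib.MP_f9aece_nt_h5
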