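import Mathlib
import Pool.Agent.Lib.MP_f9aece_nt_h5.MeanB2
import Pool.Agent.Lib.MP_f9aece_nt_h97.Point

/-!
The pointwise inequality behind the lower bound by tilting.
-/

set_option autoImplicit false

namespace Pool.Agent.Lib.MP_f9aece_nt_h5

open MeasureTheory Set Filter Topology Complex
open Pool.Agent.Lib.MP_f9aece_nt Pool.Agent.Lib.MP_f9aece_nt_h97
open scoped ArithmeticFunction.Omega

/-- truncated exponentials are not much larger than exponentials -/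
lemma norm_EE_le_exp {M : ℕ} {z : ℂ} {c : ℝ} (hc : |c| ≤ 1) (hz : ‖z‖ ≤ ((M + 1 : ℕ) : ℝ) / 10) :
    ‖EE M (c * z)‖ ≤ (1 + MP_f9aece_nt_h97.dl M) * Real.exp (c * z.re) := by
  have h1 := EE_sub_exp_c hc hz
  have hd := dl_pos M
  have h2 : ‖EE M (c * z)‖ ≤ ‖cexp (c * z)‖ + ‖cexp (c * z) - EE M (c * z)‖ := by
    have : EE M (c * z) = cexp (c * z) - (cexp (c * z) - EE M (c * z)) := by ring
    calc ‖EE M (c * z)‖ = ‖cexp (c * z) - (cexp (c * z) - EE M (c * z))‖ := by rw [← this]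
      _ ≤ _ := norm_sub_le _ _
  have h3 : ‖cexp (c * z)‖ = Real.exp (c * z.re) := by
    rw [Complex.norm_exp]; congr 1; simp
  rw [h3] at h1 h2
  have h4 : |c| * MP_f9aece_nt_h97.dl M * Real.exp (c * z.re)
      ≤ 1 * MP_f9aece_nt_h97.dl M * Real.exp (c * z.re) := by
    gcongr
  linarith

lemma sum_dl_le {m : ℕ} (hm : 1 ≤ m) (J : ℕ) :
    ∑ j ∈ Finset.range J, MP_f9aece_nt_h97.dl (Mm m j) ≤ 2 * (1 / 2) ^ m := by
  have h1 : ∀ j ∈ Finset.range J, MP_f9aece_nt_h97.dl (Mm m j) ≤ (1 / 2) ^ m * (1 / 2) ^ j := by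
    intro j _
    unfold MP_f9aece_nt_h97.dl
    have h2 := Mm_add_le hm j
    calc 2 * (1 / 3 : ℝ) ^ (Mm m j + 1) ≤ 2 * (1 / 2) ^ (Mm m j + 1) := by gcongr; norm_num
      _ = (1 / 2) ^ (Mm m j) := by rw [pow_succ]; ring
      _ ≤ (1 / 2) ^ (m + j) := pow_le_pow_of_le_one (by norm_num) (by norm_num) h2
      _ = _ := pow_add _ _ _
  refine (Finset.sum_le_sum h1).trans ?_
  rw [← Finset.mul_sum, mul_comm]
  have h3 : ∑ j ∈ Finset.range J, (1 / 2 : ℝ) ^ j ≤ 2 := by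
    have := (summable_geometric_of_lt_one (by norm_num : (0 : ℝ) ≤ 1 / 2) (by norm_num)).sum_le_tsum
      (Finset.range J) (fun j _ => by positivity)
    rw [tsum_geometric_of_lt_one (by norm_num) (by norm_num)] at this
    norm_num at this ⊢
    exact this
  gcongr

/-- the scalar inequality -/
lemma scalar_tilt {k x y : ℝ} (hk0 : 0 < k) (hk : k ≤ 1 / 4) (hx : 0 ≤ x) (hxy : |x - 1| ≤ y) :
    1 - 2 * k - 4 * y ^ 2 ≤ x ^ (2 * k) := by
  have hy : 0 ≤ y := (abs_nonneg _).trans hxy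
  rcases le_or_gt (Real.exp (-1)) x with h | h
  · have h1 : Real.exp (-1) ^ (2 * k) ≤ x ^ (2 * k) :=
      Real.rpow_le_rpow (Real.exp_pos _).le h (by linarith)
    rw [← Real.exp_mul] at h1
    have h2 := Real.add_one_le_exp (-1 * (2 * k))
    nlinarith [sq_nonneg y]
  · have h1 : Real.exp (-1) < 0.5 := by
      have h3 : Real.exp (-1) = (Real.exp 1)⁻¹ := Real.exp_neg 1
      have h4 : (2 : ℝ) < Real.exp 1 := by
        have := Real.exp_one_gt_d9
        linarith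
      rw [h3, inv_lt_comm₀ (Real.exp_pos _) (by norm_num)]
      norm_num
      exact h4
    have h2 : 0 ≤ x ^ (2 * k) := Real.rpow_nonneg hx _
    have h3 : 1 - x ≤ y := by
      have := neg_abs_le (x - 1)
      linarith
    nlinarith

lemma norm_Dsm_le {p0 : ℕ} {σ : ℝ} (hσ : 1 / 2 ≤ σ) (t : ℝ) :
    ‖evs (σ + I * t) (Dsm p0)‖ ≤ ∏ p ∈ Psm p0, (1 + (p : ℝ) ^ (-(1 / 2) : ℝ)) := by
  rw [Dsm, evs_prod, norm_prod]
  refine Finset.prod_le_prod (fun _ _ => norm_nonneg _) fun p hp => ?_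
  have hpp : p.Prime := (Finset.mem_filter.mp hp).2
  have hp1 : (1 : ℝ) ≤ p := by exact_mod_cast hpp.one_lt.le
  have e1 : evs (σ + I * t) (1 - MonoidAlgebra.single p 1) = 1 - (p : ℂ) ^ (-(σ + I * t : ℂ)) := by
    rw [← evS_apply, map_sub, map_one, evS_single]
    simp
  rw [e1]
  refine (norm_sub_le _ _).trans ?_
  rw [norm_one, Complex.norm_natCast_cpow_of_pos hpp.pos]
  have e2 : (-(σ + I * t : ℂ)).re = -σ := by simp
  rw [e2]
  have : (p : ℝ) ^ (-σ) ≤ (p : ℝ) ^ (-(1 / 2) : ℝ) :=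
    Real.rpow_le_rpow_of_exponent_le hp1 (by linarith)
  linarith

lemma evs_DD (s : ℂ) (m p0 : ℕ) (c Y : ℝ) (J : ℕ) :
    evs s (DD m p0 c Y J) = ∏ j ∈ Finset.range J, EE (Mm m j) (c * ∑ p ∈ sc Y p0 j, (p : ℂ) ^ (-s)) := by
  rw [DD, evs_prod]
  exact Finset.prod_congr rfl fun j _ => evs_expo s c _ _

/-- **The pointwise tilting inequality.** -/
theorem pointwise_tilt (m p0 : ℕ) (hm : 4000 ≤ m) {k : ℝ} (hk0 : 0 < k) (hk : k ≤ 1 / 4) (Y : ℝ)
    (J : ℕ) {σ : ℝ} (hσ : 1 / 2 ≤ σ) (t : ℝ) (z : ℂ) :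
    let B := evs (σ + I * t) (Bm m p0 k Y J)
    let D := evs (σ + I * t) (Dm m p0 (1 - k) Y J)
    (∏ p ∈ Psm p0, (1 + (p : ℝ) ^ (-(1 / 2) : ℝ))) ^ (-(2 * k)) * Real.exp (-(4 * (1 / 2) ^ m)) *
      ((1 - 2 * k) * ‖B‖ ^ 2 *
        (1 - ∑ j ∈ Finset.range J, (‖Pj p0 Y σ j t‖ / ((Mm m j : ℝ) / 10)) ^ (2 * Mm m j))
        - 4 * ‖z * D - B‖ ^ 2) ≤ ‖z‖ ^ (2 * k) := by
  intro B D
  set S := ∏ p ∈ Psm p0, (1 + (p : ℝ) ^ (-(1 / 2) : ℝ)) with hS
  set Q := ∑ j ∈ Finset.range J, (‖Pj p0 Y σ j t‖ / ((Mm m j : ℝ) / 10)) ^ (2 * Mm m j) with hQ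
  have hSpos : 0 < S := Finset.prod_pos fun p _ => by positivity
  have hMpos : ∀ j, (0 : ℝ) < Mm m j := fun j => by
    have := Mm_add_le (m := m) (by omega) j
    exact_mod_cast (by omega : 0 < Mm m j)
  have hterm : ∀ j, 0 ≤ (‖Pj p0 Y σ j t‖ / ((Mm m j : ℝ) / 10)) ^ (2 * Mm m j) := fun j => by
    have := hMpos j
    positivity
  have hQ0 : 0 ≤ Q := Finset.sum_nonneg fun j _ => hterm j
  have hrhs : 0 ≤ ‖z‖ ^ (2 * k) := by positivity
  have hpre : 0 ≤ S ^ (-(2 * k)) * Real.exp (-(4 * (1 / 2) ^ m)) := by positivity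
  have hB2 : 0 ≤ ‖B‖ ^ 2 := by positivity
  have hE2 : 0 ≤ ‖z * D - B‖ ^ 2 := by positivity
  by_cases hbig : ∃ j ∈ Finset.range J, (Mm m j : ℝ) / 10 < ‖Pj p0 Y σ j t‖
  · obtain ⟨j, hj, hj1⟩ := hbig
    have h1 : 1 ≤ Q := by
      have h2 : 1 ≤ (‖Pj p0 Y σ j t‖ / ((Mm m j : ℝ) / 10)) ^ (2 * Mm m j) := by
        apply one_le_pow₀
        rw [le_div_iff₀ (by have := hMpos j; positivity)]
        linarith
      exact h2.trans (Finset.single_le_sum (fun i _ => hterm i) hj)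
    refine le_trans ?_ hrhs
    apply mul_nonpos_of_nonneg_of_nonpos hpre
    have h3 : (1 - 2 * k) * ‖B‖ ^ 2 * (1 - Q) ≤ 0 :=
      mul_nonpos_of_nonneg_of_nonpos (mul_nonneg (by linarith) hB2) (by linarith)
    linarith
  · push Not at hbig
    have hsmall : ∀ j ∈ Finset.range J, ‖Pj p0 Y σ j t‖ ≤ ((Mm m j + 1 : ℕ) : ℝ) / 10 := by
      intro j hj
      refine (hbig j hj).trans ?_
      push_cast
      linarith
    have hBeq : ‖B‖ = ∏ j ∈ Finset.range J, ‖EE (Mm m j) (k * Pj p0 Y σ j t)‖ := by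
      change ‖evs (σ + I * t) (DD m p0 k Y J)‖ = _
      rw [evs_DD, norm_prod]
      rfl
    have hDeq : ‖D‖ = ‖evs (σ + I * t) (Dsm p0)‖
        * ∏ j ∈ Finset.range J, ‖EE (Mm m j) ((-(1 - k) : ℝ) * Pj p0 Y σ j t)‖ := by
      change ‖evs (σ + I * t) (Dsm p0 * DD m p0 (-(1 - k)) Y J)‖ = _
      rw [evs_mul, norm_mul, evs_DD, norm_prod]
      rfl
    have hk1 : |k| ≤ 1 := by rw [abs_of_pos hk0]; linarith
    have ha1 : |-(1 - k)| ≤ 1 := by rw [abs_neg, abs_of_nonneg (by linarith)]; linarith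
    have hM1 : ∀ j, 1 ≤ Mm m j := fun j => by exact_mod_cast hMpos j
    have hBpos : 0 < ‖B‖ := by
      rw [hBeq]
      refine Finset.prod_pos fun j hj => ?_
      have h1 := norm_EE_ge hk1 (hsmall j hj)
      have h2 := dl_le (hM1 j)
      have h3 := dl_pos (Mm m j)
      refine lt_of_lt_of_le ?_ h1
      rw [abs_of_pos hk0]
      have : k * MP_f9aece_nt_h97.dl (Mm m j) ≤ 1 / 4 * (1 / 4) := by gcongr
      have : 0 < 1 - k * MP_f9aece_nt_h97.dl (Mm m j) := by linarith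
      positivity
    -- the product bound
    have hprod : ‖D‖ ^ (2 * k) * ‖B‖ ^ (2 * (1 - k)) ≤ S ^ (2 * k) * Real.exp (4 * (1 / 2) ^ m) := by
      rw [hBeq, hDeq, Real.mul_rpow (norm_nonneg _) (Finset.prod_nonneg fun _ _ => norm_nonneg _),
        ← Real.finsetProd_rpow _ _ (fun _ _ => norm_nonneg _),
        ← Real.finsetProd_rpow _ _ (fun _ _ => norm_nonneg _), mul_assoc, ← Finset.prod_mul_distrib]
      have h1 : ∏ j ∈ Finset.range J, (‖EE (Mm m j) ((-(1 - k) : ℝ) * Pj p0 Y σ j t)‖ ^ (2 * k)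
          * ‖EE (Mm m j) (k * Pj p0 Y σ j t)‖ ^ (2 * (1 - k)))
          ≤ ∏ j ∈ Finset.range J, Real.exp (2 * MP_f9aece_nt_h97.dl (Mm m j)) := by
        refine Finset.prod_le_prod (fun _ _ => by positivity) fun j hj => ?_
        have u1 := norm_EE_le_exp ha1 (hsmall j hj)
        have u2 := norm_EE_le_exp hk1 (hsmall j hj)
        set x := (Pj p0 Y σ j t).re
        set d := MP_f9aece_nt_h97.dl (Mm m j) with hd
        have hd0 : 0 < d := dl_pos _
        have v1 : ‖EE (Mm m j) ((-(1 - k) : ℝ) * Pj p0 Y σ j t)‖ ≤ Real.exp (d + -(1 - k) * x) := by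
          rw [Real.exp_add]
          refine u1.trans ?_
          gcongr
          linarith [Real.add_one_le_exp d]
        have v2 : ‖EE (Mm m j) (k * Pj p0 Y σ j t)‖ ≤ Real.exp (d + k * x) := by
          rw [Real.exp_add]
          refine u2.trans ?_
          gcongr
          linarith [Real.add_one_le_exp d]
        calc ‖EE (Mm m j) ((-(1 - k) : ℝ) * Pj p0 Y σ j t)‖ ^ (2 * k)
              * ‖EE (Mm m j) (k * Pj p0 Y σ j t)‖ ^ (2 * (1 - k))
            ≤ Real.exp (d + -(1 - k) * x) ^ (2 * k) * Real.exp (d + k * x) ^ (2 * (1 - k)) := by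
              apply mul_le_mul (Real.rpow_le_rpow (norm_nonneg _) v1 (by linarith))
                (Real.rpow_le_rpow (norm_nonneg _) v2 (by linarith)) (by positivity) (by positivity)
          _ = Real.exp (2 * d) := by
              rw [← Real.exp_mul, ← Real.exp_mul, ← Real.exp_add]
              congr 1
              ring
      have h2 : ∏ j ∈ Finset.range J, Real.exp (2 * MP_f9aece_nt_h97.dl (Mm m j))
          ≤ Real.exp (4 * (1 / 2) ^ m) := by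
        rw [← Real.exp_sum, ← Finset.mul_sum]
        apply Real.exp_le_exp.mpr
        have := sum_dl_le (m := m) (by omega) J
        linarith
      have h3 : ‖evs (σ + I * t) (Dsm p0)‖ ^ (2 * k) ≤ S ^ (2 * k) :=
        Real.rpow_le_rpow (norm_nonneg _) (norm_Dsm_le hσ t) (by linarith)
      exact mul_le_mul h3 (h1.trans h2) (Finset.prod_nonneg fun _ _ => by positivity) (by positivity)
    -- the scalar inequality
    have hu := scalar_tilt (x := ‖z * D / B‖) (y := ‖z * D / B - 1‖) hk0 hk (norm_nonneg _) (by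
      have := abs_norm_sub_norm_le (z * D / B) 1
      rwa [norm_one] at this)
    have hB0 : B ≠ 0 := norm_pos_iff.mp hBpos
    have e1 : ‖z * D / B - 1‖ = ‖z * D - B‖ / ‖B‖ := by
      rw [← norm_div]
      congr 1
      field_simp
    have e2 : ‖z * D / B‖ = ‖z‖ * ‖D‖ / ‖B‖ := by rw [norm_div, norm_mul]
    rw [e1, e2] at hu
    have h5 : (1 - 2 * k) * ‖B‖ ^ 2 - 4 * ‖z * D - B‖ ^ 2
        ≤ ‖z‖ ^ (2 * k) * (‖D‖ ^ (2 * k) * ‖B‖ ^ (2 * (1 - k))) := by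
      calc (1 - 2 * k) * ‖B‖ ^ 2 - 4 * ‖z * D - B‖ ^ 2
          = (1 - 2 * k - 4 * (‖z * D - B‖ / ‖B‖) ^ 2) * ‖B‖ ^ 2 := by
            field_simp
        _ ≤ (‖z‖ * ‖D‖ / ‖B‖) ^ (2 * k) * ‖B‖ ^ 2 := by gcongr
        _ = _ := by
            rw [Real.div_rpow (by positivity) (by positivity), Real.mul_rpow (by positivity) (by positivity)]
            have e3 : ‖B‖ ^ (2 * (1 - k)) = ‖B‖ ^ 2 / ‖B‖ ^ (2 * k) := by
              rw [← Real.rpow_natCast ‖B‖ 2, ← Real.rpow_sub hBpos]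
              congr 1
              push_cast
              ring
            rw [e3]
            ring
    have h6 : (1 - 2 * k) * ‖B‖ ^ 2 * (1 - Q) - 4 * ‖z * D - B‖ ^ 2
        ≤ (1 - 2 * k) * ‖B‖ ^ 2 - 4 * ‖z * D - B‖ ^ 2 := by
      have : 0 ≤ (1 - 2 * k) * ‖B‖ ^ 2 := mul_nonneg (by linarith) hB2
      nlinarith
    calc S ^ (-(2 * k)) * Real.exp (-(4 * (1 / 2) ^ m)) *
          ((1 - 2 * k) * ‖B‖ ^ 2 * (1 - Q) - 4 * ‖z * D - B‖ ^ 2)
        ≤ S ^ (-(2 * k)) * Real.exp (-(4 * (1 / 2) ^ m)) *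
          (‖z‖ ^ (2 * k) * (‖D‖ ^ (2 * k) * ‖B‖ ^ (2 * (1 - k)))) := by
          apply mul_le_mul_of_nonneg_left (h6.trans h5) hpre
      _ ≤ S ^ (-(2 * k)) * Real.exp (-(4 * (1 / 2) ^ m)) *
          (‖z‖ ^ (2 * k) * (S ^ (2 * k) * Real.exp (4 * (1 / 2) ^ m))) := by gcongr
      _ = (S ^ (-(2 * k)) * S ^ (2 * k)) * (Real.exp (-(4 * (1 / 2) ^ m)) * Real.exp (4 * (1 / 2) ^ m))
          * ‖z‖ ^ (2 * k) := by ring
      _ = ‖z‖ ^ (2 * k) := by
          rw [← Real.rpow_add hSpos, ← Real.exp_add]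
          simp

end Pool.Agent.Lib.MP_f9aece_nt_h5
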