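import Mathlib
import Pool.Agent.Lib.MP_f9aece_nt.SharpLowerLib

/-!
Uniform lower bound for exponents in `[2, 2 + η0]`.
-/

set_option autoImplicit false

namespace Pool.Agent.Lib.MP_f9aece_nt_h5

open Filter Topology Set Complex MeasureTheory
open Pool.Agent.Lib.MP_f9aece_nt

/-! ### The second moment -/

lemma BK_K2_one : BK K2 (1 : DP) 1 = 1 := by
  have h : (1 : DP) = MonoidAlgebra.single 1 1 := MonoidAlgebra.one_def
  rw [h, BK, pair_single, pair_single]
  simp [K2]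

/-- The lower bound for the second moment. -/
theorem mom_two_lower (x ε : ℝ) (hε : 0 < ε) :
    ∀ᶠ T : ℝ in atTop, (1 - ε) * Real.log T ≤ mom 2 x T := by
  -- reduce to small ε
  wlog hε1 : ε ≤ 1 / 2 generalizing ε
  · filter_upwards [this (1 / 2) (by norm_num) le_rfl, eventually_ge_atTop 1] with T hT hT1
    refine le_trans ?_ hT
    have := Real.log_nonneg hT1
    gcongr
    linarith
  obtain ⟨d, hd⟩ : ∃ d : ℝ, d = ε / 32 := ⟨_, rfl⟩
  have hd0 : 0 < d := by rw [hd]; positivity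
  have hd1 : d ≤ 1 / 64 := by rw [hd]; linarith
  obtain ⟨η, hη⟩ : ∃ η : ℝ, η = ε / 32 := ⟨_, rfl⟩
  have hη0 : 0 < η := by rw [hη]; positivity
  have hη1 : η ≤ 1 / 10 := by rw [hη]; linarith
  set r : ℕ := ⌈40 / d⌉₊ with hr
  have hrd : 40 ≤ r * d := by
    have := Nat.le_ceil (40 / d)
    rwa [div_le_iff₀ hd0] at this
  have lim : ∀ c y : ℝ, 0 < y → Tendsto (fun T : ℝ => c * T ^ (-y)) atTop (𝓝 0) := by
    intro c y hy
    have := (tendsto_rpow_neg_atTop hy).const_mul c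
    simpa using this
  have E0 : ∀ᶠ T : ℝ in atTop, 1 ≤ T := eventually_ge_atTop 1
  have E2 : ∀ᶠ T : ℝ in atTop, 2 ≤ T ^ d := (tendsto_rpow_atTop hd0).eventually_ge_atTop 2
  have E4 : ∀ᶠ T : ℝ in atTop, (4 : ℝ) ^ r ≤ T ^ (20 : ℝ) :=
    (tendsto_rpow_atTop (by norm_num)).eventually_ge_atTop _
  have E5 : ∀ᶠ T : ℝ in atTop, 1 * T ^ (-(15 : ℝ)) ≤ η :=
    ((lim _ 15 (by norm_num)).eventually_lt_const hη0).mono fun _ h => h.le
  have E6 : ∀ᶠ T : ℝ in atTop, 30 * T ^ (-(1 / 8) : ℝ) ≤ η :=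
    ((lim _ (1 / 8) (by norm_num)).eventually_lt_const hη0).mono fun _ h => h.le
  have E3 : ∀ᶠ T : ℝ in atTop, T * (1 - η)
      ≤ T - 2 * |x| - r * T ^ (1 - d) - T ^ (7 / 8 : ℝ) := by
    have t1 := lim (2 * |x|) 1 one_pos
    have t2 := lim (r : ℝ) d hd0
    have t3 := lim 1 (1 / 8) (by norm_num)
    have t4 : Tendsto (fun T : ℝ => 1 - 2 * |x| * T ^ (-(1 : ℝ)) - r * T ^ (-d)
        - 1 * T ^ (-(1 / 8) : ℝ)) atTop (𝓝 (1 - 0 - 0 - 0)) :=
      (((tendsto_const_nhds).sub t1).sub t2).sub t3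
    have t5 := t4.eventually_const_lt (by linarith : 1 - η < 1 - 0 - 0 - 0)
    filter_upwards [t5, eventually_gt_atTop 0] with T hT hT0
    have e1 : T * T ^ (-(1 : ℝ)) = 1 := by
      rw [Real.rpow_neg_one]; field_simp
    have e2 : T * T ^ (-d) = T ^ (1 - d) := by
      nth_rw 1 [← Real.rpow_one T]
      rw [← Real.rpow_add hT0]; congr 1
    have e3 : T * T ^ (-(1 / 8) : ℝ) = T ^ (7 / 8 : ℝ) := by
      nth_rw 1 [← Real.rpow_one T]
      rw [← Real.rpow_add hT0]; norm_num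
    calc T * (1 - η)
        ≤ T * (1 - 2 * |x| * T ^ (-(1 : ℝ)) - r * T ^ (-d) - 1 * T ^ (-(1 / 8) : ℝ)) := by
          gcongr
      _ = T - 2 * |x| * (T * T ^ (-(1 : ℝ))) - r * (T * T ^ (-d)) - T * T ^ (-(1 / 8) : ℝ) := by
          ring
      _ = _ := by rw [e1, e2, e3]; ring
  filter_upwards [E0, E2, E3, E4, E5, E6] with T e0 e2 e3 e4 e5 e6
  have hT0 : 0 < T := by linarith
  have hLt : 0 ≤ Real.log T := Real.log_nonneg e0
  set h := T ^ (1 - d) with hh
  have hh0 : 0 < h := by positivity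
  set a' := |x| + T ^ (7 / 8 : ℝ) with ha'
  set b' := T - |x| - r * h with hb'
  have hW : b' - a' = T - 2 * |x| - r * T ^ (1 - d) - T ^ (7 / 8 : ℝ) := by
    rw [hb', ha', hh]; ring
  have hWT : T * (1 - η) ≤ b' - a' := by rw [hW]; exact e3
  have hW0 : 0 < b' - a' := lt_of_lt_of_le (mul_pos hT0 (by linarith)) hWT
  set ν := nu a' b' h r with hν
  have hνfin : IsFiniteMeasure ν := nu_finite a' b' hh0 r
  have hνW : ν.real univ = b' - a' := nu_real_univ hh0 (by linarith) r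
  set X := ⌊T ^ (1 - 2 * d)⌋₊ with hX
  set N := ⌊T ^ (3 / 2 : ℝ)⌋₊ with hN
  have hXone : 1 ≤ T ^ (1 - 2 * d) := Real.one_le_rpow e0 (by linarith)
  have hX1 : 1 ≤ X := Nat.one_le_iff_ne_zero.mpr (Nat.floor_pos.mpr hXone).ne'
  have hXhi : (X : ℝ) ≤ T ^ (1 - 2 * d) := Nat.floor_le (by positivity)
  have hXN : X ≤ N := Nat.floor_le_floor (Real.rpow_le_rpow_of_exponent_le e0 (by linarith))
  set q := (4 * T ^ (-d)) ^ r with hq
  have hq0 : 0 ≤ q := by positivity
  have hq20 : q ≤ T ^ (-(20 : ℝ)) := by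
    have e1 : q ≤ (4 : ℝ) ^ r * T ^ (-(40 : ℝ)) := by
      rw [hq, mul_pow]
      gcongr
      rw [← Real.rpow_natCast, ← Real.rpow_mul hT0.le]
      exact Real.rpow_le_rpow_of_exponent_le e0 (by linarith only [hrd])
    calc q ≤ (4 : ℝ) ^ r * T ^ (-(40 : ℝ)) := e1
      _ ≤ T ^ (20 : ℝ) * T ^ (-(40 : ℝ)) := by gcongr
      _ = T ^ (-(20 : ℝ)) := by rw [← Real.rpow_add hT0]; norm_num
  have hρ : ∀ a b : ℕ, 1 ≤ a → 1 ≤ b → b ≤ X → a ≠ b →
      ‖charFun ν (Real.log b - Real.log a)‖ ≤ (b' - a') * q := by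
    intro a b ha1 hb1 hb hab
    have hb0 : (0 : ℝ) < b := by exact_mod_cast hb1
    have hbX : (b : ℝ) ≤ T ^ (1 - 2 * d) := le_trans (by exact_mod_cast hb) hXhi
    have hξ := abs_log_sub_ge ha1 hb1 hab
    have hξ0 : Real.log b - Real.log a ≠ 0 := by
      intro e
      rw [e, abs_zero] at hξ
      have : 0 < 1 / (2 * (b : ℝ)) := by positivity
      linarith
    refine (charFun_nu_norm hh0 (by linarith) hξ0 r).trans ?_
    have hξpos : 0 < |Real.log b - Real.log a| := abs_pos.mpr hξ0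
    rw [hq]
    gcongr
    rw [div_le_iff₀ (by positivity)]
    have e1 : T ^ (-d) * h = T ^ (1 - 2 * d) := by
      rw [hh, ← Real.rpow_add hT0]; congr 1; ring
    calc (2 : ℝ) = 4 * b * (1 / (2 * b)) := by field_simp; norm_num
      _ ≤ 4 * T ^ (1 - 2 * d) * |Real.log b - Real.log a| := by gcongr
      _ = 4 * T ^ (-d) * (h * |Real.log b - Real.log a|) := by rw [← e1]; ring
  have hevZ : evh (ZP N) ≤ T ^ (3 / 2 : ℝ) := by
    have e1 : evh (ZP N) ≤ N := by
      rw [ZP, map_sum]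
      calc ∑ n ∈ Finset.Icc 1 N, evh (MonoidAlgebra.single n 1)
          ≤ ∑ n ∈ Finset.Icc 1 N, (1 : ℝ) := by
            refine Finset.sum_le_sum fun n hn => ?_
            rw [Finset.mem_Icc] at hn
            rw [evh_apply, pair_single, one_mul]
            exact Real.rpow_le_one_of_one_le_of_nonpos (by exact_mod_cast hn.1) (by norm_num)
        _ = N := by simp
    exact e1.trans (Nat.floor_le (by positivity))
  have hevZ0 : 0 ≤ evh (ZP N) := by
    rw [evh_apply]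
    exact pair_nonneg (cone_ZP N) fun a _ => by positivity
  have hζ : ∀ᵐ t : ℝ ∂ν, ‖riemannZeta (1 / 2 + I * t) - ev t (ZP N)‖ ≤ 30 * T ^ (-(1 / 8) : ℝ) := by
    filter_upwards [nu_ae (a := a') (b := b') hh0 r] with t ht
    refine zeta_approx_T e0 ?_ ?_
    · have := ht.1
      rw [ha'] at this
      linarith [abs_nonneg x]
    · have := ht.2
      rw [hb'] at this
      linarith [abs_nonneg x]
  have hh1 : (b' - a') * q * evh (ZP N * 1) ^ 2 ≤ η * (b' - a') := by
    rw [mul_one]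
    have e1 : evh (ZP N) ^ 2 ≤ T ^ (3 : ℝ) := by
      calc evh (ZP N) ^ 2 ≤ (T ^ (3 / 2 : ℝ)) ^ 2 := by gcongr
        _ = T ^ (3 : ℝ) := by
            rw [← Real.rpow_natCast, ← Real.rpow_mul hT0.le]; norm_num
    have e2 : q * evh (ZP N) ^ 2 ≤ η := by
      calc q * evh (ZP N) ^ 2
          ≤ T ^ (-(20 : ℝ)) * T ^ (3 : ℝ) := by gcongr
        _ = T ^ (-(20 : ℝ) + 3) := by
            rw [← Real.rpow_add hT0]
        _ ≤ 1 * T ^ (-(15 : ℝ)) := by
            rw [one_mul]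
            exact Real.rpow_le_rpow_of_exponent_le e0 (by norm_num)
        _ ≤ η := e5
    calc (b' - a') * q * evh (ZP N) ^ 2
        = (b' - a') * (q * evh (ZP N) ^ 2) := by ring
      _ ≤ (b' - a') * η := by gcongr
      _ = _ := by ring
  have hlow := lower_abstract (ν := ν) (ρ := (b' - a') * q) (ε := η) (A := 1) (z := 1) hρ
    (by positivity) hX1 hXN (Cone.one (by simp)) coeff_one_one.ge hζ (by positivity) hη0.le hη1
    (by rw [hνW]; exact hh1) (by rw [map_one, mul_one]; exact e6)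
  have hG := G_ge (N := N) (X := X) (z := 1) hX1 hXN (A := 1) (Cone.one (by simp))
  rw [BK_K2_one, mul_one, Nat.cast_one, one_pow, div_one] at hG
  rw [hνW] at hlow
  have hlog : (1 - 3 * d) * Real.log T ≤ Real.log X := by
    have e1 : T ^ (1 - 3 * d) ≤ (X : ℝ) := by
      have e8 : T ^ (1 - 2 * d) / 2 ≤ X := floor_half hXone
      calc T ^ (1 - 3 * d) = T ^ (1 - 2 * d) * T ^ (-d) := by
            rw [← Real.rpow_add hT0]; congr 1; ring
        _ ≤ T ^ (1 - 2 * d) * (1 / 2) := by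
            have : T ^ (-d) ≤ 1 / 2 := by
              rw [Real.rpow_neg hT0.le, one_div]
              exact inv_anti₀ (by norm_num) e2
            gcongr
        _ ≤ X := by linarith
    calc (1 - 3 * d) * Real.log T = Real.log (T ^ (1 - 3 * d)) := by
          rw [Real.log_rpow hT0]
      _ ≤ _ := Real.log_le_log (by positivity) e1
  have hint := mom_ge (β := 2) (x := x) (T := T) (by norm_num) hT0 (ν := ν) (nu_le hh0 r)
    (nu_ae hh0 r) (by rw [ha']; linarith [le_abs_self x, Real.rpow_nonneg hT0.le (7 / 8)])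
    (by rw [hb', hh]; linarith [neg_abs_le x])
  refine le_trans ?_ hint
  rw [le_div_iff₀ hT0]
  have e7 : ∀ t : ℝ, ‖riemannZeta (1 / 2 + I * t) * ev t (1 : DP)‖ ^ 2
      = ‖riemannZeta (1 / 2 + I * t)‖ ^ (2 : ℝ) := by
    intro t
    rw [map_one, mul_one, Real.rpow_two]
  simp_rw [e7] at hlow
  refine le_trans ?_ hlow
  have h7 : 0 ≤ 1 - 7 * η := by rw [hη]; linarith
  have h3d : 0 ≤ 1 - 3 * d := by linarith
  calc (1 - ε) * Real.log T * T ≤ ((1 - η) * (1 - 3 * d) * (1 - 7 * η)) * Real.log T * T := by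
        gcongr
        rw [hη, hd]
        have q0 := sq_nonneg ε
        have q1 : 1 - 4 * (ε / 32) ≤ (1 - ε / 32) * (1 - 3 * (ε / 32)) := by linarith only [q0]
        have q2 : 1 - 11 * (ε / 32) ≤ (1 - 4 * (ε / 32)) * (1 - 7 * (ε / 32)) := by
          linarith only [q0]
        have q3 : 0 ≤ 1 - 7 * (ε / 32) := by linarith
        calc 1 - ε ≤ 1 - 11 * (ε / 32) := by linarith
          _ ≤ (1 - 4 * (ε / 32)) * (1 - 7 * (ε / 32)) := q2
          _ ≤ _ := mul_le_mul_of_nonneg_right q1 q3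
    _ = (T * (1 - η)) * ((1 - 3 * d) * Real.log T) * (1 - 7 * η) := by ring
    _ ≤ (b' - a') * (∑ n ∈ Finset.Icc 1 X, (ZP N * 1).coeff n ^ 2 * (n : ℝ)⁻¹) * (1 - 7 * η) := by
        have := hlog.trans hG
        gcongr

/-! ### Jensen -/

lemma mom_rpow_le {β x T : ℝ} (hβ : 2 ≤ β) (h : 0 < mom 2 x T) :
    mom 2 x T ^ (β / 2) ≤ mom β x T := by
  set m := mom 2 x T with hm
  set k := β / 2 with hk
  have hk1 : 1 ≤ k := by rw [hk]; linarith
  have hcz : Continuous (fun u : ℝ => riemannZeta (1 / 2 + I * x + I * u * T)) := by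
    have h1 : (fun u : ℝ => riemannZeta (1 / 2 + I * x + I * u * T)) =
        (fun t : ℝ => riemannZeta (1 / 2 + I * t)) ∘ (fun u : ℝ => x + u * T) := by
      funext u
      simp only [Function.comp_apply]
      congr 1
      push_cast
      ring
    rw [h1]
    exact continuous_zeta.comp (by fun_prop)
  have hc2 : Continuous (fun u : ℝ => ‖riemannZeta (1 / 2 + I * x + I * u * T)‖ ^ (2 : ℝ)) :=
    hcz.norm.rpow_const fun _ => Or.inr (by norm_num)
  have hcβ : Continuous (fun u : ℝ => ‖riemannZeta (1 / 2 + I * x + I * u * T)‖ ^ β) :=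
    hcz.norm.rpow_const fun _ => Or.inr (by linarith)
  have hpt : ∀ u : ℝ, m ^ k * (1 - k) + m ^ k * (k / m) * ‖riemannZeta (1 / 2 + I * x + I * u * T)‖ ^ (2 : ℝ)
      ≤ ‖riemannZeta (1 / 2 + I * x + I * u * T)‖ ^ β := by
    intro u
    set y := ‖riemannZeta (1 / 2 + I * x + I * u * T)‖ ^ (2 : ℝ) with hy
    have hy0 : 0 ≤ y := by positivity
    have h1 : ‖riemannZeta (1 / 2 + I * x + I * u * T)‖ ^ β = y ^ k := by
      rw [hy, ← Real.rpow_mul (norm_nonneg _)]
      congr 1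
      rw [hk]; ring
    have h2 := one_add_mul_self_le_rpow_one_add (s := y / m - 1) (by
      have : 0 ≤ y / m := by positivity
      linarith) hk1
    have h3 : 1 + (y / m - 1) = y / m := by ring
    rw [h3, Real.div_rpow hy0 h.le] at h2
    have h4 : 0 < m ^ k := by positivity
    rw [le_div_iff₀ h4] at h2
    rw [h1]
    refine le_trans (le_of_eq ?_) h2
    field_simp
    ring
  have h5 : ∫ u in (0 : ℝ)..1, (m ^ k * (1 - k) + m ^ k * (k / m) * ‖riemannZeta (1 / 2 + I * x + I * u * T)‖ ^ (2 : ℝ))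
      ≤ mom β x T := by
    refine intervalIntegral.integral_mono_on (by norm_num) ?_ ?_ fun u _ => hpt u
    · exact (continuous_const.add (continuous_const.mul hc2)).intervalIntegrable _ _
    · exact hcβ.intervalIntegrable _ _
  have i1 : IntervalIntegrable (fun _ : ℝ => m ^ k * (1 - k)) volume 0 1 :=
    continuous_const.intervalIntegrable _ _
  have i2 : IntervalIntegrable (fun u : ℝ => m ^ k * (k / m) *
      ‖riemannZeta (1 / 2 + I * x + I * u * T)‖ ^ (2 : ℝ)) volume 0 1 :=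
    (continuous_const.mul hc2).intervalIntegrable _ _
  rw [intervalIntegral.integral_add i1 i2, intervalIntegral.integral_const_mul (m ^ k * (k / m))]
    at h5
  simp only [intervalIntegral.integral_const, sub_zero, smul_eq_mul, one_mul] at h5
  have h6 : ∫ u in (0 : ℝ)..1, ‖riemannZeta (1 / 2 + I * x + I * u * T)‖ ^ (2 : ℝ) = m := rfl
  rw [h6] at h5
  refine le_trans (le_of_eq ?_) h5
  field_simp
  ring

/-! ### Explicit conditions -/

/-- The bound of `SharpLowerLib.lower` under explicit conditions on `T`. -/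
theorem lower_explicit (β : ℝ) (hβ : 2 < β) (x T : ℝ) (e0 : 1 ≤ T)
    (e1 : 1 ≤ (par β hβ).dl * Real.log T) (e2 : 2 ≤ T ^ (par β hβ).dz)
    (e3 : T * Real.exp (-((par β hβ).a / 10))
      ≤ T - 2 * |x| - ((1280 * (par β hβ).m : ℕ) : ℝ) * T ^ (1 - (par β hβ).dz) - T ^ (7 / 8 : ℝ))
    (e4 : (4 : ℝ) ^ (1280 * (par β hβ).m) ≤ T ^ (20 : ℝ))
    (e5 : Real.exp (2 * (par β hβ).a) * T ^ (-(15 : ℝ)) ≤ (par β hβ).a / (200 * (par β hβ).k))
    (e6 : 900 * Real.exp (2 * (par β hβ).a) * T ^ (-(3 / 16) : ℝ)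
      ≤ ((par β hβ).a / (200 * (par β hβ).k)) ^ 2)
    (e7 : Real.exp (2 * (par β hβ).k + 1) * T ^ (-(15 : ℝ)) ≤ 1) :
    Real.exp (-(6 * β * (β - 2) * Real.log (β + 1 / (β - 2))))
      * Real.log T ^ (β ^ 2 / 4) ≤ mom β x T := by
  set P := par β hβ with hP
  have hk : P.k = β / 2 := rfl
  have ha : P.a = β / 2 - 1 := rfl
  have hm : P.m = ⌈(β / 2) / (β / 2 - 1)⌉₊ := rfl
  have hl : P.l = 16000 * ⌈β / 2⌉₊ ^ 2 + ⌈(β / 2) / (β / 2 - 1)⌉₊ + 20 := rfl
  have ha0 : 0 < P.a := P.ha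
  have hk0 := P.k_pos
  have hk1 := P.k_ge
  have hdl := P.dl_pos
  have hdz := P.dz_pos
  have hdz2 := P.dz_le
  set p0 : ℕ := ⌈β / 2⌉₊ ^ 4 with hp0
  set B : ℝ := β + 1 / (β - 2) with hB
  have hβ2 : 0 < β - 2 := by linarith
  have hB4 : 4 ≤ B := by
    have h1 : β - 2 + 1 / (β - 2) ≥ 2 := by
      have : (β - 2) * (1 / (β - 2)) = 1 := by field_simp
      have h2 : 0 < 1 / (β - 2) := by positivity
      have h3 : (β - 2 + 1 / (β - 2)) ^ 2 = (β - 2 - 1 / (β - 2)) ^ 2 + 4 := by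
        linear_combination 4 * this
      have h4 : (2 : ℝ) ^ 2 ≤ (β - 2 + 1 / (β - 2)) ^ 2 := by
        have := sq_nonneg (β - 2 - 1 / (β - 2))
        linarith
      exact le_of_sq_le_sq h4 (by linarith)
    rw [hB]; linarith
  have hc1 : (β / 2 : ℝ) ≤ ⌈β / 2⌉₊ := Nat.le_ceil _
  have hc0 : (0 : ℝ) < ⌈β / 2⌉₊ := by linarith
  have hcB : (⌈β / 2⌉₊ : ℝ) ≤ B := by
    have h1 := (Nat.ceil_lt_add_one (a := β / 2) (by positivity)).le
    have h2 : 0 < 1 / (β - 2) := by positivity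
    rw [hB]; linarith
  have hm0 : (0 : ℝ) < P.m := by have := P.m_one; linarith
  have hmB : (P.m : ℝ) ≤ 2 * B := by
    rw [hm]
    have h1 := (Nat.ceil_lt_add_one (a := (β / 2) / (β / 2 - 1)) (by positivity)).le
    have h2 : (β / 2) / (β / 2 - 1) = 1 + 2 / (β - 2) := by
      have : β / 2 - 1 ≠ 0 := by linarith
      have : β - 2 ≠ 0 := by linarith
      field_simp
      ring
    have h3 : 2 / (β - 2) = 2 * (1 / (β - 2)) := by ring
    rw [hB]; linarith
  have hp01 : 1 ≤ p0 := by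
    rw [hp0]
    apply Nat.one_le_pow
    exact Nat.ceil_pos.mpr (by linarith)
  have hp0k : P.k ^ 4 ≤ (p0 : ℝ) := by
    rw [hp0, hk]
    push_cast
    gcongr
  have hnum := num_bound (B := B) (c := ⌈β / 2⌉₊) (m := P.m) (l := P.l) (p := p0) hB4 hc0 hcB hm0 hmB
    (by rw [hl, hm]; push_cast; ring) (by rw [hp0]; push_cast; ring)
  set ε : ℝ := P.a / (200 * P.k) with hε
  have hak : P.a ≤ P.k := by rw [ha, hk]; linarith
  have hε0 : 0 < ε := by positivity
  have hε1 : ε ≤ 1 / 200 := by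
    rw [hε, div_le_div_iff₀ (by positivity) (by norm_num)]
    linarith
  have hεk : ε * P.k = P.a / 200 := by rw [hε]; field_simp
  set r : ℕ := 1280 * P.m with hr
  have hT0 : 0 < T := by linarith
  have hmain := P.finite_T (x := x) hp01 hp0k hε0 (by linarith) (le_refl r) e0 e1 e2 e3 e4
    (le_refl r) e5 e6 e7
  have hmom : mom (2 * P.k) x T = mom β x T := by
    have : 2 * P.k = β := by rw [hk]; ring
    rw [this]
  rw [hmom] at hmain
  refine le_trans ?_ hmain
  have hLt : 0 < Real.log T := by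
    by_contra h
    have : P.dl * Real.log T ≤ 0 := mul_nonpos_of_nonneg_of_nonpos hdl.le (not_lt.mp h)
    linarith
  set Lt := Real.log T with hLtdef
  have s1 : Real.exp (-(10 * P.dz + 14 * ε)) * Lt ≤ (1 - 5 * P.dz) * Lt * (1 - 7 * ε) := by
    have q1 := le_one_sub (y := 5 * P.dz) (by positivity) (by linarith)
    have q2 := le_one_sub (y := 7 * ε) (by positivity) (by linarith)
    calc Real.exp (-(10 * P.dz + 14 * ε)) * Lt
        = Real.exp (-(2 * (5 * P.dz))) * Lt * Real.exp (-(2 * (7 * ε))) := by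
          have : -(10 * P.dz + 14 * ε) = -(2 * (5 * P.dz)) + -(2 * (7 * ε)) := by ring
          rw [this, Real.exp_add]; ring
      _ ≤ (1 - 5 * P.dz) * Lt * (1 - 7 * ε) := by
          have q3 : 0 ≤ 1 - 5 * P.dz := by linarith
          have q4 : 0 ≤ (1 - 5 * P.dz) * Lt := by positivity
          gcongr
  have s2 : Real.exp (-((10 * P.dz + 14 * ε) * P.k)) * Lt ^ P.k
      ≤ ((1 - 5 * P.dz) * Lt * (1 - 7 * ε)) ^ P.k := by
    calc Real.exp (-((10 * P.dz + 14 * ε) * P.k)) * Lt ^ P.k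
        = (Real.exp (-(10 * P.dz + 14 * ε)) * Lt) ^ P.k := by
          rw [Real.mul_rpow (Real.exp_pos _).le hLt.le, ← Real.exp_mul]
          congr 2
          ring
      _ ≤ _ := Real.rpow_le_rpow (by positivity) s1 hk0.le
  have s3 : Real.log (P.dl * Lt) = -Real.log (64 * P.m * P.l) + Real.log Lt := by
    have hl0 : (0 : ℝ) < P.l := by have := P.l_one; linarith
    rw [Real.log_mul hdl.ne' hLt.ne']
    congr 1
    have : P.dl = (64 * P.m * P.l : ℝ)⁻¹ := by unfold Par.dl; rw [one_div]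
    rw [this, Real.log_inv]
  have s4 : Lt ^ (β ^ 2 / 4) = Lt ^ P.k * Real.exp (P.k * P.a * Real.log Lt) := by
    have : Real.exp (P.k * P.a * Real.log Lt) = Lt ^ (P.k * P.a) := by
      rw [Real.rpow_def_of_pos hLt]; congr 1; ring
    rw [this, ← Real.rpow_add hLt]
    congr 1
    rw [hk, ha]; ring
  have s5 : 10 * P.dz * P.k ≤ 10 / 32 * P.a := by
    have h1 := P.hm1
    have : 10 * P.dz * P.k = 10 / 32 * (P.k / P.m) := by unfold Par.dz; field_simp
    rw [this]
    gcongr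
    rw [div_le_iff₀ hm0]
    exact h1
  have s6 : 6 * β * (β - 2) * Real.log B = 24 * (P.k * P.a * Real.log B) := by
    rw [hk, ha]; ring
  have hka : 0 < P.k * P.a := by positivity
  have s7 : P.k * P.a * (28 / 5 + Real.log p0 + Real.log (64 * P.m * P.l))
      ≤ P.k * P.a * (24 * Real.log B) := by gcongr
  have s8 : P.a ≤ P.k * P.a := le_mul_of_one_le_left ha0.le (by rw [hk]; linarith only [hβ])
  calc Real.exp (-(6 * β * (β - 2) * Real.log B)) * Lt ^ (β ^ 2 / 4)
      ≤ Real.exp (-(P.a / 10) + -((10 * P.dz + 14 * ε) * P.k)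
          + (P.k * P.a * (-Real.log (64 * P.m * P.l) - 2 - Real.log p0) - (31 / 10) * P.a))
          * (Lt ^ P.k * Real.exp (P.k * P.a * Real.log Lt)) := by
        rw [s4]
        gcongr
        rw [s6]
        have h14 : (10 * P.dz + 14 * ε) * P.k = 10 * P.dz * P.k + 14 * (ε * P.k) := by ring
        rw [h14, hεk]
        linarith only [s5, s7, s8, ha0]
    _ = Real.exp (-(P.a / 10)) * (Real.exp (-((10 * P.dz + 14 * ε) * P.k)) * Lt ^ P.k)
          * Real.exp (P.k * P.a * (Real.log (P.dl * Lt) - 2 - Real.log p0) - (31 / 10) * P.a) := by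
        have h9 : P.k * P.a * (Real.log (P.dl * Lt) - 2 - Real.log p0) - (31 / 10) * P.a
            = (P.k * P.a * (-Real.log (64 * P.m * P.l) - 2 - Real.log p0) - (31 / 10) * P.a)
              + P.k * P.a * Real.log Lt := by rw [s3]; ring
        rw [h9, Real.exp_add, Real.exp_add, Real.exp_add]
        ring
    _ ≤ _ := by gcongr

/-- negative powers are small -/
lemma rpow_neg_le {T c : ℝ} (hT : 0 < T) (hc : 0 < c) (hL : 0 < Real.log T) :
    T ^ (-c) ≤ 1 / (c * Real.log T) := by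
  rw [Real.rpow_def_of_pos hT, mul_neg, Real.exp_neg, one_div]
  apply inv_anti₀ (by positivity)
  have := Real.add_one_le_exp (Real.log T * c)
  linarith

/-- All conditions hold when `T` is large in terms of `1 / (β - 2)`. -/
theorem lower_large (β : ℝ) (hβ : 2 < β) (hβ' : β ≤ 4) (x T : ℝ) (hT : 0 < T)
    (hL : 10 ^ 10 / (β / 2 - 1) ^ 3 ≤ Real.log T) (hx : |x| * (β / 2 - 1) ^ 2 ≤ 10 ^ 7) :
    Real.exp (-(6 * β * (β - 2) * Real.log (β + 1 / (β - 2))))
      * Real.log T ^ (β ^ 2 / 4) ≤ mom β x T := by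
  obtain ⟨a, ha⟩ : ∃ a : ℝ, a = β / 2 - 1 := ⟨_, rfl⟩
  rw [← ha] at hL hx
  have ha0 : 0 < a := by rw [ha]; linarith
  have ha1 : a ≤ 1 := by rw [ha]; linarith
  have hPk : (par β hβ).k = 1 + a := by
    change β / 2 = _
    rw [ha]; ring
  have hPa : (par β hβ).a = a := ha.symm
  have hPm : ((par β hβ).m : ℝ) ≤ 3 / a := by
    have h1 : (par β hβ).m = ⌈(β / 2) / (β / 2 - 1)⌉₊ := rfl
    rw [h1, ← ha]
    have h2 := (Nat.ceil_lt_add_one (a := (β / 2) / a) (by
      have : 0 < β / 2 := by linarith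
      positivity)).le
    have h3 : (β / 2) / a = 1 / a + 1 := by
      have : β / 2 = 1 + a := by rw [ha]; ring
      rw [this]; field_simp
    rw [h3] at h2 ⊢
    have h4 : (1 : ℝ) ≤ 1 / a := by rw [le_div_iff₀ ha0]; linarith
    have h5 : 3 / a = 3 * (1 / a) := by ring
    rw [h5]
    linarith
  have hPl : ((par β hβ).l : ℝ) ≤ 64023 / a := by
    have h1 : (par β hβ).l = 16000 * ⌈β / 2⌉₊ ^ 2 + (par β hβ).m + 20 := rfl
    have h2 : ⌈β / 2⌉₊ ≤ 2 := by
      rw [Nat.ceil_le]; push_cast; linarith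
    have h3 : ((par β hβ).l : ℝ) ≤ 64020 + (par β hβ).m := by
      have : (par β hβ).l ≤ 16000 * 2 ^ 2 + (par β hβ).m + 20 := by
        rw [h1]; gcongr
      have h4 : ((par β hβ).l : ℝ) ≤ ((16000 * 2 ^ 2 + (par β hβ).m + 20 : ℕ) : ℝ) := by
        exact_mod_cast this
      push_cast at h4
      linarith
    have h4 : (1 : ℝ) ≤ 1 / a := by rw [le_div_iff₀ ha0]; linarith
    have h5 : 3 / a = 3 * (1 / a) := by ring
    have h6 : 64023 / a = 64023 * (1 / a) := by ring
    rw [h6]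
    rw [h5] at hPm
    linarith
  have hm1 := (par β hβ).m_one
  have hl1 := (par β hβ).l_one
  set Lt := Real.log T with hLt
  have ha3 : 0 < a ^ 3 := by positivity
  have hLa : 10 ^ 10 ≤ Lt * a ^ 3 := by rwa [div_le_iff₀ ha3] at hL
  have hL0 : 0 < Lt := lt_of_lt_of_le (by positivity) hL
  have hLa1 : 10 ^ 10 ≤ Lt * a := by
    have h1 : a ^ 3 ≤ a := pow_le_of_le_one ha0.le ha1 (by norm_num)
    exact hLa.trans (mul_le_mul_of_nonneg_left h1 hL0.le)
  have hLa2 : 10 ^ 10 ≤ Lt * a ^ 2 := by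
    have h1 : a ^ 3 ≤ a ^ 2 := pow_le_pow_of_le_one ha0.le ha1 (by norm_num)
    exact hLa.trans (mul_le_mul_of_nonneg_left h1 hL0.le)
  have hLb : 10 ^ 10 ≤ Lt := hLa1.trans (mul_le_of_le_one_right hL0.le ha1)
  have e0 : 1 ≤ T := by
    by_contra h
    push Not at h
    have := Real.log_neg hT h
    linarith
  have hdl : a ^ 2 / 10 ^ 8 ≤ (par β hβ).dl := by
    unfold Par.dl
    rw [div_le_div_iff₀ (by positivity) (by positivity)]
    have h1 : (64 * (par β hβ).m * (par β hβ).l : ℝ) ≤ 64 * (3 / a) * (64023 / a) := by gcongr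
    have h2 : 64 * (3 / a) * (64023 / a) = 12292416 / a ^ 2 := by field_simp; norm_num
    rw [h2] at h1
    calc a ^ 2 * (64 * (par β hβ).m * (par β hβ).l : ℝ) ≤ a ^ 2 * (12292416 / a ^ 2) := by gcongr
      _ = 12292416 := by field_simp
      _ ≤ _ := by norm_num
  have hdz : a / 96 ≤ (par β hβ).dz := by
    unfold Par.dz
    rw [div_le_div_iff₀ (by norm_num) (by positivity)]
    have h1 : (32 * (par β hβ).m : ℝ) ≤ 32 * (3 / a) := by gcongr
    calc a * (32 * (par β hβ).m : ℝ) ≤ a * (32 * (3 / a)) := by gcongr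
      _ = 1 * 96 := by field_simp; norm_num
  have hdz0 := (par β hβ).dz_pos
  have hdzL : 96⁻¹ * 10 ^ 10 ≤ (par β hβ).dz * Lt * a ^ 2 := by
    calc (96 : ℝ)⁻¹ * 10 ^ 10 ≤ 96⁻¹ * (Lt * a ^ 3) := by gcongr
      _ = (a / 96) * Lt * a ^ 2 := by ring
      _ ≤ _ := by gcongr
  have hexp2 : Real.exp 2 ≤ 8 := by
    have h1 : Real.exp 1 < 2.7182818286 := Real.exp_one_lt_d9
    have h2 : Real.exp 2 = Real.exp 1 ^ 2 := by rw [← Real.exp_nat_mul]; norm_num
    rw [h2]
    calc Real.exp 1 ^ 2 ≤ 2.7182818286 ^ 2 := by gcongr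
      _ ≤ 8 := by norm_num
  have hexp5 : Real.exp 5 ≤ 243 := by
    have h1 : Real.exp 1 < 2.7182818286 := Real.exp_one_lt_d9
    have h2 : Real.exp 5 = Real.exp 1 ^ 5 := by rw [← Real.exp_nat_mul]; norm_num
    rw [h2]
    calc Real.exp 1 ^ 5 ≤ 3 ^ 5 := by gcongr; linarith
      _ = 243 := by norm_num
  have hexp2a : Real.exp (2 * a) ≤ 8 := (Real.exp_le_exp.mpr (by linarith)).trans hexp2
  refine lower_explicit β hβ x T e0 ?_ ?_ ?_ ?_ ?_ ?_ ?_
  · calc (1 : ℝ) ≤ a ^ 2 / 10 ^ 8 * Lt := by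
          rw [div_mul_eq_mul_div, le_div_iff₀ (by norm_num)]
          linarith only [hLa2]
      _ ≤ _ := by gcongr
  · have h1 := Real.add_one_le_exp (Lt * (par β hβ).dz)
    rw [Real.rpow_def_of_pos hT]
    have h2 : 1 ≤ Lt * (par β hβ).dz := by
      calc (1 : ℝ) ≤ Lt * (a / 96) := by
            rw [mul_div_assoc', le_div_iff₀ (by norm_num)]
            linarith only [hLa1]
        _ ≤ _ := by gcongr
    linarith
  · rw [hPa]
    -- divide by T
    have f1 : Real.exp (-(a / 10)) ≤ 1 - a / 20 := by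
      rw [Real.exp_neg]
      have h1 := Real.add_one_le_exp (a / 10)
      have h2 : (Real.exp (a / 10))⁻¹ ≤ (a / 10 + 1)⁻¹ := inv_anti₀ (by positivity) h1
      refine h2.trans ?_
      rw [inv_le_iff_one_le_mul₀ (by positivity)]
      nlinarith only [ha0, ha1]
    have f2 : 2 * |x| ≤ T * (a / 60) := by
      have h1 : Lt ≤ T := by
        have := Real.log_le_sub_one_of_pos hT
        linarith
      have h2 : 120 * |x| ≤ Lt * a := by
        have h3 : 120 * |x| * a ^ 2 ≤ Lt * a * a ^ 2 := by linarith only [hx, hLa]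
        exact le_of_mul_le_mul_right h3 (by positivity)
      have h3 : Lt * a ≤ T * a := mul_le_mul_of_nonneg_right h1 ha0.le
      linarith only [h2, h3]
    have f3 : ((1280 * (par β hβ).m : ℕ) : ℝ) * T ^ (-(par β hβ).dz) ≤ a / 60 := by
      have h1 := rpow_neg_le hT hdz0 (by rw [← hLt]; exact hL0)
      rw [← hLt] at h1
      have h2 : 1 / ((par β hβ).dz * Lt) ≤ 96 * a ^ 2 / 10 ^ 10 := by
        rw [div_le_div_iff₀ (by positivity) (by norm_num)]
        linarith only [hdzL]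
      push_cast
      calc 1280 * ((par β hβ).m : ℝ) * T ^ (-(par β hβ).dz)
          ≤ 1280 * (3 / a) * (96 * a ^ 2 / 10 ^ 10) := by
            have := h1.trans h2
            gcongr
        _ = 368640 * a / 10 ^ 10 := by field_simp; norm_num
        _ ≤ a / 60 := by
            rw [div_le_div_iff₀ (by norm_num) (by norm_num)]
            linarith only [ha0]
    have f4 : T ^ (-(1 / 8) : ℝ) ≤ a / 60 := by
      have h1 := rpow_neg_le (c := 1 / 8) hT (by norm_num) (by rw [← hLt]; exact hL0)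
      rw [← hLt] at h1
      refine h1.trans ?_
      rw [div_le_div_iff₀ (by positivity) (by norm_num)]
      linarith only [hLa1]
    have g2 : T * T ^ (-(par β hβ).dz) = T ^ (1 - (par β hβ).dz) := by
      nth_rw 1 [← Real.rpow_one T]
      rw [← Real.rpow_add hT]; congr 1
    have g3 : T * T ^ (-(1 / 8) : ℝ) = T ^ (7 / 8 : ℝ) := by
      nth_rw 1 [← Real.rpow_one T]
      rw [← Real.rpow_add hT]; norm_num
    have k1 : T * Real.exp (-(a / 10)) ≤ T * (1 - a / 20) := by gcongr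
    have k3 : T * (((1280 * (par β hβ).m : ℕ) : ℝ) * T ^ (-(par β hβ).dz)) ≤ T * (a / 60) := by
      gcongr
    have k4 : T * T ^ (-(1 / 8) : ℝ) ≤ T * (a / 60) := by gcongr
    rw [← g2, ← g3]
    have k5 : ((1280 * (par β hβ).m : ℕ) : ℝ) * (T * T ^ (-(par β hβ).dz)) =
        T * (((1280 * (par β hβ).m : ℕ) : ℝ) * T ^ (-(par β hβ).dz)) := by ring
    rw [k5]
    linarith only [k1, k3, k4, f2]
  · have h1 : (4 : ℝ) ≤ Real.exp 2 := by
      have := Real.add_one_le_exp (1 : ℝ)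
      have h2 : Real.exp 2 = Real.exp 1 ^ 2 := by rw [← Real.exp_nat_mul]; norm_num
      rw [h2]
      calc (4 : ℝ) = 2 ^ 2 := by norm_num
        _ ≤ Real.exp 1 ^ 2 := by gcongr; linarith only [this]
    calc (4 : ℝ) ^ (1280 * (par β hβ).m) ≤ Real.exp 2 ^ (1280 * (par β hβ).m) := by gcongr
      _ = Real.exp (2560 * (par β hβ).m) := by
          rw [← Real.exp_nat_mul]; congr 1; push_cast; ring
      _ ≤ Real.exp (Lt * 20) := by
          apply Real.exp_le_exp.mpr
          calc (2560 * (par β hβ).m : ℝ) ≤ 2560 * (3 / a) := by gcongr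
            _ = 7680 / a := by ring
            _ ≤ Lt * 20 := by
                rw [div_le_iff₀ ha0]
                linarith only [hLa1]
      _ = T ^ (20 : ℝ) := by rw [Real.rpow_def_of_pos hT]
  · rw [hPa, hPk]
    have h1 := rpow_neg_le (c := 15) hT (by norm_num) (by rw [← hLt]; exact hL0)
    rw [← hLt] at h1
    have h2 : 1 / (15 * Lt) ≤ a / 3200 := by
      rw [div_le_div_iff₀ (by positivity) (by norm_num)]
      linarith only [hLa1]
    calc Real.exp (2 * a) * T ^ (-(15 : ℝ)) ≤ 8 * (a / 3200) := by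
          have := h1.trans h2
          gcongr
      _ = a / (200 * 2) := by ring
      _ ≤ a / (200 * (1 + a)) := by gcongr; linarith
  · rw [hPa, hPk]
    have h1 := rpow_neg_le (c := 3 / 16) hT (by norm_num) (by rw [← hLt]; exact hL0)
    rw [← hLt] at h1
    have h1' : T ^ (-(3 / 16) : ℝ) ≤ 1 / (3 / 16 * Lt) := h1
    have h2 : 1 / (3 / 16 * Lt) ≤ a ^ 2 / (7200 * 160000) := by
      rw [div_le_div_iff₀ (by positivity) (by norm_num)]
      linarith only [hLa2]
    calc 900 * Real.exp (2 * a) * T ^ (-(3 / 16) : ℝ) ≤ 900 * 8 * (a ^ 2 / (7200 * 160000)) := by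
          have := h1'.trans h2
          gcongr
      _ = (a / (200 * 2)) ^ 2 := by ring
      _ ≤ (a / (200 * (1 + a))) ^ 2 := by gcongr; linarith
  · rw [hPk]
    have h1 := rpow_neg_le (c := 15) hT (by norm_num) (by rw [← hLt]; exact hL0)
    rw [← hLt] at h1
    have h2 : 1 / (15 * Lt) ≤ 1 / 243 := by
      apply one_div_le_one_div_of_le (by norm_num)
      linarith
    have h3 : Real.exp (2 * (1 + a) + 1) ≤ 243 :=
      (Real.exp_le_exp.mpr (by linarith)).trans hexp5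
    calc Real.exp (2 * (1 + a) + 1) * T ^ (-(15 : ℝ)) ≤ 243 * (1 / 243) := by
          have := h1.trans h2
          gcongr
      _ = 1 := by norm_num

/-- Uniform lower bound for the moments of exponent slightly above `2`. -/
theorem lower_two_plus (x ε : ℝ) (hε : 0 < ε) : ∃ η0 : ℝ, 0 < η0 ∧ ∃ T0 : ℝ, ∀ β : ℝ, 2 ≤ β →
    β ≤ 2 + η0 → ∀ T : ℝ, T0 ≤ T → (1 - ε) * Real.log T ^ (β ^ 2 / 4) ≤ mom β x T := by
  wlog hε1 : ε ≤ 1 generalizing ε
  · obtain ⟨η0, hη0, T0, h⟩ := this 1 one_pos le_rfl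
    refine ⟨η0, hη0, max T0 1, fun β h1 h2 T hT => ?_⟩
    refine le_trans ?_ (h β h1 h2 T ((le_max_left _ _).trans hT))
    have h3 : 0 ≤ Real.log T := Real.log_nonneg ((le_max_right _ _).trans hT)
    gcongr
    linarith
  obtain ⟨δ, hδ⟩ : ∃ δ : ℝ, δ = ε / 8 := ⟨_, rfl⟩
  have hδ0 : 0 < δ := by rw [hδ]; positivity
  have hδ1 : δ ≤ 1 / 8 := by rw [hδ]; linarith
  obtain ⟨T1, hT1⟩ := eventually_atTop.1 (mom_two_lower x δ hδ0)
  have h1 := limit_const.eventually_const_lt (by linarith : 1 - ε < 1)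
  rw [eventually_nhdsWithin_iff, Metric.eventually_nhds_iff] at h1
  obtain ⟨c, hc, h2⟩ := h1
  obtain ⟨a0, ha0⟩ : ∃ a0 : ℝ, a0 = min (min 1 (c / 4))
    (min (δ ^ 4 / (24 * 10 ^ 10)) (10 ^ 7 / (|x| + 1))) := ⟨_, rfl⟩
  have ha0p : 0 < a0 := by
    rw [ha0]
    have := abs_nonneg x
    refine lt_min (lt_min one_pos (by positivity)) (lt_min (by positivity) (by positivity))
  have ha01 : a0 ≤ 1 := by rw [ha0]; exact (min_le_left _ _).trans (min_le_left _ _)
  have ha02 : a0 ≤ c / 4 := by rw [ha0]; exact (min_le_left _ _).trans (min_le_right _ _)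
  have ha03 : a0 ≤ δ ^ 4 / (24 * 10 ^ 10) := by
    rw [ha0]; exact (min_le_right _ _).trans (min_le_left _ _)
  have ha04 : a0 ≤ 10 ^ 7 / (|x| + 1) := by
    rw [ha0]; exact (min_le_right _ _).trans (min_le_right _ _)
  refine ⟨2 * a0, by positivity, max T1 (Real.exp 1), fun β hβ2 hβ T hT => ?_⟩
  have hTT1 : T1 ≤ T := (le_max_left _ _).trans hT
  have hTe : Real.exp 1 ≤ T := (le_max_right _ _).trans hT
  have hT0 : 0 < T := lt_of_lt_of_le (Real.exp_pos _) hTe
  have hL1 : 1 ≤ Real.log T := by rwa [Real.le_log_iff_exp_le hT0]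
  obtain ⟨a, ha⟩ : ∃ a : ℝ, a = β / 2 - 1 := ⟨_, rfl⟩
  have ha_nn : 0 ≤ a := by rw [ha]; linarith
  have haa0 : a ≤ a0 := by rw [ha]; linarith
  set Lt := Real.log T with hLt
  have hL0 : 0 < Lt := by linarith
  have hLL : 0 ≤ Real.log Lt := Real.log_nonneg hL1
  have hβa : β = 2 + 2 * a := by rw [ha]; ring
  by_cases hcase : a * Real.log Lt ≤ δ
  · have h3 := hT1 T hTT1
    rw [← hLt] at h3
    have h4 : 0 < (1 - δ) * Lt := mul_pos (by linarith) hL0
    have h5 : 0 < mom 2 x T := lt_of_lt_of_le h4 h3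
    refine le_trans ?_ (mom_rpow_le hβ2 h5)
    have h6 : ((1 - δ) * Lt) ^ (β / 2) ≤ mom 2 x T ^ (β / 2) :=
      Real.rpow_le_rpow h4.le h3 (by linarith)
    refine le_trans ?_ h6
    have h7 : β / 2 = 1 + a := by rw [ha]; ring
    have h8 : β ^ 2 / 4 = (1 + a) + (1 + a) * a := by rw [hβa]; ring
    rw [h7, h8, Real.rpow_add hL0, Real.mul_rpow (by linarith) hL0.le]
    have h9 : Lt ^ ((1 + a) * a) ≤ Real.exp (2 * δ) := by
      rw [Real.rpow_def_of_pos hL0]
      apply Real.exp_le_exp.mpr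
      have h10 : a * Real.log Lt * (1 + a) ≤ δ * 2 :=
        mul_le_mul hcase (by linarith) (by positivity) hδ0.le
      linarith only [h10]
    have h10 : (1 - δ) ^ (2 : ℝ) ≤ (1 - δ) ^ (1 + a) :=
      Real.rpow_le_rpow_of_exponent_ge (by linarith) (by linarith) (by linarith)
    rw [Real.rpow_two] at h10
    have h11 : (1 - ε) * Real.exp (2 * δ) ≤ (1 - δ) ^ 2 := by
      have h12 : 1 - 2 * δ ≤ Real.exp (-(2 * δ)) := by
        have := Real.add_one_le_exp (-(2 * δ))
        linarith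
      have h13 : Real.exp (-(2 * δ)) * Real.exp (2 * δ) = 1 := by
        rw [← Real.exp_add]; simp
      have h14 : 0 < 1 - 2 * δ := by linarith
      have h15 : Real.exp (2 * δ) * (1 - 2 * δ) ≤ 1 := by
        calc Real.exp (2 * δ) * (1 - 2 * δ) ≤ Real.exp (2 * δ) * Real.exp (-(2 * δ)) := by gcongr
          _ = 1 := by rw [mul_comm]; exact h13
      have h16 : 1 - ε ≤ (1 - δ) ^ 2 * (1 - 2 * δ) := by
        have : ε = 8 * δ := by rw [hδ]; ring
        rw [this]
        have h21 : 0 ≤ δ ^ 2 * (5 - 2 * δ) := mul_nonneg (by positivity) (by linarith)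
        have h22 : (1 - δ) ^ 2 * (1 - 2 * δ) = 1 - 4 * δ + δ ^ 2 * (5 - 2 * δ) := by ring
        linarith only [h21, h22, hδ0]
      have h17 : 0 < Real.exp (2 * δ) := Real.exp_pos _
      calc (1 - ε) * Real.exp (2 * δ) ≤ ((1 - δ) ^ 2 * (1 - 2 * δ)) * Real.exp (2 * δ) := by gcongr
        _ = (1 - δ) ^ 2 * (Real.exp (2 * δ) * (1 - 2 * δ)) := by ring
        _ ≤ (1 - δ) ^ 2 * 1 := by gcongr
        _ = _ := by ring
    have h18 : 0 ≤ 1 - ε := by linarith
    have h19 : 0 ≤ Lt ^ (1 + a) := by positivity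
    calc (1 - ε) * (Lt ^ (1 + a) * Lt ^ ((1 + a) * a))
        ≤ (1 - ε) * (Lt ^ (1 + a) * Real.exp (2 * δ)) := by gcongr
      _ = ((1 - ε) * Real.exp (2 * δ)) * Lt ^ (1 + a) := by ring
      _ ≤ (1 - δ) ^ 2 * Lt ^ (1 + a) := by gcongr
      _ ≤ (1 - δ) ^ (1 + a) * Lt ^ (1 + a) := by gcongr
  · push Not at hcase
    have ha_pos : 0 < a := by
      rcases ha_nn.lt_or_eq with h | h
      · exact h
      · rw [← h, zero_mul] at hcase; linarith
    have hβ' : 2 < β := by rw [hβa]; linarith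
    have h3 : δ / a < Real.log Lt := by rwa [div_lt_iff₀ ha_pos, mul_comm]
    have h4 : (δ / a) ^ 4 / 24 ≤ Lt := by
      have h5 := Real.pow_div_factorial_le_exp (δ / a) (by positivity) 4
      have h6 : ((Nat.factorial 4 : ℕ) : ℝ) = 24 := by norm_num [Nat.factorial]
      rw [h6] at h5
      refine h5.trans ?_
      calc Real.exp (δ / a) ≤ Real.exp (Real.log Lt) := Real.exp_le_exp.mpr h3.le
        _ = Lt := Real.exp_log hL0
    have h5 : 10 ^ 10 / (β / 2 - 1) ^ 3 ≤ Real.log T := by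
      rw [← ha, ← hLt]
      refine le_trans ?_ h4
      rw [div_pow, div_div, div_le_div_iff₀ (by positivity) (by positivity)]
      have h6 : a * (24 * 10 ^ 10) ≤ δ ^ 4 := by
        have := haa0.trans ha03
        rwa [le_div_iff₀ (by norm_num)] at this
      have h7 : 0 < a ^ 3 := by positivity
      have h8 := mul_le_mul_of_nonneg_right h6 h7.le
      have h9 : a * (24 * 10 ^ 10) * a ^ 3 = 10 ^ 10 * (a ^ 4 * 24) := by ring
      linarith only [h8, h9]
    have h6 : |x| * (β / 2 - 1) ^ 2 ≤ 10 ^ 7 := by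
      rw [← ha]
      have h7 : a * (|x| + 1) ≤ 10 ^ 7 := by
        have := haa0.trans ha04
        rwa [le_div_iff₀ (by have := abs_nonneg x; positivity)] at this
      have h8 : a ^ 2 ≤ a := pow_le_of_le_one ha_nn (haa0.trans ha01) (by norm_num)
      have h9 := mul_le_mul_of_nonneg_left h8 (abs_nonneg x)
      linarith only [h7, h9, ha_nn]
    refine le_trans ?_ (lower_large β hβ' (by rw [hβa]; linarith) x T hT0 h5 h6)
    have h7 := h2 (y := β) (by rw [Real.dist_eq, abs_lt]; constructor <;> linarith) hβ'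
    have h8 : 0 ≤ Lt ^ (β ^ 2 / 4) := by positivity
    gcongr

end Pool.Agent.Lib.MP_f9aece_nt_h5
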