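import Mathlib
import Pool.Agent.Lib.MP_f9aece_nt_h97.SharpUpperLib

/-!
Uniform versions of the upper bounds for small exponents.
-/

set_option autoImplicit false

namespace Pool.Agent.Lib.MP_f9aece_nt_h5

open MeasureTheory Set Filter Topology Complex
open Pool.Agent.Lib.MP_f9aece_nt Pool.Agent.Lib.MP_f9aece_nt_h97
open scoped ArithmeticFunction.Omega

theorem meanX_unif : ∃ Y0 : ℝ, 1 ≤ Y0 ∧ ∀ a : ℝ, 1 / 2 ≤ a → a ≤ 1 → ∀ Y : ℝ, Y0 ≤ Y →
    ∀ J : ℕ, (J : ℝ) ≤ Y + 3 →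
    ∫ t in (0 : ℝ)..Real.exp (640000 * Y), ‖riemannZeta (1 / 2 + I * t)‖ ^ 2
        * up (-a) Mj Rj (fun j => ev t (PP (Sc Y j))) J
      ≤ Real.exp (640000 * Y) * (640000 * Y * Real.exp ((a ^ 2 - 2 * a) * Vt Y J + 3.41 * a)) := by
  obtain ⟨C, T0, hC, hT0, htsm0⟩ := tsm (ε := 1 / 2000) (by norm_num) (by norm_num)
  refine ⟨max 1 (max (C / 160) (Real.log T0)), le_max_left _ _, ?_⟩
  intro a ha2 ha Y hY J hJ
  have ha0 : 0 < a := by linarith
  have htsm : ∀ T : ℝ, T0 ≤ T → ∀ (D : DP) (H : ℝ), 1 ≤ H →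
      (∀ n, D.coeff n ≠ 0 → 1 ≤ n ∧ (n : ℝ) ≤ H) →
      ∫ t in (0 : ℝ)..T, ‖riemannZeta (1 / 2 + I * t) * ev t D‖ ^ 2
        ≤ T * ((1 + a / 1000) * (Real.log T * |BK K2 D D| + |BK KL D D|) + C * |BK K2 D D|
          + C * (nrm D * H) ^ 2 / T ^ (1 / 16 : ℝ)) := by
    intro T hT D H hH hD
    refine (htsm0 T hT D H hH hD).trans ?_
    have hT0' : 0 < T := by linarith
    have hlog : 0 ≤ Real.log T := Real.log_nonneg (by linarith)
    have h1 : (1 : ℝ) + 1 / 2000 ≤ 1 + a / 1000 := by linarith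
    refine mul_le_mul_of_nonneg_left ?_ hT0'.le
    gcongr
  have hY1 : 1 ≤ Y := (le_max_left _ _).trans hY
  have hYC : C / 160 ≤ Y := ((le_max_left _ _).trans (le_max_right _ _)).trans hY
  have hYT : Real.log T0 ≤ Y := ((le_max_right _ _).trans (le_max_right _ _)).trans hY
  have hY0 : 0 < Y := by linarith
  have hCY : C ≤ 320 * a * Y := by
    rw [div_le_iff₀ (by positivity)] at hYC
    have : 160 * Y ≤ 320 * a * Y := by gcongr; linarith
    linarith
  set T := Real.exp (640000 * Y) with hT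
  have hTpos : 0 < T := Real.exp_pos _
  have hTT0 : T0 ≤ T := by
    rw [← Real.log_le_iff_le_exp (by linarith)]
    linarith
  have hlogT : Real.log T = 640000 * Y := by rw [hT, Real.log_exp]
  have hT16 : T ^ (1 / 16 : ℝ) = Real.exp (40000 * Y) := by
    rw [hT, ← Real.exp_mul]; congr 1; ring
  set P := P0 a Y J with hP
  have hP0 : 0 < P := P0_pos a Y J
  set B := (1 + a / 1000) * (640000 * Y + (16000 * Y + 26 * a * (Y + 2))) + C with hB
  have hB0 : 0 ≤ B := by positivity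
  set E := C * Real.exp (6 - 7998 * Y) with hE
  have hE0 : 0 ≤ E := by positivity
  -- error term for a polynomial
  have herr : ∀ D : DP, nrm D ≤ Real.exp (J + 8000 * Y) →
      C * (nrm D * Real.exp (8000 * Y)) ^ 2 / T ^ (1 / 16 : ℝ) ≤ E := by
    intro D hD
    rw [hT16, hE, div_le_iff₀ (Real.exp_pos _), mul_assoc, ← Real.exp_add]
    have h1 : (nrm D * Real.exp (8000 * Y)) ^ 2 ≤ Real.exp (6 - 7998 * Y + 40000 * Y) := by
      calc (nrm D * Real.exp (8000 * Y)) ^ 2 ≤ (Real.exp (J + 8000 * Y) * Real.exp (8000 * Y)) ^ 2 := by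
            have := nrm_nonneg D
            gcongr
        _ = Real.exp (2 * (J + 16000 * Y)) := by
            rw [← Real.exp_add, ← Real.exp_nat_mul]; congr 1; push_cast; ring
        _ ≤ _ := by
            apply Real.exp_le_exp.mpr
            linarith
    gcongr
  have ha1 : |(-a)| ≤ 1 := by rw [abs_neg, abs_of_pos ha0]; exact ha
  have hH1 : (1 : ℝ) ≤ Real.exp (8000 * Y) := Real.one_le_exp (by positivity)
  -- first polynomial
  have hI0 : ∫ t in (0 : ℝ)..T, ‖riemannZeta (1 / 2 + I * t) * ev t (D0 (-a) (Sc Y) J)‖ ^ 2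
      ≤ T * (((1 + a / 1000) * (640000 * Y + 26 * a * (Y + 2)) + C) * P + E) := by
    have hsup : Sup (Len (8000 * Y)) (D0 (-a) (Sc Y) J) :=
      (dom_D0 ha1 J).sup (cone_D0 hY0 zero_le_one J)
    refine (htsm T hTT0 (D0 (-a) (Sc Y) J) (Real.exp (8000 * Y)) hH1 (sup_len_floor hsup)).trans ?_
    obtain ⟨b1, b2⟩ := D0_bounds hY0 ha0.le ha J
    have b3 := herr (D0 (-a) (Sc Y) J) ((nrm_le_aug (dom_D0 ha1 J)).trans (aug_D0 hY0 J))
    rw [hlogT]
    refine mul_le_mul_of_nonneg_left ?_ hTpos.le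
    calc (1 + a / 1000) * (640000 * Y * |BK K2 (D0 (-a) (Sc Y) J) (D0 (-a) (Sc Y) J)|
          + |BK KL (D0 (-a) (Sc Y) J) (D0 (-a) (Sc Y) J)|) + C * |BK K2 (D0 (-a) (Sc Y) J) (D0 (-a) (Sc Y) J)|
          + C * (nrm (D0 (-a) (Sc Y) J) * Real.exp (8000 * Y)) ^ 2 / T ^ (1 / 16 : ℝ)
        ≤ (1 + a / 1000) * (640000 * Y * P + (26 * a * (Y + 2)) * P) + C * P + E := by
          gcongr
      _ = _ := by ring
  -- the reset polynomials
  set W : ℕ → ℝ := fun j => (24 * Mj j : ℝ) ^ Mj j * Real.exp (12 * (j + 1)) with hW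
  have hI1 : ∀ j ∈ Finset.range J,
      (∫ t in (0 : ℝ)..T, ‖riemannZeta (1 / 2 + I * t) * ev t (D1 (-a) (Sc Y) J j)‖ ^ 2) / T
      ≤ B * (W j * P) + E := by
    intro j hj
    rw [Finset.mem_range] at hj
    rw [div_le_iff₀ hTpos]
    have hsup : Sup (Len (8000 * Y)) (D1 (-a) (Sc Y) J j) :=
      (dom_D1 ha1 J j).sup (cone_D1 hY0 zero_le_one hj)
    refine (htsm T hTT0 (D1 (-a) (Sc Y) J j) (Real.exp (8000 * Y)) hH1 (sup_len_floor hsup)).trans ?_
    obtain ⟨b1, b2⟩ := D1_bounds hY0 ha0.le ha hj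
    have b3 := herr (D1 (-a) (Sc Y) J j) ((nrm_le_aug (dom_D1 ha1 J j)).trans (aug_D1 hY0 hj))
    have hWe : (24 * Mj j : ℝ) ^ Mj j * (Real.exp (12 * (j + 1)) * P) = W j * P := by
      rw [hW]; ring
    rw [← hP, hWe] at b1 b2
    have hWP : 0 ≤ W j * P := by
      have : 0 ≤ W j := by rw [hW]; positivity
      positivity
    rw [hlogT, mul_comm _ T]
    refine mul_le_mul_of_nonneg_left ?_ hTpos.le
    calc (1 + a / 1000) * (640000 * Y * |BK K2 (D1 (-a) (Sc Y) J j) (D1 (-a) (Sc Y) J j)|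
          + |BK KL (D1 (-a) (Sc Y) J j) (D1 (-a) (Sc Y) J j)|)
          + C * |BK K2 (D1 (-a) (Sc Y) J j) (D1 (-a) (Sc Y) J j)|
          + C * (nrm (D1 (-a) (Sc Y) J j) * Real.exp (8000 * Y)) ^ 2 / T ^ (1 / 16 : ℝ)
        ≤ (1 + a / 1000) * (640000 * Y * (W j * P) + (16000 * Y + 26 * a * (Y + 2)) * (W j * P))
          + C * (W j * P) + E := by
          gcongr
      _ = _ := by rw [hB]; ring
  -- expansion
  have hexp : ∀ t : ℝ, ‖riemannZeta (1 / 2 + I * t)‖ ^ 2
        * up (-a) Mj Rj (fun j => ev t (PP (Sc Y j))) J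
      = ‖riemannZeta (1 / 2 + I * t) * ev t (D0 (-a) (Sc Y) J)‖ ^ 2
        + ∑ j ∈ Finset.range J, qj (-a) j * ‖riemannZeta (1 / 2 + I * t) * ev t (D1 (-a) (Sc Y) J j)‖ ^ 2 := by
    intro t
    rw [up_eq, mul_add, norm_mul, mul_pow, Finset.mul_sum]
    congr 1
    refine Finset.sum_congr rfl fun j _ => ?_
    rw [norm_mul, mul_pow]
    ring
  simp_rw [hexp]
  have i0 : IntervalIntegrable
      (fun t : ℝ => ‖riemannZeta (1 / 2 + I * t) * ev t (D0 (-a) (Sc Y) J)‖ ^ 2) volume 0 T :=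
    (continuous_zeta_ev _).intervalIntegrable _ _
  have i1 : ∀ j ∈ Finset.range J, IntervalIntegrable
      (fun t : ℝ => qj (-a) j * ‖riemannZeta (1 / 2 + I * t) * ev t (D1 (-a) (Sc Y) J j)‖ ^ 2) volume 0 T :=
    fun j _ => Continuous.intervalIntegrable (continuous_const.mul (continuous_zeta_ev _)) _ _
  have i2 : IntervalIntegrable (fun t : ℝ => ∑ j ∈ Finset.range J,
      qj (-a) j * ‖riemannZeta (1 / 2 + I * t) * ev t (D1 (-a) (Sc Y) J j)‖ ^ 2) volume 0 T := by
    refine Continuous.intervalIntegrable (continuous_finsetSum _ fun j _ => ?_) _ _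
    exact continuous_const.mul (continuous_zeta_ev _)
  rw [intervalIntegral.integral_add i0 i2, intervalIntegral.integral_finsetSum i1]
  simp_rw [intervalIntegral.integral_const_mul]
  have hsum := sum_bound (J := J) (q := qj (-a)) (W := W) (h := fun j => (1 / 2 : ℝ) ^ (j + 21))
    (X := fun j => (∫ t in (0 : ℝ)..T, ‖riemannZeta (1 / 2 + I * t) * ev t (D1 (-a) (Sc Y) J j)‖ ^ 2) / T)
    (a := a) (P := P) (B := B) (E := E) (qj_nonneg _) hB0 hP0.le hE0 (fun j => qj_weight ha0.le j)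
    (fun j => qj_le ha0.le j) (sum_half21 J) ha0.le hI1
  have hsum2 : ∑ j ∈ Finset.range J, qj (-a) j *
      (∫ t in (0 : ℝ)..T, ‖riemannZeta (1 / 2 + I * t) * ev t (D1 (-a) (Sc Y) J j)‖ ^ 2)
      ≤ T * (a * (1 / 1000000) * (B * P + E)) := by
    have e1 : ∑ j ∈ Finset.range J, qj (-a) j *
        (∫ t in (0 : ℝ)..T, ‖riemannZeta (1 / 2 + I * t) * ev t (D1 (-a) (Sc Y) J j)‖ ^ 2)
        = T * ∑ j ∈ Finset.range J, qj (-a) j *
        ((∫ t in (0 : ℝ)..T, ‖riemannZeta (1 / 2 + I * t) * ev t (D1 (-a) (Sc Y) J j)‖ ^ 2) / T) := by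
      rw [Finset.mul_sum]
      refine Finset.sum_congr rfl fun j _ => ?_
      field_simp
    rw [e1]
    exact mul_le_mul_of_nonneg_left hsum hTpos.le
  refine (add_le_add hI0 hsum2).trans ?_
  rw [← mul_add]
  refine mul_le_mul_of_nonneg_left ?_ hTpos.le
  -- numerical part
  have hE1 : E ≤ 0.001 * a * (640000 * Y) * P := by
    have h1 : Real.exp (6 - 7998 * Y) ≤ P := by
      rw [hP]
      unfold P0
      apply Real.exp_le_exp.mpr
      have h2 := Vt_le hY0 J
      have h3 := Vt_nonneg Y J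
      have h5 : -(1 : ℝ) ≤ a ^ 2 - 2 * a := by
        have h6 : 0 ≤ (a - 1) ^ 2 := sq_nonneg _
        have h7 : (a - 1) ^ 2 = a ^ 2 - 2 * a + 1 := by ring
        linarith only [h6, h7]
      have h6 := mul_le_mul_of_nonneg_right h5 h3
      linarith
    calc E ≤ (320 * a * Y) * P := by
          rw [hE]; gcongr
      _ ≤ _ := by
          have : 0 ≤ a * Y * P := by positivity
          linarith
  have hB1 : (1 + a / 1000) * (640000 * Y + 26 * a * (Y + 2)) + C ≤ 640000 * Y * (1 + 0.002 * a) :=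
    numX1 ha0.le ha hY1 hCY
  have hB2 : B ≤ 1280000 * Y := numX2 ha0.le ha hY1 hCY
  have hfin : ((1 + a / 1000) * (640000 * Y + 26 * a * (Y + 2)) + C) * P + E
      + a * (1 / 1000000) * (B * P + E) ≤ 640000 * Y * P * (1 + 0.004 * a) := by
    have c1 : ((1 + a / 1000) * (640000 * Y + 26 * a * (Y + 2)) + C) * P
        ≤ 640000 * Y * (1 + 0.002 * a) * P := by gcongr
    have c2 : B * P ≤ 1280000 * Y * P := by gcongr
    have hYP : 0 ≤ Y * P := by positivity
    have haYP : 0 ≤ a * (Y * P) := by positivity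
    have c3 : E ≤ 640 * (Y * P) := by
      refine hE1.trans ?_
      have : a * (Y * P) ≤ 1 * (Y * P) := by gcongr
      linarith
    have c4 : B * P + E ≤ 1280640 * (Y * P) := by linarith
    have c5 : a * (1 / 1000000) * (B * P + E) ≤ a * (1 / 1000000) * (1280640 * (Y * P)) := by gcongr
    linarith
  refine hfin.trans ?_
  have h4 : 1 + 0.004 * a ≤ Real.exp (0.004 * a) := by
    have := Real.add_one_le_exp (0.004 * a)
    linarith
  calc 640000 * Y * P * (1 + 0.004 * a) ≤ 640000 * Y * P * Real.exp (0.004 * a) := by gcongr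
    _ = 640000 * Y * (P * Real.exp (0.004 * a)) := by ring
    _ ≤ _ := by
        refine mul_le_mul_of_nonneg_left ?_ (by positivity)
        rw [hP]
        unfold P0
        rw [← Real.exp_add]
        apply Real.exp_le_exp.mpr
        linarith

theorem meanY_unif (η : ℝ) (hη : 0 < η) (hη1 : η ≤ 1) : ∃ Y0 : ℝ, 1 ≤ Y0 ∧ ∀ k : ℝ, 0 < k → k ≤ 1 →
    ∀ Y : ℝ, Y0 ≤ Y → ∀ J : ℕ, (J : ℝ) ≤ Y + 3 →
    ∫ t in (0 : ℝ)..Real.exp (640000 * Y), up k Mj Rj (fun j => ev t (PP (Sc Y j))) J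
      ≤ Real.exp (640000 * Y) * Real.exp (k ^ 2 * Vt Y J + 0.01 * k + η) := by
  refine ⟨max 1 (Real.log (1000 / η)), le_max_left _ _, ?_⟩
  intro k hk0 hk Y hY J hJ
  have hY1 : 1 ≤ Y := (le_max_left _ _).trans hY
  have hYk : Real.log (1000 / η) ≤ Y := (le_max_right _ _).trans hY
  have hY0 : 0 < Y := by linarith
  set T := Real.exp (640000 * Y) with hT
  have hTpos : 0 < T := Real.exp_pos _
  set Q := Real.exp (k ^ 2 * Vt Y J) with hQ
  have hVt := Vt_nonneg Y J
  have hQ1 : 1 ≤ Q := Real.one_le_exp (by positivity)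
  have hkabs : |k| ≤ 1 := by rw [abs_of_pos hk0]; exact hk
  set E := Real.exp (-Y) with hE
  have hE0 : 0 < E := Real.exp_pos _
  have hEk : E ≤ η / 1000 := by
    rw [hE, Real.exp_neg]
    have h1 : 1000 / η ≤ Real.exp Y := by
      rw [← Real.log_le_iff_le_exp (by positivity)]
      exact hYk
    have h2 : (Real.exp Y)⁻¹ ≤ (1000 / η)⁻¹ := inv_anti₀ (by positivity) h1
    rwa [inv_div] at h2
  have herr : 4 * Real.exp (8000 * Y) * Real.exp (J + 8000 * Y) ^ 2 ≤ T * E := by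
    have h1 : (4 : ℝ) ≤ Real.exp 2 := by
      have := Real.quadratic_le_exp_of_nonneg (zero_le_two (α := ℝ))
      linarith
    calc 4 * Real.exp (8000 * Y) * Real.exp (J + 8000 * Y) ^ 2
        ≤ Real.exp 2 * Real.exp (8000 * Y) * Real.exp (J + 8000 * Y) ^ 2 := by gcongr
      _ = Real.exp (2 + 8000 * Y + 2 * (J + 8000 * Y)) := by
          rw [← Real.exp_nat_mul, ← Real.exp_add, ← Real.exp_add]
          congr 1
      _ ≤ Real.exp (640000 * Y + -Y) := by
          apply Real.exp_le_exp.mpr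
          linarith
      _ = T * E := by rw [hT, hE, ← Real.exp_add]
  have hI0 : ∫ t in (0 : ℝ)..T, ‖ev t (D0 k (Sc Y) J)‖ ^ 2 ≤ T * (Q + E) := by
    have h1 := mean_ev hTpos (cone_D0 hY0 hk0.le J)
      (B := Real.exp (J + 8000 * Y)) ((le_abs_self _).trans ?_)
    · have h2 := K1_D0 hY0 hk0.le J
      calc _ ≤ T * BK K1 (D0 k (Sc Y) J) (D0 k (Sc Y) J)
            + 4 * Real.exp (8000 * Y) * Real.exp (J + 8000 * Y) ^ 2 := h1
        _ ≤ T * Q + T * E := by gcongr
        _ = _ := by ring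
    · refine le_trans ?_ (aug_D0 hY0 J)
      exact abs_pair_le (dom_D0 hkabs J) (fun _ => by simp)
  set W : ℕ → ℝ := fun j => (24 * Mj j : ℝ) ^ Mj j * Real.exp (12 * (j + 1)) with hW
  have hI1 : ∀ j ∈ Finset.range J,
      (∫ t in (0 : ℝ)..T, ‖ev t (D1 k (Sc Y) J j)‖ ^ 2) / T ≤ 1 * (W j * Q) + E := by
    intro j hj
    rw [Finset.mem_range] at hj
    rw [div_le_iff₀ hTpos]
    have h1 := mean_ev hTpos (cone_D1 hY0 hk0.le hj)
      (B := Real.exp (J + 8000 * Y)) ((le_abs_self _).trans ?_)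
    · have h2 := K1_D1 hY0 hk0.le hj
      rw [← hQ] at h2
      have h3 : (24 * Mj j : ℝ) ^ Mj j ≤ W j := by
        rw [hW]
        exact le_mul_of_one_le_right (by positivity) (Real.one_le_exp (by positivity))
      have h4 : BK K1 (D1 k (Sc Y) J j) (D1 k (Sc Y) J j) ≤ W j * Q := h2.trans (by gcongr)
      calc _ ≤ T * BK K1 (D1 k (Sc Y) J j) (D1 k (Sc Y) J j)
            + 4 * Real.exp (8000 * Y) * Real.exp (J + 8000 * Y) ^ 2 := h1
        _ ≤ T * (W j * Q) + T * E := by gcongr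
        _ = _ := by ring
    · refine le_trans ?_ (aug_D1 hY0 hj)
      exact abs_pair_le (dom_D1 hkabs J j) (fun _ => by simp)
  simp_rw [up_eq]
  have hcont : ∀ D : DP, Continuous (fun t : ℝ => ‖ev t D‖ ^ 2) := fun D => (continuous_ev D).norm.pow 2
  have i0 : IntervalIntegrable (fun t : ℝ => ‖ev t (D0 k (Sc Y) J)‖ ^ 2) volume 0 T :=
    (hcont _).intervalIntegrable _ _
  have i1 : ∀ j ∈ Finset.range J, IntervalIntegrable
      (fun t : ℝ => qj k j * ‖ev t (D1 k (Sc Y) J j)‖ ^ 2) volume 0 T :=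
    fun j _ => Continuous.intervalIntegrable (continuous_const.mul (hcont _)) _ _
  have i2 : IntervalIntegrable (fun t : ℝ => ∑ j ∈ Finset.range J,
      qj k j * ‖ev t (D1 k (Sc Y) J j)‖ ^ 2) volume 0 T := by
    refine Continuous.intervalIntegrable (continuous_finsetSum _ fun j _ => ?_) _ _
    exact continuous_const.mul (hcont _)
  rw [intervalIntegral.integral_add i0 i2, intervalIntegral.integral_finsetSum i1]
  simp_rw [intervalIntegral.integral_const_mul]
  have hsum := sum_bound (J := J) (q := qj k) (W := W) (h := fun j => (1 / 2 : ℝ) ^ (j + 21))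
    (X := fun j => (∫ t in (0 : ℝ)..T, ‖ev t (D1 k (Sc Y) J j)‖ ^ 2) / T)
    (a := k) (P := Q) (B := 1) (E := E) (qj_nonneg _) zero_le_one (by positivity) hE0.le
    (fun j => by rw [qj_eq_neg]; exact qj_weight hk0.le j)
    (fun j => by rw [qj_eq_neg]; exact qj_le hk0.le j) (sum_half21 J) hk0.le hI1
  have hsum2 : ∑ j ∈ Finset.range J, qj k j * (∫ t in (0 : ℝ)..T, ‖ev t (D1 k (Sc Y) J j)‖ ^ 2)
      ≤ T * (k * (1 / 1000000) * (1 * Q + E)) := by
    have e1 : ∑ j ∈ Finset.range J, qj k j * (∫ t in (0 : ℝ)..T, ‖ev t (D1 k (Sc Y) J j)‖ ^ 2)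
        = T * ∑ j ∈ Finset.range J, qj k j *
        ((∫ t in (0 : ℝ)..T, ‖ev t (D1 k (Sc Y) J j)‖ ^ 2) / T) := by
      rw [Finset.mul_sum]
      refine Finset.sum_congr rfl fun j _ => ?_
      field_simp
    rw [e1]
    exact mul_le_mul_of_nonneg_left hsum hTpos.le
  refine (add_le_add hI0 hsum2).trans ?_
  rw [← mul_add]
  refine mul_le_mul_of_nonneg_left ?_ hTpos.le
  have h1 : E ≤ η / 1000 * Q := by
    calc E ≤ η / 1000 * 1 := by linarith
      _ ≤ _ := by gcongr
  have h2 : η / 1000 * Q ≤ 1 * Q := by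
    refine mul_le_mul_of_nonneg_right ?_ (by positivity)
    linarith
  have h3 : k * (1 / 1000000) * (1 * Q + E) ≤ k * (1 / 1000000) * (2 * Q) := by
    refine mul_le_mul_of_nonneg_left ?_ (by positivity)
    linarith
  have h4 : 1 + (0.01 * k + η) ≤ Real.exp (0.01 * k + η) := by
    have := Real.add_one_le_exp (0.01 * k + η)
    linarith
  rw [show k ^ 2 * Vt Y J + 0.01 * k + η = k ^ 2 * Vt Y J + (0.01 * k + η) by ring, Real.exp_add, ← hQ]
  calc Q + E + k * (1 / 1000000) * (1 * Q + E) ≤ Q * (1 + (0.01 * k + η)) := by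
        have h5 : 0 ≤ k * Q := by positivity
        have h6 : 0 ≤ η * Q := by positivity
        linarith
    _ ≤ _ := by gcongr

/-- the moment over `[0,T]` at the special points, uniformly in the exponent -/
theorem moment_Y_unif (η : ℝ) (hη : 0 < η) (hη1 : η ≤ 1) :
    ∃ Y0 : ℝ, 1 ≤ Y0 ∧ ∀ a k : ℝ, 1 / 2 ≤ a → 0 < k → a + k = 1 → ∀ Y : ℝ, Y0 ≤ Y →
    ∫ t in (0 : ℝ)..Real.exp (640000 * Y), ‖riemannZeta (1 / 2 + I * t)‖ ^ (2 * k)
      ≤ Real.exp (640000 * Y) * ((640000 * Y) ^ (k ^ 2) * Real.exp (19.5 * (k * a) + η)) := by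
  obtain ⟨Y1, hY1, hX⟩ := meanX_unif
  obtain ⟨Y2, hY2, hV⟩ := meanY_unif η hη hη1
  refine ⟨max Y1 Y2, le_max_of_le_left hY1, ?_⟩
  intro a k ha2 hk hak Y hY
  have ha : 0 < a := by linarith
  have hYa : Y1 ≤ Y := (le_max_left _ _).trans hY
  have hYb : Y2 ≤ Y := (le_max_right _ _).trans hY
  have hYone : 1 ≤ Y := hY1.trans hYa
  have hY0 : 0 < Y := by linarith
  set J := ⌈Y⌉₊ + 1 with hJ
  have hJY : (J : ℝ) ≤ Y + 3 := by
    rw [hJ]
    push_cast
    have := (Nat.ceil_lt_add_one hY0.le).le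
    linarith
  have h1 := hX a ha2 (by linarith) Y hYa J hJY
  have h2 := hV k hk (by linarith) Y hYb J hJY
  set T := Real.exp (640000 * Y) with hT
  have hTpos : 0 < T := Real.exp_pos _
  set V := Vt Y J with hVdef
  set X0 := 640000 * Y * Real.exp ((a ^ 2 - 2 * a) * V + 3.41 * a) with hX0
  set Z0 := Real.exp (k ^ 2 * V + 0.01 * k + η) with hZ0
  have hX0pos : 0 < X0 := by positivity
  have hZ0pos : 0 < Z0 := Real.exp_pos _
  set F : ℝ → ℝ := fun t => ‖riemannZeta (1 / 2 + I * t)‖ with hF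
  set u1 : ℝ → ℝ := fun t => F t ^ 2 * up (-a) Mj Rj (fun j => ev t (PP (Sc Y j))) J with hu1
  set u2 : ℝ → ℝ := fun t => up k Mj Rj (fun j => ev t (PP (Sc Y j))) J with hu2
  have hFc : Continuous F := continuous_zeta.norm
  have hu1c : Continuous u1 := (hFc.pow 2).mul (continuous_up _ _ _)
  have hu2c : Continuous u2 := continuous_up _ _ _
  set c0 := Real.exp (8 * k * a * ∑ i ∈ Finset.range J, dl (Mj i)) with hc0
  set K0 := c0 * (X0 ^ k * Z0 ^ a) with hK0
  have hK00 : 0 ≤ K0 := by positivity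
  have hpt : ∀ t : ℝ, F t ^ (2 * k) ≤ K0 * (k * (u1 t / X0) + a * (u2 t / Z0)) := by
    intro t
    have hF0 : 0 ≤ F t := norm_nonneg _
    have g1 := one_le_up ha.le hk.le hak (fun j => ev t (PP (Sc Y j)))
      (fun j => by have := Mj_ge j; omega) (fun j => by linarith [Rj_ge j]) Rj_le sum_Rj J
    have hn1 := up_nonneg (-a) (fun j => ev t (PP (Sc Y j))) J
    have hn2 := up_nonneg k (fun j => ev t (PP (Sc Y j))) J
    have g2 : F t ^ (2 * k) = (F t ^ 2) ^ k := by
      rw [← Real.rpow_natCast, ← Real.rpow_mul hF0]; norm_num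
    have g3 : u1 t ^ k = (F t ^ 2) ^ k * up (-a) Mj Rj (fun j => ev t (PP (Sc Y j))) J ^ k :=
      Real.mul_rpow (by positivity) hn1
    have g4 := amgm ha.le hk.le hak (u := u1 t) (v := u2 t) (mul_nonneg (by positivity) hn1) hn2
      hX0pos hZ0pos
    calc F t ^ (2 * k) = (F t ^ 2) ^ k * 1 := by rw [g2, mul_one]
      _ ≤ (F t ^ 2) ^ k * (c0 * (up (-a) Mj Rj (fun j => ev t (PP (Sc Y j))) J ^ k
            * up k Mj Rj (fun j => ev t (PP (Sc Y j))) J ^ a)) := by
          refine mul_le_mul_of_nonneg_left g1 (by positivity)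
      _ = c0 * (u1 t ^ k * u2 t ^ a) := by rw [g3]; ring
      _ ≤ c0 * (X0 ^ k * Z0 ^ a * (k * (u1 t / X0) + a * (u2 t / Z0))) := by
          refine mul_le_mul_of_nonneg_left g4 (Real.exp_pos _).le
      _ = _ := by rw [hK0]; ring
  have hint : ∫ t in (0 : ℝ)..T, F t ^ (2 * k)
      ≤ K0 * (k * ((∫ t in (0 : ℝ)..T, u1 t) / X0) + a * ((∫ t in (0 : ℝ)..T, u2 t) / Z0)) := by
    have i1 : IntervalIntegrable (fun t => F t ^ (2 * k)) volume 0 T :=
      (hFc.rpow_const fun _ => Or.inr (by positivity)).intervalIntegrable _ _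
    have i2 : IntervalIntegrable (fun t => K0 * (k * (u1 t / X0) + a * (u2 t / Z0))) volume 0 T := by
      refine Continuous.intervalIntegrable ?_ _ _
      fun_prop
    refine (intervalIntegral.integral_mono_on hTpos.le i1 i2 fun t _ => hpt t).trans (le_of_eq ?_)
    rw [intervalIntegral.integral_const_mul, intervalIntegral.integral_add,
      intervalIntegral.integral_const_mul, intervalIntegral.integral_const_mul,
      intervalIntegral.integral_div, intervalIntegral.integral_div]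
    · exact Continuous.intervalIntegrable (by fun_prop) _ _
    · exact Continuous.intervalIntegrable (by fun_prop) _ _
  refine hint.trans ?_
  have h3 : (∫ t in (0 : ℝ)..T, u1 t) / X0 ≤ T := by
    rw [div_le_iff₀ hX0pos]; exact h1
  have h4 : (∫ t in (0 : ℝ)..T, u2 t) / Z0 ≤ T := by
    rw [div_le_iff₀ hZ0pos]; exact h2
  have h5 : K0 * (k * ((∫ t in (0 : ℝ)..T, u1 t) / X0) + a * ((∫ t in (0 : ℝ)..T, u2 t) / Z0))
      ≤ K0 * (k * T + a * T) := by gcongr
  refine h5.trans ?_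
  have h6 : K0 * (k * T + a * T) = T * K0 := by
    have : k * T + a * T = T := by rw [← add_mul]; rw [add_comm k a, hak, one_mul]
    rw [this]; ring
  rw [h6]
  refine mul_le_mul_of_nonneg_left ?_ hTpos.le
  -- the constant
  set L := 640000 * Y with hL
  have hL0 : 0 < L := by positivity
  have hVge : Real.log Y - 2 ≤ V := Vt_ge hYone
  have hlog : Real.log L ≤ Real.log Y + 13.87 := by
    rw [hL, Real.log_mul (by norm_num) hY0.ne']
    have h7 : Real.log 640000 ≤ Real.log (2 ^ 20) := by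
      apply Real.log_le_log (by norm_num); norm_num
    rw [Real.log_pow] at h7
    have h8 := Real.log_two_lt_d9
    push_cast at h7
    linarith
  have hX0k : X0 ^ k = L ^ k * Real.exp (k * ((a ^ 2 - 2 * a) * V + 3.41 * a)) := by
    rw [hX0, Real.mul_rpow hL0.le (Real.exp_pos _).le, ← Real.exp_mul]
    congr 2; ring
  have hZ0a : Z0 ^ a = Real.exp (a * (k ^ 2 * V + 0.01 * k + η)) := by
    rw [hZ0, ← Real.exp_mul]; congr 1; ring
  have hLk : L ^ k = Real.exp (k * Real.log L) := by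
    rw [Real.rpow_def_of_pos hL0]; congr 1; ring
  have hLk2 : L ^ (k ^ 2) = Real.exp (k ^ 2 * Real.log L) := by
    rw [Real.rpow_def_of_pos hL0]; congr 1; ring
  rw [hK0, hX0k, hZ0a, hLk, hLk2, hc0, ← Real.exp_add, ← Real.exp_add, ← Real.exp_add, ← Real.exp_add]
  apply Real.exp_le_exp.mpr
  have hd := sum_dl J
  have hka : 0 ≤ k * a := by positivity
  have e1 : 8 * k * a * ∑ i ∈ Finset.range J, dl (Mj i) ≤ 0.01 * (k * a) := by
    have : 8 * k * a * ∑ i ∈ Finset.range J, dl (Mj i)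
        = 8 * (k * a) * ∑ i ∈ Finset.range J, dl (Mj i) := by ring
    rw [this]
    calc 8 * (k * a) * ∑ i ∈ Finset.range J, dl (Mj i) ≤ 8 * (k * a) * (1 / 1000000) := by gcongr
      _ ≤ _ := by linarith
  have hk1 : k = 1 - a := by linarith
  have e2 : k * ((a ^ 2 - 2 * a) * V + 3.41 * a) + a * (k ^ 2 * V + 0.01 * k + η)
      = -(k * a) * V + 3.42 * (k * a) + a * η := by
    rw [hk1]; ring
  have e5 : a * η ≤ 1 * η := by
    refine mul_le_mul_of_nonneg_right ?_ hη.le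
    linarith
  have e3 : -(k * a) * V ≤ -(k * a) * (Real.log L - 15.87) := by
    have h9 : Real.log L - 15.87 ≤ V := by linarith
    have h10 := mul_le_mul_of_nonneg_left h9 hka
    have h11 : -(k * a) * V = -(k * a * V) := by ring
    have h12 : -(k * a) * (Real.log L - 15.87) = -(k * a * (Real.log L - 15.87)) := by ring
    rw [h11, h12]
    exact neg_le_neg h10
  have e4 : k * Real.log L - k ^ 2 * Real.log L = (k * a) * Real.log L := by
    rw [hk1]; ring
  linarith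

/-- **Uniform upper bound** for the moments with small exponents. -/
theorem upper_uniform (x ε : ℝ) (hε : 0 < ε) : ∃ β0 : ℝ, 0 < β0 ∧ ∃ T0 : ℝ, ∀ β : ℝ, 0 < β → β ≤ β0 →
    ∀ T : ℝ, T0 ≤ T → mom β x T ≤ (1 + ε) * Real.log T ^ (β ^ 2 / 4) := by
  have hlε : 0 < Real.log (1 + ε / 2) := Real.log_pos (by linarith)
  set η := min 1 (Real.log (1 + ε / 2) / 2) with hη
  have hη0 : 0 < η := lt_min one_pos (by positivity)
  have hη1 : η ≤ 1 := min_le_left _ _
  have hη2 : 2 * η ≤ Real.log (1 + ε / 2) := by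
    have : η ≤ Real.log (1 + ε / 2) / 2 := min_le_right _ _
    linarith
  obtain ⟨Y0, hY0, h⟩ := moment_Y_unif η hη0 hη1
  set A := ∫ t in (-|x|)..0, (1 + ‖riemannZeta (1 / 2 + I * t)‖ ^ 2) with hA
  set c1 := Real.exp (2 * η) with hc1
  have hc12 : c1 < 1 + ε := by
    have : c1 ≤ 1 + ε / 2 := by
      rw [hc1, ← Real.le_log_iff_exp_le (by linarith)]
      exact hη2
    linarith
  have hlim : Tendsto (fun T : ℝ => A * T⁻¹ + (1 + |x| * T⁻¹) ^ 2 * c1) atTop
      (𝓝 (A * 0 + (1 + |x| * 0) ^ 2 * c1)) := by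
    have h0 := tendsto_inv_atTop_zero (𝕜 := ℝ)
    exact (h0.const_mul A).add ((((h0.const_mul |x|).const_add 1).pow 2).mul_const c1)
  simp only [mul_zero, zero_add, add_zero, one_pow, one_mul] at hlim
  have hev := (hlim.eventually (gt_mem_nhds hc12)).and
    ((eventually_ge_atTop (Real.exp (640000 * Y0))).and (eventually_ge_atTop (Real.exp 1)))
  obtain ⟨T0, hT0⟩ := Filter.eventually_atTop.mp hev
  refine ⟨min 1 (η / 10), lt_min one_pos (by positivity), T0, ?_⟩
  intro β hβ0 hββ T hT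
  obtain ⟨hT1, hT2, hTe⟩ := hT0 T hT
  have hβ1 : β ≤ 1 := hββ.trans (min_le_left _ _)
  have hβη : β ≤ η / 10 := hββ.trans (min_le_right _ _)
  set k := β / 2 with hk
  set a := 1 - k with ha
  have hk0 : 0 < k := by positivity
  have ha0 : 1 / 2 ≤ a := by rw [ha, hk]; linarith
  have hβk : β = 2 * k := by rw [hk]; ring
  set F : ℝ → ℝ := fun t => ‖riemannZeta (1 / 2 + I * t)‖ ^ β with hF
  have hFc : Continuous F := continuous_zeta.norm.rpow_const fun _ => Or.inr hβ0.le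
  have hF0 : ∀ t, 0 ≤ F t := fun t => by rw [hF]; positivity
  set A0 := ∫ t in (-|x|)..0, F t with hA0
  have hA00 : 0 ≤ A0 := intervalIntegral.integral_nonneg (by simp) fun t _ => hF0 t
  have hA0A : A0 ≤ A := by
    refine intervalIntegral.integral_mono_on (by simp) (hFc.intervalIntegrable _ _)
      ((continuous_const.add (continuous_zeta.norm.pow 2)).intervalIntegrable _ _) fun t _ => ?_
    rw [hF]
    dsimp only
    rcases le_total (‖riemannZeta (1 / 2 + I * t)‖) 1 with h1 | h1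
    · have h2 : ‖riemannZeta (1 / 2 + I * t)‖ ^ β ≤ 1 := Real.rpow_le_one (norm_nonneg _) h1 hβ0.le
      have h3 : 0 ≤ ‖riemannZeta (1 / 2 + I * t)‖ ^ 2 := by positivity
      linarith
    · have h2 : ‖riemannZeta (1 / 2 + I * t)‖ ^ β ≤ ‖riemannZeta (1 / 2 + I * t)‖ ^ (2 : ℝ) :=
        Real.rpow_le_rpow_of_exponent_le h1 (by linarith)
      rw [Real.rpow_two] at h2
      linarith
  have hTpos : 0 < T := (Real.exp_pos _).trans_le hTe
  have hlogT : 1 ≤ Real.log T := by rwa [Real.le_log_iff_exp_le hTpos]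
  have hxa : 0 ≤ |x| := abs_nonneg x
  have h1 : mom β x T = (∫ t in x..(x + T), F t) / T := by
    have h2 := intervalIntegral.integral_comp_mul_add (a := 0) (b := 1) F hTpos.ne' x
    simp only [mul_zero, zero_add, mul_one, smul_eq_mul] at h2
    unfold mom
    rw [add_comm T x] at h2
    rw [div_eq_inv_mul (∫ t in x..(x + T), F t) T, ← h2]
    refine intervalIntegral.integral_congr fun u _ => ?_
    simp only [hF]
    congr 3
    push_cast
    ring
  have h2 : ∫ t in x..(x + T), F t ≤ A0 + ∫ t in (0 : ℝ)..(T + |x|), F t := by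
    have h3 : ∫ t in x..(x + T), F t ≤ ∫ t in (-|x|)..(T + |x|), F t := by
      refine intervalIntegral.integral_mono_interval (neg_abs_le x) (by linarith) ?_ ?_ ?_
      · have := le_abs_self x
        linarith
      · exact Eventually.of_forall fun t => hF0 t
      · exact hFc.intervalIntegrable _ _
    refine h3.trans (le_of_eq ?_)
    rw [hA0, intervalIntegral.integral_add_adjacent_intervals (hFc.intervalIntegrable _ _)
      (hFc.intervalIntegrable _ _)]
  have hTx : 0 < T + |x| := by linarith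
  have h3 : ∫ t in (0 : ℝ)..(T + |x|), F t ≤ (T + |x|) * (Real.log (T + |x|) ^ (k ^ 2) * c1) := by
    have g1 : 640000 * Y0 ≤ Real.log (T + |x|) := by
      rw [Real.le_log_iff_exp_le hTx]
      linarith
    have g2 := h a k ha0 hk0 (by rw [ha]; ring) (Real.log (T + |x|) / 640000)
      (by rw [le_div_iff₀ (by norm_num)]; linarith)
    have e1 : 640000 * (Real.log (T + |x|) / 640000) = Real.log (T + |x|) := by ring
    rw [e1, Real.exp_log hTx, ← hβk] at g2
    refine g2.trans ?_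
    have g3 : 19.5 * (k * a) + η ≤ 2 * η := by
      have g4 : k * a ≤ k * 1 := by
        refine mul_le_mul_of_nonneg_left ?_ hk0.le
        rw [ha]; linarith
      have g5 : k = β / 2 := hk
      linarith
    have g6 : Real.exp (19.5 * (k * a) + η) ≤ c1 := Real.exp_le_exp.mpr g3
    have g7 : 0 ≤ Real.log (T + |x|) ^ (k ^ 2) := by
      apply Real.rpow_nonneg
      linarith
    gcongr
  have hlog2 : Real.log (T + |x|) ≤ Real.log T * (1 + |x| * T⁻¹) := by
    have e1 : T + |x| = T * (1 + |x| * T⁻¹) := by field_simp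
    have h4 : 0 < 1 + |x| * T⁻¹ := by positivity
    rw [e1, Real.log_mul hTpos.ne' h4.ne']
    have h5 := Real.log_le_sub_one_of_pos h4
    have h6 : |x| * T⁻¹ ≤ Real.log T * (|x| * T⁻¹) := le_mul_of_one_le_left (by positivity) hlogT
    linarith
  have hk2 : β ^ 2 / 4 = k ^ 2 := by rw [hk]; ring
  rw [hk2]
  have hk21 : k ^ 2 ≤ 1 := by
    have h8 : k ≤ 1 := by linarith
    exact pow_le_one₀ (by linarith) h8
  have h4 : Real.log (T + |x|) ^ (k ^ 2) ≤ Real.log T ^ (k ^ 2) * (1 + |x| * T⁻¹) := by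
    have h5 : 0 ≤ Real.log (T + |x|) := Real.log_nonneg (by
      have := Real.one_le_exp (zero_le_one (α := ℝ))
      linarith)
    calc Real.log (T + |x|) ^ (k ^ 2) ≤ (Real.log T * (1 + |x| * T⁻¹)) ^ (k ^ 2) := by
          gcongr
      _ = Real.log T ^ (k ^ 2) * (1 + |x| * T⁻¹) ^ (k ^ 2) := by
          rw [Real.mul_rpow (by linarith) (by positivity)]
      _ ≤ Real.log T ^ (k ^ 2) * (1 + |x| * T⁻¹) := by
          gcongr
          have h6 : (1 : ℝ) ≤ 1 + |x| * T⁻¹ := by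
            have : 0 ≤ |x| * T⁻¹ := by positivity
            linarith
          calc (1 + |x| * T⁻¹) ^ (k ^ 2) ≤ (1 + |x| * T⁻¹) ^ (1 : ℝ) :=
                Real.rpow_le_rpow_of_exponent_le h6 hk21
            _ = _ := Real.rpow_one _
  have hlk : 1 ≤ Real.log T ^ (k ^ 2) := Real.one_le_rpow hlogT (by positivity)
  rw [h1, div_le_iff₀ hTpos]
  refine h2.trans ?_
  set lk := Real.log T ^ (k ^ 2) with hlkdef
  have h5 : A0 + ∫ t in (0 : ℝ)..(T + |x|), F t
      ≤ T * (lk * (A * T⁻¹ + (1 + |x| * T⁻¹) ^ 2 * c1)) := by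
    have e1 : T * (lk * (A * T⁻¹ + (1 + |x| * T⁻¹) ^ 2 * c1))
        = lk * A + (T + |x|) * ((lk * (1 + |x| * T⁻¹)) * c1) := by
      field_simp
    rw [e1]
    have h6 : A0 ≤ lk * A := hA0A.trans (le_mul_of_one_le_left (hA00.trans hA0A) hlk)
    have h7 : ∫ t in (0 : ℝ)..(T + |x|), F t ≤ (T + |x|) * ((lk * (1 + |x| * T⁻¹)) * c1) := by
      refine h3.trans ?_
      gcongr
    linarith
  refine h5.trans ?_
  have h6 : lk * (A * T⁻¹ + (1 + |x| * T⁻¹) ^ 2 * c1) ≤ lk * (1 + ε) := by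
    gcongr
  calc T * (lk * (A * T⁻¹ + (1 + |x| * T⁻¹) ^ 2 * c1)) ≤ T * (lk * (1 + ε)) := by
        gcongr
    _ = _ := by ring

end Pool.Agent.Lib.MP_f9aece_nt_h5
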