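import Mathlib

/-!
# The logarithmic mean value of the square of the divisor function

`∑_{n ≤ x} d(n)²/n = (log x)⁴/(4π²) + O((1 + log x)³)`, by elementary means.
-/

set_option autoImplicit false

namespace Pool.Agent.Lib.MP_f9aece_nt_h5.D2

open Finset Filter Topology ArithmeticFunction
open scoped ArithmeticFunction.zeta ArithmeticFunction.Moebius ArithmeticFunction.sigma

/-- The logarithmic sum `∑_{n ≤ x} f(n)/n`. -/
noncomputable def S (f : ArithmeticFunction ℝ) (x : ℝ) : ℝ := ∑ n ∈ Ioc 0 ⌊x⌋₊, f n / n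

lemma floor_div (x : ℝ) (m : ℕ) : ⌊x / m⌋₊ = ⌊x⌋₊ / m := Nat.floor_div_natCast x m

/-- `f(n)/n` as an arithmetic function. -/
noncomputable def div1 (f : ArithmeticFunction ℝ) : ArithmeticFunction ℝ := ⟨fun n => f n / n, by simp⟩

lemma div1_apply (f : ArithmeticFunction ℝ) (n : ℕ) : div1 f n = f n / n := rfl

lemma div1_mul (f g : ArithmeticFunction ℝ) : div1 (f * g) = div1 f * div1 g := by
  ext n
  rw [div1_apply, ArithmeticFunction.mul_apply, ArithmeticFunction.mul_apply, Finset.sum_div]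
  refine Finset.sum_congr rfl fun p hp => ?_
  rw [Nat.mem_divisorsAntidiagonal] at hp
  rw [div1_apply, div1_apply, ← hp.1]
  push_cast
  ring

lemma S_mul (f g : ArithmeticFunction ℝ) (x : ℝ) :
    S (f * g) x = ∑ m ∈ Ioc 0 ⌊x⌋₊, g m / m * S f (x / m) := by
  have h1 : S (f * g) x = ∑ n ∈ Ioc 0 ⌊x⌋₊, (div1 g * div1 f) n := by
    rw [mul_comm (div1 g), ← div1_mul]; rfl
  rw [h1, sum_Ioc_mul_eq_sum_sum]
  refine Finset.sum_congr rfl fun m _ => ?_
  rw [div1_apply, S, floor_div]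
  rfl

/-! ### comparison of sums and integrals -/

lemma pow_mean_le (k : ℕ) {a b : ℝ} (hb : 0 ≤ b) (hab : b ≤ a) :
    (a ^ (k + 1) - b ^ (k + 1)) / (k + 1) ≤ a ^ k * (a - b) := by
  rw [div_le_iff₀ (by positivity)]
  induction k with
  | zero => simp
  | succ k ih =>
    have h1 : a ^ (k + 1 + 1) - b ^ (k + 1 + 1) = a * (a ^ (k + 1) - b ^ (k + 1)) +
      b ^ (k + 1) * (a - b) := by ring
    have h2 : b ^ (k + 1) ≤ a ^ (k + 1) := pow_le_pow_left₀ hb hab _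
    have h3 : 0 ≤ a - b := by linarith
    have h4 : 0 ≤ a := hb.trans hab
    rw [h1]
    push_cast
    have h5 := mul_le_mul_of_nonneg_left ih h4
    have h6 := mul_le_mul_of_nonneg_right h2 h3
    have e1 : a * (a ^ k * (a - b) * (k + 1)) = a ^ (k + 1) * (a - b) * (k + 1) := by ring
    have e2 : a ^ (k + 1) * (a - b) * ((k : ℝ) + 1 + 1) =
      a ^ (k + 1) * (a - b) * (k + 1) + a ^ (k + 1) * (a - b) := by ring
    rw [e1] at h5
    rw [e2]
    linarith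

lemma le_pow_mean (k : ℕ) {a b : ℝ} (hb : 0 ≤ b) (hab : b ≤ a) :
    b ^ k * (a - b) ≤ (a ^ (k + 1) - b ^ (k + 1)) / (k + 1) := by
  rw [le_div_iff₀ (by positivity)]
  induction k with
  | zero => simp
  | succ k ih =>
    have h1 : a ^ (k + 1 + 1) - b ^ (k + 1 + 1) = b * (a ^ (k + 1) - b ^ (k + 1)) +
      a ^ (k + 1) * (a - b) := by ring
    have h2 : b ^ (k + 1) ≤ a ^ (k + 1) := pow_le_pow_left₀ hb hab _
    have h3 : 0 ≤ a - b := by linarith
    rw [h1]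
    push_cast
    have h5 := mul_le_mul_of_nonneg_left ih hb
    have h6 := mul_le_mul_of_nonneg_right h2 h3
    have e1 : b * (b ^ k * (a - b) * (k + 1)) = b ^ (k + 1) * (a - b) * (k + 1) := by ring
    have e2 : b ^ (k + 1) * (a - b) * ((k : ℝ) + 1 + 1) =
      b ^ (k + 1) * (a - b) * (k + 1) + b ^ (k + 1) * (a - b) := by ring
    rw [e1] at h5
    rw [e2]
    linarith

lemma log_step_le {m : ℕ} (hm : 0 < m) : Real.log ((m + 1 : ℕ) : ℝ) - Real.log m ≤ 1 / m := by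
  have hm' : (0 : ℝ) < m := by exact_mod_cast hm
  rw [← Real.log_div (by positivity) (by positivity)]
  have h := Real.log_le_sub_one_of_pos (show (0 : ℝ) < ((m + 1 : ℕ) : ℝ) / m by positivity)
  refine h.trans (le_of_eq ?_)
  push_cast
  field_simp
  ring

lemma le_log_step {m : ℕ} (hm : 0 < m) :
    1 / ((m + 1 : ℕ) : ℝ) ≤ Real.log ((m + 1 : ℕ) : ℝ) - Real.log m := by
  have hm' : (0 : ℝ) < m := by exact_mod_cast hm
  rw [← Real.log_div (by positivity) (by positivity)]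
  have h := Real.one_sub_inv_le_log_of_pos (show (0 : ℝ) < ((m + 1 : ℕ) : ℝ) / m by positivity)
  refine le_trans (le_of_eq ?_) h
  push_cast
  field_simp
  ring

lemma sum_upper (k : ℕ) {x : ℝ} (hx : 1 ≤ x) (n : ℕ) (hn : ((n + 1 : ℕ) : ℝ) ≤ x) :
    ∑ m ∈ Ioc 0 (n + 1), 1 / (m : ℝ) * Real.log (x / m) ^ k ≤
      Real.log x ^ k + (Real.log x ^ (k + 1) - Real.log (x / (n + 1 : ℕ)) ^ (k + 1)) / (k + 1) := by
  induction n with
  | zero => simp
  | succ n ih =>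
    have hn' : ((n + 1 : ℕ) : ℝ) ≤ x := by push_cast at hn ⊢; linarith
    have h1 := ih hn'
    rw [Finset.sum_Ioc_succ_top (by omega)]
    have hx0 : 0 < x := by linarith
    have hl : Real.log (x / (n + 1 + 1 : ℕ)) = Real.log x - Real.log ((n + 1 + 1 : ℕ) : ℝ) :=
      Real.log_div hx0.ne' (by positivity)
    have hl' : Real.log (x / (n + 1 : ℕ)) = Real.log x - Real.log ((n + 1 : ℕ) : ℝ) :=
      Real.log_div hx0.ne' (by positivity)
    have hb : 0 ≤ Real.log (x / (n + 1 + 1 : ℕ)) :=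
      Real.log_nonneg (by rw [le_div_iff₀ (by positivity)]; simpa using hn)
    have hstep := le_log_step (show 0 < n + 1 by omega)
    have hab : Real.log (x / (n + 1 + 1 : ℕ)) ≤ Real.log (x / (n + 1 : ℕ)) := by
      rw [hl, hl']
      have : (0 : ℝ) ≤ 1 / ((n + 1 + 1 : ℕ) : ℝ) := by positivity
      linarith
    have h2 := le_pow_mean k hb hab
    have h3 : 1 / ((n + 1 + 1 : ℕ) : ℝ) * Real.log (x / (n + 1 + 1 : ℕ)) ^ k ≤
        Real.log (x / (n + 1 + 1 : ℕ)) ^ k *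
          (Real.log (x / (n + 1 : ℕ)) - Real.log (x / (n + 1 + 1 : ℕ))) := by
      rw [mul_comm]
      refine mul_le_mul_of_nonneg_left ?_ (pow_nonneg hb k)
      rw [hl, hl']; linarith
    have h4 : (Real.log x ^ (k + 1) - Real.log (x / (n + 1 + 1 : ℕ)) ^ (k + 1)) / (k + 1) =
        (Real.log x ^ (k + 1) - Real.log (x / (n + 1 : ℕ)) ^ (k + 1)) / (k + 1) +
        (Real.log (x / (n + 1 : ℕ)) ^ (k + 1) - Real.log (x / (n + 1 + 1 : ℕ)) ^ (k + 1)) / (k + 1) := by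
      ring
    rw [h4]
    linarith

lemma sum_lower (k : ℕ) {x : ℝ} (hx : 1 ≤ x) (n : ℕ) (hn : ((n + 1 : ℕ) : ℝ) ≤ x) :
    (Real.log x ^ (k + 1) - Real.log (x / (n + 1 : ℕ)) ^ (k + 1)) / (k + 1) ≤
    ∑ m ∈ Ioc 0 n, 1 / (m : ℝ) * Real.log (x / m) ^ k := by
  induction n with
  | zero => simp
  | succ n ih =>
    have hn' : ((n + 1 : ℕ) : ℝ) ≤ x := by push_cast at hn ⊢; linarith
    have h1 := ih hn'
    rw [Finset.sum_Ioc_succ_top (by omega)]
    have hx0 : 0 < x := by linarith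
    have hl : Real.log (x / (n + 1 + 1 : ℕ)) = Real.log x - Real.log ((n + 1 + 1 : ℕ) : ℝ) :=
      Real.log_div hx0.ne' (by positivity)
    have hl' : Real.log (x / (n + 1 : ℕ)) = Real.log x - Real.log ((n + 1 : ℕ) : ℝ) :=
      Real.log_div hx0.ne' (by positivity)
    have hb : 0 ≤ Real.log (x / (n + 1 + 1 : ℕ)) :=
      Real.log_nonneg (by rw [le_div_iff₀ (by positivity)]; simpa using hn)
    have hstep := le_log_step (show 0 < n + 1 by omega)
    have hstep' := log_step_le (show 0 < n + 1 by omega)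
    have hab : Real.log (x / (n + 1 + 1 : ℕ)) ≤ Real.log (x / (n + 1 : ℕ)) := by
      rw [hl, hl']
      have : (0 : ℝ) ≤ 1 / ((n + 1 + 1 : ℕ) : ℝ) := by positivity
      linarith
    have h2 := pow_mean_le k hb hab
    have h3 : Real.log (x / (n + 1 : ℕ)) ^ k *
          (Real.log (x / (n + 1 : ℕ)) - Real.log (x / (n + 1 + 1 : ℕ))) ≤
        1 / ((n + 1 : ℕ) : ℝ) * Real.log (x / (n + 1 : ℕ)) ^ k := by
      rw [mul_comm]
      refine mul_le_mul_of_nonneg_right ?_ (pow_nonneg (hb.trans hab) k)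
      rw [hl, hl']; linarith
    have h4 : (Real.log x ^ (k + 1) - Real.log (x / (n + 1 + 1 : ℕ)) ^ (k + 1)) / (k + 1) =
        (Real.log x ^ (k + 1) - Real.log (x / (n + 1 : ℕ)) ^ (k + 1)) / (k + 1) +
        (Real.log (x / (n + 1 : ℕ)) ^ (k + 1) - Real.log (x / (n + 1 + 1 : ℕ)) ^ (k + 1)) / (k + 1) := by
      ring
    rw [h4]
    linarith

/-- Comparison of the sum of `log^k(x/m)/m` with the integral. -/
lemma sum_log_pow (k : ℕ) {x : ℝ} (hx : 1 ≤ x) :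
    |∑ m ∈ Ioc 0 ⌊x⌋₊, 1 / (m : ℝ) * Real.log (x / m) ^ k - Real.log x ^ (k + 1) / (k + 1)| ≤
      Real.log x ^ k := by
  obtain ⟨n, hn⟩ : ∃ n, ⌊x⌋₊ = n + 1 :=
    ⟨⌊x⌋₊ - 1, (Nat.sub_add_cancel (Nat.le_floor (by exact_mod_cast hx))).symm⟩
  have hx0 : 0 < x := by linarith
  have hle : ((n + 1 : ℕ) : ℝ) ≤ x := by rw [← hn]; exact Nat.floor_le hx0.le
  have hlt : x < ((n + 1 : ℕ) : ℝ) + 1 := by rw [← hn]; exact Nat.lt_floor_add_one x
  have hn0 : (0 : ℝ) < ((n + 1 : ℕ) : ℝ) := by positivity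
  have ha : 0 ≤ Real.log (x / (n + 1 : ℕ)) :=
    Real.log_nonneg (by rw [le_div_iff₀ hn0]; simpa using hle)
  have ha' : Real.log (x / (n + 1 : ℕ)) ≤ 1 / ((n + 1 : ℕ) : ℝ) := by
    refine (Real.log_le_sub_one_of_pos (by positivity)).trans ?_
    rw [sub_le_iff_le_add, div_le_iff₀ hn0]
    field_simp
    linarith
  have h1 := sum_upper k hx n hle
  have h2 := sum_lower k hx n hle
  have h3 : Real.log (x / (n + 1 : ℕ)) ^ (k + 1) / (k + 1) ≤
      1 / ((n + 1 : ℕ) : ℝ) * Real.log (x / (n + 1 : ℕ)) ^ k := by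
    have h4 : Real.log (x / (n + 1 : ℕ)) ^ (k + 1) / (k + 1) ≤
        Real.log (x / (n + 1 : ℕ)) ^ (k + 1) := by
      refine div_le_self (pow_nonneg ha _) ?_
      have : (0 : ℝ) ≤ k := k.cast_nonneg
      linarith
    refine h4.trans ?_
    rw [pow_succ, mul_comm]
    exact mul_le_mul_of_nonneg_right ha' (pow_nonneg ha k)
  have h5 : 0 ≤ Real.log (x / (n + 1 : ℕ)) ^ (k + 1) / (k + 1) := by positivity
  have h6 : (Real.log x ^ (k + 1) - Real.log (x / (n + 1 : ℕ)) ^ (k + 1)) / (k + 1) =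
      Real.log x ^ (k + 1) / (k + 1) - Real.log (x / (n + 1 : ℕ)) ^ (k + 1) / (k + 1) := by ring
  have h7 : 0 ≤ Real.log x ^ k := pow_nonneg (Real.log_nonneg hx) k
  rw [hn, abs_le]
  constructor
  · rw [Finset.sum_Ioc_succ_top (by omega)]
    linarith
  · linarith

/-! ### convolution with the constant function -/

/-- `S f x = c (log x)^(k+1) + O((1 + log x)^k)`. -/
def Asym (f : ArithmeticFunction ℝ) (c : ℝ) (k : ℕ) : Prop :=
  ∃ C : ℝ, 0 ≤ C ∧ ∀ x : ℝ, 1 ≤ x → |S f x - c * Real.log x ^ (k + 1)| ≤ C * (1 + Real.log x) ^ k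

lemma harm_le {x : ℝ} (hx : 1 ≤ x) : ∑ m ∈ Ioc 0 ⌊x⌋₊, 1 / (m : ℝ) ≤ 1 + Real.log x := by
  have h := sum_log_pow 0 hx
  simp only [pow_zero, mul_one, zero_add, pow_one, Nat.cast_zero, div_one] at h
  have := (abs_le.1 h).2
  linarith

lemma Asym.mul_zeta {f : ArithmeticFunction ℝ} {c : ℝ} {k : ℕ} (h : Asym f c k) :
    Asym (f * (ζ : ArithmeticFunction ℝ)) (c / (k + 2)) (k + 1) := by
  obtain ⟨C, hC, h⟩ := h
  refine ⟨C + |c|, by positivity, fun x hx => ?_⟩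
  have hx0 : 0 < x := by linarith
  have hlx : 0 ≤ Real.log x := Real.log_nonneg hx
  have e1 : S (f * (ζ : ArithmeticFunction ℝ)) x =
      ∑ m ∈ Ioc 0 ⌊x⌋₊, 1 / (m : ℝ) * S f (x / m) := by
    rw [S_mul]
    refine Finset.sum_congr rfl fun m hm => ?_
    rw [Finset.mem_Ioc] at hm
    rw [natCoe_apply, zeta_apply_ne (by omega), Nat.cast_one]
  have e2 : |∑ m ∈ Ioc 0 ⌊x⌋₊, 1 / (m : ℝ) * S f (x / m) -
      c * ∑ m ∈ Ioc 0 ⌊x⌋₊, 1 / (m : ℝ) * Real.log (x / m) ^ (k + 1)| ≤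
      C * (1 + Real.log x) ^ (k + 1) := by
    rw [Finset.mul_sum, ← Finset.sum_sub_distrib]
    refine (Finset.abs_sum_le_sum_abs _ _).trans ?_
    have e3 : ∀ m ∈ Ioc 0 ⌊x⌋₊, |1 / (m : ℝ) * S f (x / m) -
        c * (1 / (m : ℝ) * Real.log (x / m) ^ (k + 1))| ≤
        1 / (m : ℝ) * (C * (1 + Real.log x) ^ k) := by
      intro m hm
      rw [Finset.mem_Ioc] at hm
      have hm0 : (0 : ℝ) < m := by exact_mod_cast hm.1
      have hm1 : (1 : ℝ) ≤ m := by exact_mod_cast hm.1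
      have hmx : (m : ℝ) ≤ x := (Nat.le_floor_iff hx0.le).1 hm.2
      have hq : 1 ≤ x / m := by rw [le_div_iff₀ hm0]; simpa using hmx
      have hql : Real.log (x / m) ≤ Real.log x :=
        Real.log_le_log (by positivity) (div_le_self hx0.le hm1)
      rw [show 1 / (m : ℝ) * S f (x / m) - c * (1 / (m : ℝ) * Real.log (x / m) ^ (k + 1)) =
        1 / (m : ℝ) * (S f (x / m) - c * Real.log (x / m) ^ (k + 1)) by ring, abs_mul,
        abs_of_nonneg (by positivity : (0 : ℝ) ≤ 1 / m)]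
      refine mul_le_mul_of_nonneg_left ((h _ hq).trans ?_) (by positivity)
      refine mul_le_mul_of_nonneg_left ?_ hC
      exact pow_le_pow_left₀ (by have := Real.log_nonneg hq; linarith) (by linarith) _
    refine (Finset.sum_le_sum e3).trans ?_
    rw [← Finset.sum_mul, pow_succ]
    have := harm_le hx
    have h0 : 0 ≤ C * (1 + Real.log x) ^ k := by positivity
    nlinarith [mul_le_mul_of_nonneg_right this h0]
  have e4 : |c * ∑ m ∈ Ioc 0 ⌊x⌋₊, 1 / (m : ℝ) * Real.log (x / m) ^ (k + 1) -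
      c * (Real.log x ^ (k + 1 + 1) / ((k + 1 : ℕ) + 1))| ≤ |c| * (1 + Real.log x) ^ (k + 1) := by
    rw [← mul_sub, abs_mul]
    refine mul_le_mul_of_nonneg_left ((sum_log_pow (k + 1) hx).trans ?_) (abs_nonneg _)
    exact pow_le_pow_left₀ hlx (by linarith) _
  have e5 : c / (k + 2) * Real.log x ^ (k + 1 + 1) =
      c * (Real.log x ^ (k + 1 + 1) / ((k + 1 : ℕ) + 1)) := by
    push_cast
    ring
  rw [e1, e5, add_mul]
  calc |_ - _| = |(∑ m ∈ Ioc 0 ⌊x⌋₊, 1 / (m : ℝ) * S f (x / m) -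
      c * ∑ m ∈ Ioc 0 ⌊x⌋₊, 1 / (m : ℝ) * Real.log (x / m) ^ (k + 1)) +
      (c * ∑ m ∈ Ioc 0 ⌊x⌋₊, 1 / (m : ℝ) * Real.log (x / m) ^ (k + 1) -
      c * (Real.log x ^ (k + 1 + 1) / ((k + 1 : ℕ) + 1)))| := by congr 1; ring
    _ ≤ _ := (abs_add_le _ _).trans (add_le_add e2 e4)


/-! ### squarefree numbers -/

/-- The square of the Moebius function. -/
noncomputable def musq : ArithmeticFunction ℝ := (μ : ArithmeticFunction ℝ).pmul (μ : ArithmeticFunction ℝ)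

lemma dvd_of_sq_dvd {a b m : ℕ} (ha : Squarefree a) (hb : b ≠ 0) (h : m ^ 2 ∣ b ^ 2 * a) :
    m ∣ b := by
  have ha0 : a ≠ 0 := ha.ne_zero
  have hm0 : m ≠ 0 := by
    rintro rfl
    rw [zero_pow two_ne_zero, zero_dvd_iff, mul_eq_zero] at h
    rcases h with h | h
    · exact hb (pow_eq_zero_iff two_ne_zero |>.1 h)
    · exact ha0 h
  rw [← Nat.factorization_le_iff_dvd hm0 hb]
  intro p
  have h1 := (Nat.factorization_le_iff_dvd (pow_ne_zero 2 hm0)
    (mul_ne_zero (pow_ne_zero 2 hb) ha0)).2 h p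
  rw [Nat.factorization_mul (pow_ne_zero 2 hb) ha0, Nat.factorization_pow, Nat.factorization_pow] at h1
  simp only [Finsupp.coe_smul, Finsupp.coe_add, Pi.add_apply, Pi.smul_apply, smul_eq_mul] at h1
  have h2 := ha.natFactorization_le_one p
  omega

lemma musq_apply {n : ℕ} (hn : n ≠ 0) (N : ℕ) (hN : n ≤ N) :
    musq n = ∑ m ∈ Ioc 0 N, if m ^ 2 ∣ n then (μ m : ℝ) else 0 := by
  obtain ⟨a, b, hab, ha⟩ := Nat.sq_mul_squarefree n
  have hb0 : b ≠ 0 := by
    rintro rfl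
    simp at hab
    exact hn hab.symm
  have hiff : ∀ m, m ^ 2 ∣ n ↔ m ∣ b := by
    intro m
    constructor
    · intro h
      exact dvd_of_sq_dvd ha hb0 (by rwa [hab])
    · intro h
      rw [← hab]
      exact (pow_dvd_pow_of_dvd h 2).mul_right a
  have h1 : ∑ m ∈ Ioc 0 N, (if m ^ 2 ∣ n then (μ m : ℝ) else 0) = ∑ m ∈ b.divisors, (μ m : ℝ) := by
    rw [← Finset.sum_filter]
    refine Finset.sum_congr ?_ fun _ _ => rfl
    ext m
    simp only [Finset.mem_filter, Finset.mem_Ioc, Nat.mem_divisors, hiff]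
    constructor
    · rintro ⟨_, h⟩
      exact ⟨h, hb0⟩
    · rintro ⟨h, _⟩
      refine ⟨⟨Nat.pos_of_dvd_of_pos h (Nat.pos_of_ne_zero hb0), ?_⟩, h⟩
      have h2 : m ^ 2 ∣ n := (hiff m).2 h
      have h3 := Nat.le_of_dvd (Nat.pos_of_ne_zero hn) h2
      have h4 : m ≤ m ^ 2 := Nat.le_self_pow (by norm_num) m
      omega
  have h2 : ∑ m ∈ b.divisors, (μ m : ℝ) = if b = 1 then 1 else 0 := by
    have h3 : ((μ : ArithmeticFunction ℤ) * (ζ : ArithmeticFunction ℤ)) b = (1 : ArithmeticFunction ℤ) b := by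
      rw [moebius_mul_coe_zeta]
    rw [coe_mul_zeta_apply, ArithmeticFunction.one_apply] at h3
    exact_mod_cast congrArg (Int.cast : ℤ → ℝ) h3
  rw [h1, h2]
  change (μ n : ℝ) * (μ n : ℝ) = _
  have h4 : (μ n : ℝ) * (μ n : ℝ) = ((μ n ^ 2 : ℤ) : ℝ) := by push_cast; ring
  rw [h4, moebius_sq]
  have h5 : Squarefree n ↔ b = 1 := by
    constructor
    · intro h
      have := h b ⟨a, by rw [← hab]; ring⟩
      exact Nat.isUnit_iff.1 this
    · rintro rfl
      rw [← hab]; simpa using ha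
  by_cases hb : b = 1
  · rw [if_pos hb, if_pos (h5.2 hb)]; simp
  · rw [if_neg hb, if_neg (fun h => hb (h5.1 h))]; simp

/-- The harmonic sum. -/
noncomputable def H (x : ℝ) : ℝ := ∑ m ∈ Ioc 0 ⌊x⌋₊, 1 / (m : ℝ)

lemma H_sub_log {x : ℝ} (hx : 1 ≤ x) : |H x - Real.log x| ≤ 1 := by
  have h := sum_log_pow 0 hx
  simpa [H] using h

lemma H_eq_zero {x : ℝ} (hx : x < 1) : H x = 0 := by
  rw [H, Nat.floor_eq_zero.2 hx]
  simp

lemma S_musq (x : ℝ) :
    S musq x = ∑ m ∈ Ioc 0 ⌊x⌋₊, (μ m : ℝ) / m ^ 2 * H (x / m ^ 2) := by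
  have h1 : S musq x = ∑ n ∈ Ioc 0 ⌊x⌋₊, ∑ m ∈ Ioc 0 ⌊x⌋₊,
      (if m ^ 2 ∣ n then (μ m : ℝ) / n else 0) := by
    refine Finset.sum_congr rfl fun n hn => ?_
    rw [Finset.mem_Ioc] at hn
    rw [musq_apply (by omega) ⌊x⌋₊ hn.2, Finset.sum_div]
    refine Finset.sum_congr rfl fun m _ => ?_
    split_ifs <;> simp
  rw [h1, Finset.sum_comm]
  refine Finset.sum_congr rfl fun m hm => ?_
  rw [Finset.mem_Ioc] at hm
  have hm2 : 0 < m ^ 2 := pow_pos hm.1 2
  rw [H, Finset.mul_sum, ← Finset.sum_filter]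
  have hfl : ⌊x / (m : ℝ) ^ 2⌋₊ = ⌊x⌋₊ / m ^ 2 := by
    have := floor_div x (m ^ 2)
    push_cast at this
    exact this
  rw [hfl]
  symm
  refine Finset.sum_bij (fun l _ => m ^ 2 * l) ?_ ?_ ?_ ?_
  · intro l hl
    rw [Finset.mem_Ioc, Nat.le_div_iff_mul_le hm2] at hl
    rw [Finset.mem_filter, Finset.mem_Ioc]
    refine ⟨⟨Nat.mul_pos hm2 hl.1, by rw [mul_comm]; exact hl.2⟩, dvd_mul_right _ _⟩
  · intro l _ l' _ h
    exact Nat.eq_of_mul_eq_mul_left hm2 h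
  · intro n hn
    rw [Finset.mem_filter, Finset.mem_Ioc] at hn
    obtain ⟨⟨hn0, hnx⟩, l, rfl⟩ := hn
    refine ⟨l, ?_, rfl⟩
    rw [Finset.mem_Ioc, Nat.le_div_iff_mul_le hm2, mul_comm l]
    exact ⟨Nat.pos_of_ne_zero (by rintro rfl; simp at hn0), hnx⟩
  · intro l hl
    rw [Finset.mem_Ioc] at hl
    have hl0 : (0 : ℝ) < l := by exact_mod_cast hl.1
    have hm0 : (0 : ℝ) < m := by exact_mod_cast hm.1
    push_cast
    field_simp

lemma log_le_sqrt' (m : ℕ) : Real.log m ≤ 2 * (m : ℝ) ^ (1 / 2 : ℝ) := by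
  rcases Nat.eq_zero_or_pos m with rfl | hm
  · simp
  have hm0 : (0 : ℝ) < m := by exact_mod_cast hm
  have h1 : Real.log m = 2 * Real.log ((m : ℝ) ^ (1 / 2 : ℝ)) := by
    rw [Real.log_rpow hm0]; ring
  rw [h1]
  have h2 := Real.log_le_sub_one_of_pos (show (0 : ℝ) < (m : ℝ) ^ (1 / 2 : ℝ) by positivity)
  linarith

lemma summable_log : Summable fun m : ℕ => (2 * Real.log m + 1) / (m : ℝ) ^ 2 := by
  refine Summable.of_nonneg_of_le (fun m => ?_) (fun m => ?_)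
    ((Real.summable_nat_rpow_inv.2 (show (1 : ℝ) < 3 / 2 by norm_num)).mul_left 5)
  · have := Real.log_natCast_nonneg m
    positivity
  · rcases Nat.eq_zero_or_pos m with rfl | hm
    · simp
    have hm0 : (0 : ℝ) < m := by exact_mod_cast hm
    have hm1 : (1 : ℝ) ≤ m := by exact_mod_cast hm
    have h1 := log_le_sqrt' m
    have h2 : (1 : ℝ) ≤ (m : ℝ) ^ (1 / 2 : ℝ) := Real.one_le_rpow hm1 (by norm_num)
    have h3 : (m : ℝ) ^ (2 : ℕ) = (m : ℝ) ^ (1 / 2 : ℝ) * (m : ℝ) ^ (3 / 2 : ℝ) := by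
      rw [← Real.rpow_add hm0, ← Real.rpow_natCast]; norm_num
    rw [div_le_iff₀ (by positivity), h3]
    have h4 : (0 : ℝ) < (m : ℝ) ^ (3 / 2 : ℝ) := by positivity
    rw [show 5 * ((m : ℝ) ^ (3 / 2 : ℝ))⁻¹ * ((m : ℝ) ^ (1 / 2 : ℝ) * (m : ℝ) ^ (3 / 2 : ℝ)) =
      5 * (m : ℝ) ^ (1 / 2 : ℝ) * (((m : ℝ) ^ (3 / 2 : ℝ))⁻¹ * (m : ℝ) ^ (3 / 2 : ℝ)) by ring,
      inv_mul_cancel₀ h4.ne', mul_one]
    linarith

lemma hasSum_moebius : HasSum (fun m : ℕ => (μ m : ℝ) / (m : ℝ) ^ 2) (6 / Real.pi ^ 2) := by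
  have h1 : (1 : ℝ) < (2 : ℂ).re := by norm_num
  have h2 := LSeries_one_mul_Lseries_moebius h1
  rw [LSeries_one_eq_riemannZeta h1, riemannZeta_two] at h2
  have h3 := ((LSeriesSummable_moebius_iff (s := 2)).2 h1).LSeriesHasSum
  have h4 : LSeries (fun n => ((μ n : ℤ) : ℂ)) 2 = ((6 / Real.pi ^ 2 : ℝ) : ℂ) := by
    have hpi : (Real.pi : ℂ) ≠ 0 := by exact_mod_cast Real.pi_ne_zero
    have : LSeries (fun n => ((μ n : ℤ) : ℂ)) 2 = ((Real.pi : ℂ) ^ 2 / 6)⁻¹ :=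
      eq_inv_of_mul_eq_one_right h2
    rw [this]
    push_cast
    field_simp
  rw [h4, LSeriesHasSum] at h3
  have h5 : (LSeries.term (fun n => ((μ n : ℤ) : ℂ)) 2) =
      fun m : ℕ => (((μ m : ℝ) / (m : ℝ) ^ 2 : ℝ) : ℂ) := by
    funext m
    rcases Nat.eq_zero_or_pos m with rfl | hm
    · simp
    rw [LSeries.term_of_ne_zero (by omega)]
    push_cast
    norm_num
  rw [h5] at h3
  exact_mod_cast h3

lemma asym_musq : Asym musq (6 / Real.pi ^ 2) 0 := by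
  refine ⟨∑' m : ℕ, (2 * Real.log m + 1) / (m : ℝ) ^ 2, tsum_nonneg fun m => ?_, fun x hx => ?_⟩
  · have := Real.log_natCast_nonneg m
    positivity
  have hx0 : 0 < x := by linarith
  have hlx : 0 ≤ Real.log x := Real.log_nonneg hx
  rw [pow_zero, mul_one, zero_add, pow_one]
  have h1 : HasSum (fun m : ℕ => (μ m : ℝ) / (m : ℝ) ^ 2 * H (x / (m : ℝ) ^ 2)) (S musq x) := by
    rw [S_musq x]
    refine hasSum_sum_of_ne_finset_zero fun m hm => ?_
    rw [Finset.mem_Ioc, not_and_or] at hm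
    rcases Nat.eq_zero_or_pos m with rfl | hm0
    · simp
    have h2 : ⌊x⌋₊ < m := by
      rcases hm with hm | hm <;> omega
    have h3 : x < m := (Nat.floor_lt hx0.le).1 h2
    have h4 : (1 : ℝ) ≤ m := by exact_mod_cast hm0
    rw [H_eq_zero, mul_zero]
    rw [div_lt_one (by positivity)]
    nlinarith
  have h2 := hasSum_moebius.mul_right (Real.log x)
  have h3 := h1.sub h2
  have hb : ∀ m : ℕ, ‖(μ m : ℝ) / (m : ℝ) ^ 2 * H (x / (m : ℝ) ^ 2) -
      (μ m : ℝ) / (m : ℝ) ^ 2 * Real.log x‖ ≤ (2 * Real.log m + 1) / (m : ℝ) ^ 2 := by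
    intro m
    rcases Nat.eq_zero_or_pos m with rfl | hm0
    · simp
    have hm1 : (1 : ℝ) ≤ m := by exact_mod_cast hm0
    have hm0' : (0 : ℝ) < m := by linarith
    have hlm : 0 ≤ Real.log m := Real.log_nonneg hm1
    rw [← mul_sub, norm_mul, Real.norm_eq_abs, Real.norm_eq_abs, abs_div,
      abs_of_pos (show (0 : ℝ) < (m : ℝ) ^ 2 by positivity)]
    have h4 : |(μ m : ℝ)| ≤ 1 := by exact_mod_cast abs_moebius_le_one (n := m)
    have h5 : |H (x / (m : ℝ) ^ 2) - Real.log x| ≤ 2 * Real.log m + 1 := by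
      rcases le_or_gt 1 (x / (m : ℝ) ^ 2) with hc | hc
      · have h6 := H_sub_log hc
        rw [Real.log_div hx0.ne' (by positivity), Real.log_pow] at h6
        push_cast at h6
        rw [abs_le] at h6 ⊢
        constructor <;> linarith [h6.1, h6.2]
      · rw [H_eq_zero hc, zero_sub, abs_neg, abs_of_nonneg hlx]
        rw [div_lt_one (by positivity)] at hc
        have h6 := Real.log_le_log hx0 hc.le
        rw [Real.log_pow] at h6
        push_cast at h6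
        linarith
    rw [div_mul_eq_mul_div]
    refine div_le_div_of_nonneg_right ?_ (by positivity)
    calc _ ≤ 1 * (2 * Real.log m + 1) := mul_le_mul h4 h5 (abs_nonneg _) (by norm_num)
      _ = _ := one_mul _
  have h4 := tsum_of_norm_bounded summable_log.hasSum hb
  rw [h3.tsum_eq, Real.norm_eq_abs] at h4
  exact h4

/-! ### the square of the divisor function -/

/-- The divisor function. -/
noncomputable def dd : ArithmeticFunction ℝ := ((σ 0 : ArithmeticFunction ℕ) : ArithmeticFunction ℝ)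

lemma dd_apply (n : ℕ) : dd n = (n.divisors.card : ℝ) := by
  rw [dd, natCoe_apply, sigma_zero_apply]

lemma dd_eq : dd = (ζ : ArithmeticFunction ℝ) * (ζ : ArithmeticFunction ℝ) := by
  rw [dd, ← zeta_mul_pow_eq_sigma, pow_zero_eq_zeta, natCoe_mul]

lemma mul_zeta_prime_pow (f : ArithmeticFunction ℝ) {p : ℕ} (hp : p.Prime) (k : ℕ) :
    (f * (ζ : ArithmeticFunction ℝ)) (p ^ k) = ∑ i ∈ Finset.range (k + 1), f (p ^ i) := by
  rw [coe_mul_zeta_apply, Nat.sum_divisors_prime_pow hp]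

lemma musq_prime_pow {p : ℕ} (hp : p.Prime) (k : ℕ) :
    musq (p ^ k) = if k ≤ 1 then 1 else 0 := by
  change (μ (p ^ k) : ℝ) * (μ (p ^ k) : ℝ) = _
  rcases k with _ | _ | k
  · simp
  · simp [moebius_apply_prime hp]
  · rw [moebius_apply_prime_pow hp (by omega), if_neg (by omega), if_neg (by omega)]
    simp

lemma dd_sq : dd.pmul dd = musq * (ζ : ArithmeticFunction ℝ) * (ζ : ArithmeticFunction ℝ) *
    (ζ : ArithmeticFunction ℝ) := by
  have hz : (ζ : ArithmeticFunction ℝ).IsMultiplicative := isMultiplicative_zeta.natCast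
  have hm : musq.IsMultiplicative :=
    isMultiplicative_moebius.intCast.pmul isMultiplicative_moebius.intCast
  have hd : dd.IsMultiplicative := isMultiplicative_sigma.natCast
  rw [IsMultiplicative.eq_iff_eq_on_prime_powers _ (hd.pmul hd) _ (((hm.mul hz).mul hz).mul hz)]
  intro p k hp
  have h0 : ∀ k : ℕ, (musq * (ζ : ArithmeticFunction ℝ)) (p ^ k) = if k = 0 then 1 else 2 := by
    intro k
    rw [mul_zeta_prime_pow _ hp]
    simp only [musq_prime_pow hp]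
    induction k with
    | zero =>
      rw [zero_add, Finset.sum_range_one, if_pos (by omega), if_pos rfl]
    | succ k ih =>
      rw [Finset.sum_range_succ, ih]
      rcases k with _ | k
      · norm_num
      · rw [if_neg (Nat.succ_ne_zero k), if_neg (Nat.succ_ne_zero (k + 1)),
          if_neg (show ¬ k + 1 + 1 ≤ 1 by omega), add_zero]
  have h1 : ∀ k : ℕ, (musq * (ζ : ArithmeticFunction ℝ) * (ζ : ArithmeticFunction ℝ)) (p ^ k) =
      2 * k + 1 := by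
    intro k
    rw [mul_zeta_prime_pow _ hp]
    simp only [h0]
    induction k with
    | zero => simp
    | succ k ih =>
      rw [Finset.sum_range_succ, ih, if_neg (by omega)]
      push_cast
      ring
  rw [mul_zeta_prime_pow _ hp]
  simp only [h1]
  rw [pmul_apply, dd, natCoe_apply, sigma_zero_apply_prime_pow hp]
  induction k with
  | zero => simp
  | succ k ih =>
    rw [Finset.sum_range_succ, ← ih]
    push_cast
    ring

/-- `∑_{n ≤ x} d(n)²/n = (log x)⁴/(4π²) + O((1 + log x)³)`. -/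
theorem sum_divisors_sq : ∃ C : ℝ, 0 ≤ C ∧ ∀ x : ℝ, 1 ≤ x →
    |∑ n ∈ Finset.Ioc 0 ⌊x⌋₊, ((n.divisors.card : ℝ)) ^ 2 / n - Real.log x ^ 4 / (4 * Real.pi ^ 2)| ≤
      C * (1 + Real.log x) ^ 3 := by
  obtain ⟨C, hC, h⟩ := asym_musq.mul_zeta.mul_zeta.mul_zeta
  refine ⟨C, hC, fun x hx => ?_⟩
  have h1 := h x hx
  rw [← dd_sq] at h1
  have e1 : S (dd.pmul dd) x = ∑ n ∈ Finset.Ioc 0 ⌊x⌋₊, ((n.divisors.card : ℝ)) ^ 2 / n := by
    refine Finset.sum_congr rfl fun n _ => ?_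
    rw [pmul_apply, dd_apply, sq]
  rw [e1] at h1
  have hpi := Real.pi_ne_zero
  have e2 : 6 / Real.pi ^ 2 / (((0 : ℕ) : ℝ) + 2) / (((0 + 1 : ℕ) : ℝ) + 2) /
      (((0 + 1 + 1 : ℕ) : ℝ) + 2) * Real.log x ^ (0 + 1 + 1 + 1 + 1) =
      Real.log x ^ 4 / (4 * Real.pi ^ 2) := by
    push_cast
    field_simp
    ring
  rw [e2] at h1
  exact h1

/-- The limit over real `x`. -/
theorem tendsto_sum_divisors_sq : Tendsto (fun x : ℝ =>
    (∑ n ∈ Finset.Ioc 0 ⌊x⌋₊, ((n.divisors.card : ℝ)) ^ 2 / n) / Real.log x ^ 4) atTop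
    (𝓝 (1 / (4 * Real.pi ^ 2))) := by
  obtain ⟨C, hC, h⟩ := sum_divisors_sq
  have hlog := Real.tendsto_log_atTop
  have h2 : Tendsto (fun x : ℝ => C * 8 / Real.log x) atTop (𝓝 0) :=
    hlog.const_div_atTop _
  rw [← tendsto_sub_nhds_zero_iff]
  refine squeeze_zero_norm' ?_ h2
  filter_upwards [hlog.eventually_ge_atTop 1, eventually_ge_atTop 1] with x hl hx
  have hl0 : 0 < Real.log x := by linarith
  have h3 := h x hx
  have h4 : (1 + Real.log x) ^ 3 ≤ 8 * Real.log x ^ 3 := by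
    calc (1 + Real.log x) ^ 3 ≤ (2 * Real.log x) ^ 3 :=
          pow_le_pow_left₀ (by linarith) (by linarith) 3
      _ = _ := by ring
  have e : (∑ n ∈ Finset.Ioc 0 ⌊x⌋₊, ((n.divisors.card : ℝ)) ^ 2 / n) / Real.log x ^ 4 -
      1 / (4 * Real.pi ^ 2) = (∑ n ∈ Finset.Ioc 0 ⌊x⌋₊, ((n.divisors.card : ℝ)) ^ 2 / n -
      Real.log x ^ 4 / (4 * Real.pi ^ 2)) / Real.log x ^ 4 := by
    have hpi := Real.pi_ne_zero
    field_simp
  rw [e, Real.norm_eq_abs, abs_div, abs_of_pos (show 0 < Real.log x ^ 4 by positivity),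
    div_le_div_iff₀ (by positivity) hl0]
  calc _ ≤ C * (1 + Real.log x) ^ 3 * Real.log x := mul_le_mul_of_nonneg_right h3 hl0.le
    _ ≤ C * (8 * Real.log x ^ 3) * Real.log x := by gcongr
    _ = _ := by ring

/-- The limit over natural numbers. -/
theorem tendsto_sum_divisors_sq_nat : Tendsto (fun N : ℕ =>
    (∑ n ∈ Finset.Ioc 0 N, ((n.divisors.card : ℝ)) ^ 2 / n) / Real.log N ^ 4) atTop
    (𝓝 (1 / (4 * Real.pi ^ 2))) := by
  have h := tendsto_sum_divisors_sq.comp (tendsto_natCast_atTop_atTop (R := ℝ))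
  refine h.congr fun N => ?_
  simp only [Function.comp_apply, Nat.floor_natCast]

end Pool.Agent.Lib.MP_f9aece_nt_h5.D2
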